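import Mathlib

open MeasureTheory Set Filter
open scoped ENNReal Topology BigOperators Real

namespace HG

noncomputable section

/-- The radius `R = 2 log N / ζ` of the disc. -/
def Rad (ζ : ℝ) (N : ℕ) : ℝ := 2 * Real.log N / ζ

/-- The radial density `ρ(r) = α sinh(α r) / (cosh(α R) - 1)`. -/
def rho (ζ α : ℝ) (N : ℕ) (r : ℝ) : ℝ :=
  α * Real.sinh (α * r) / (Real.cosh (α * Rad ζ N) - 1)

/-- The law of a radius: density `ρ` on `[0, R]`. -/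
def radial (ζ α : ℝ) (N : ℕ) : Measure ℝ :=
  (volume.restrict (Icc 0 (Rad ζ N))).withDensity (fun r => ENNReal.ofReal (rho ζ α N r))

/-- The uniform law on the angles `(0, 2π]`. -/
def angular : Measure ℝ := (ENNReal.ofReal (2 * π))⁻¹ • volume.restrict (Ioc 0 (2 * π))

/-- The law of one random point, given by (radius, angle). -/
def pt (ζ α : ℝ) (N : ℕ) : Measure (ℝ × ℝ) := (radial ζ α N).prod angular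

/-- The relative angle in `[0, π]` of two angles in `(0, 2π]`. -/
def rel (s t : ℝ) : ℝ := π - |π - (|s - t|)|

/-- The right side of the hyperbolic cosine rule. -/
def cr (ζ : ℝ) (u v : ℝ × ℝ) : ℝ :=
  Real.cosh (ζ * u.1) * Real.cosh (ζ * v.1)
    - Real.sinh (ζ * u.1) * Real.sinh (ζ * v.1) * Real.cos (rel u.2 v.2)

/-- The hyperbolic distance: `arcosh` of the right side of the cosine rule, over `ζ`. -/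
def hdist (ζ : ℝ) (u v : ℝ × ℝ) : ℝ := Real.log (cr ζ u v + √(cr ζ u v ^ 2 - 1)) / ζ

/-- The connection probability. -/
def prob (ζ β : ℝ) (N : ℕ) (u v : ℝ × ℝ) : ℝ :=
  1 / (Real.exp (β * (ζ / 2) * (hdist ζ u v - Rad ζ N)) + 1)

theorem rel_comm (s t : ℝ) : rel s t = rel t s := by
  unfold rel; rw [abs_sub_comm s t]

theorem cr_comm (ζ : ℝ) (u v : ℝ × ℝ) : cr ζ u v = cr ζ v u := by
  unfold cr; rw [rel_comm u.2 v.2]; ring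

theorem prob_comm (ζ β : ℝ) (N : ℕ) (u v : ℝ × ℝ) : prob ζ β N u v = prob ζ β N v u := by
  unfold prob hdist; rw [cr_comm ζ u v]

/-- The edge probabilities, given the points. -/
def eprob (ζ β : ℝ) (N : ℕ) (x : Fin N → ℝ × ℝ) : Sym2 (Fin N) → ℝ :=
  Sym2.lift ⟨fun i j => prob ζ β N (x i) (x j), fun i j => prob_comm ζ β N (x i) (x j)⟩

/-- The graph with edge `ij` (`i ≠ j`) present iff `U ij < P ij`. -/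
def gr {V : Type} (P U : Sym2 V → ℝ) : SimpleGraph V where
  Adj i j := i ≠ j ∧ U s(i, j) < P s(i, j)
  symm := ⟨fun i j h => ⟨h.1.symm, by rw [Sym2.eq_swap]; exact h.2⟩⟩
  loopless := ⟨fun i h => h.1 rfl⟩

/-- Independent uniform thresholds in `[0,1]`, one for each pair. -/
def thr (N : ℕ) : Measure (Sym2 (Fin N) → ℝ) :=
  Measure.pi fun _ => volume.restrict (Icc (0:ℝ) 1)

/-- The probability space: `N` independent points and independent uniform thresholds. -/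
def model (ζ α : ℝ) (N : ℕ) : Measure ((Fin N → ℝ × ℝ) × (Sym2 (Fin N) → ℝ)) :=
  (Measure.pi fun _ => pt ζ α N).prod (thr N)

/-- The random graph. -/
def rgraph (ζ β : ℝ) (N : ℕ) (ω : (Fin N → ℝ × ℝ) × (Sym2 (Fin N) → ℝ)) :
    SimpleGraph (Fin N) := gr (eprob ζ β N ω.1) ω.2

/-! ### Auxiliary notions for the proof -/

/-- `a(r) = exp(ζ (R - r)/2)` -/
def wt (ζ : ℝ) (N : ℕ) (r : ℝ) : ℝ := Real.exp (ζ * (Rad ζ N - r) / 2)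

/-- the sprinkling probability -/
def qq (N : ℕ) : ℝ := 1 / (4 * N)

/-- first round probabilities -/
def prob1 (ζ : ℝ) (N : ℕ) (u v : ℝ × ℝ) : ℝ := (prob ζ 1 N u v - qq N) / (1 - qq N)

/-- the disc -/
def disc (ζ : ℝ) (N : ℕ) : Set (ℝ × ℝ) := Icc 0 (Rad ζ N) ×ˢ Ioc 0 (2 * π)

/-- truncated lower weight -/
def ff (ζ : ℝ) (N k : ℕ) (u v : ℝ × ℝ) : ℝ :=
  if wt ζ N v.1 * k ≤ N ∧ wt ζ N v.1 * k / N ≤ rel u.2 v.2 then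
    2 * wt ζ N v.1 / (N * rel u.2 v.2) else 0

/-- a set `S` of vertices with no edge to its complement -/
def IsCut {N : ℕ} (G : SimpleGraph (Fin N)) (S : Finset (Fin N)) : Prop :=
  ∀ i ∈ S, ∀ j ∉ S, ¬ G.Adj i j

/-- admissible parameters -/
structure Adm (ζ α : ℝ) : Prop where
  z0 : 0 < ζ
  z2 : ζ < 2
  a0 : 0 < α
  h2 : ζ / α < 2

/-! ### Statements of the steps -/

/-- `pt` is a probability measure -/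
def S_PM : Prop := ∀ ζ α : ℝ, Adm ζ α → ∀ N : ℕ, 2 ≤ N → IsProbabilityMeasure (radial ζ α N) ∧
  IsProbabilityMeasure angular ∧ IsProbabilityMeasure (pt ζ α N)

/-- almost every point is in the disc -/
def S_AE : Prop := ∀ ζ α : ℝ, Adm ζ α → ∀ N : ℕ, 2 ≤ N → ∀ᵐ u ∂(pt ζ α N), u ∈ disc ζ N

/-- measurability -/
def S_MEAS : Prop := ∀ (ζ : ℝ) (N : ℕ), Measurable (fun w : (ℝ × ℝ) × (ℝ × ℝ) => prob ζ 1 N w.1 w.2)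

/-- rotation: the relative angle to a fixed angle is uniform on `[0,π]` -/
def S_ROT : Prop := ∀ t ∈ Ioc (0:ℝ) (2 * π),
  Measure.map (fun s => rel t s) angular = (ENNReal.ofReal π)⁻¹ • volume.restrict (Icc 0 π)

/-- polar coordinates around a fixed direction `t` -/
def S_POL : Prop := ∀ ζ α : ℝ, Adm ζ α → ∀ N : ℕ, 2 ≤ N → ∀ t ∈ Ioc (0:ℝ) (2 * π),
  Measure.map (fun v : ℝ × ℝ => (v.1, rel t v.2)) (pt ζ α N)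
    = (radial ζ α N).prod ((ENNReal.ofReal π)⁻¹ • volume.restrict (Icc 0 π))

/-- density bounds -/
def S_RHO : Prop := ∀ ζ α : ℝ, Adm ζ α → ∃ C : ℝ, 0 < C ∧ ∀ N : ℕ, 2 ≤ N → ∀ r ∈ Icc 0 (Rad ζ N),
  rho ζ α N r ≤ C * Real.exp (-(α * (Rad ζ N - r))) ∧
  α * Real.exp (-(α * (Rad ζ N - r))) - α * Real.exp (-(2 * α * Rad ζ N) + α * (Rad ζ N - r)) ≤ rho ζ α N r

/-- exponential moments of `R - r` -/
def S_MOM : Prop := ∀ ζ α : ℝ, Adm ζ α → ∀ s : ℝ, 0 ≤ s → s < α → ∃ C : ℝ, 0 < C ∧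
  ∀ N : ℕ, 2 ≤ N → Integrable (fun r => Real.exp (s * (Rad ζ N - r))) (radial ζ α N) ∧
    ∫ r, Real.exp (s * (Rad ζ N - r)) ∂(radial ζ α N) ≤ C

/-- mean of the weight, lower and upper bound -/
def S_MEAN : Prop := ∀ ζ α : ℝ, Adm ζ α → ∃ C : ℝ, 0 < C ∧ ∀ N : ℕ, 2 ≤ N →
  α / (α - ζ / 2) - C / Real.log N ≤ ∫ r, wt ζ N r ∂(radial ζ α N) ∧
  ∫ r, wt ζ N r ∂(radial ζ α N) ≤ α / (α - ζ / 2) + C / Real.log N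

/-- Laplace transform bound -/
def S_LAP : Prop := ∀ ζ α : ℝ, Adm ζ α → ∃ C : ℝ, 0 < C ∧ ∀ N : ℕ, 2 ≤ N → ∀ B : ℝ, 1 ≤ B →
  ∫ u, Real.exp (-(min (wt ζ N u.1) 2 * B)) ∂(pt ζ α N) ≤ C * Real.exp (-B) / B

/-- lower bound for the connection probability -/
def S_PLB : Prop := ∀ ζ : ℝ, 0 < ζ → ∀ N : ℕ, 2 ≤ N → ∀ u ∈ disc ζ N, ∀ v ∈ disc ζ N,
  1 / (N * rel u.2 v.2 / (2 * (wt ζ N u.1 * wt ζ N v.1)) + 3) ≤ prob ζ 1 N u v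

/-- elementary facts: `qq ≤ prob ≤ 1` on the disc, `0 ≤ prob ≤ 1` always -/
def S_PEL : Prop := ∀ ζ : ℝ, 0 < ζ → ∀ N : ℕ, 2 ≤ N →
  (∀ u v, 0 ≤ prob ζ 1 N u v ∧ prob ζ 1 N u v ≤ 1) ∧
  (∀ u ∈ disc ζ N, ∀ v ∈ disc ζ N, qq N ≤ prob ζ 1 N u v)

/-- pointwise inequality -/
def S_PW : Prop := ∀ (N : ℕ) (S : Finset (Fin N)) (h x : Fin N → ℝ) (q : ℝ), 0 ≤ q →
  (∀ i ∈ S, 0 ≤ h i) → (∀ i ∈ S, 0 ≤ x i ∧ x i ≤ 1) → (∀ i ∈ S, h i - 3 * h i ^ 2 - q ≤ x i) →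
  (∑ i ∈ S, h i) - 4 * (∑ i ∈ S, h i) ^ 2 - S.card * q ≤ 1 - ∏ i ∈ S, (1 - x i)

/-- first moment of the truncated weights -/
def S_M1 : Prop := ∀ ζ α : ℝ, Adm ζ α → 2 - 4 / π ≤ ζ / α → ∃ C : ℝ, 0 < C ∧
  ∀ N : ℕ, 2 ≤ N → ∀ k : ℕ, 1 ≤ k → k ≤ N → ∀ u ∈ disc ζ N,
  (Real.log (N / k) - C) / N ≤ ∫ v, ff ζ N k u v ∂(pt ζ α N)

/-- second moment of the truncated weights (and boundedness) -/
def S_M2 : Prop := ∀ ζ α : ℝ, Adm ζ α → ∃ C : ℝ, 0 < C ∧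
  ∀ N : ℕ, 2 ≤ N → ∀ k : ℕ, 1 ≤ k → k ≤ N → ∀ u ∈ disc ζ N,
  ∫ v, ff ζ N k u v ^ 2 ∂(pt ζ α N) ≤ C / (N * k)

/-- the key bound for the non-connection of one more vertex with a set -/
def S_INNER : Prop := ∀ ζ α : ℝ, Adm ζ α → 2 - 4 / π ≤ ζ / α → ∃ C : ℝ, 0 < C ∧
  ∀ N : ℕ, 2 ≤ N → ∀ S : Finset (Fin N), S.Nonempty → ∀ x : Fin N → ℝ × ℝ, (∀ i, x i ∈ disc ζ N) →
  ∫ y, ∏ i ∈ S, (1 - prob1 ζ N (x i) y) ∂(pt ζ α N)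
    ≤ 1 - (∑ i ∈ S, min (wt ζ N (x i).1) 2) / N * (Real.log (N / S.card) - C)

/-- integration over the points outside `S` -/
def S_CUT : Prop := ∀ (N : ℕ) (μ : Measure (ℝ × ℝ)), IsProbabilityMeasure μ →
  ∀ κ : (ℝ × ℝ) → (ℝ × ℝ) → ℝ, Measurable (fun w : (ℝ × ℝ) × (ℝ × ℝ) => κ w.1 w.2) →
  (∀ u v, 0 ≤ κ u v ∧ κ u v ≤ 2) → ∀ w : ℝ × ℝ → ℝ, Measurable w → (∀ u, 0 ≤ w u ∧ w u ≤ 1) →
  ∀ S : Finset (Fin N),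
  ∫ x, (∏ i ∈ S, w (x i)) * ∏ i ∈ S, ∏ j ∈ Sᶜ, κ (x i) (x j) ∂(Measure.pi fun _ : Fin N => μ)
    = ∫ x, (∏ i ∈ S, w (x i)) * (∫ y, ∏ i ∈ S, κ (x i) y ∂μ) ^ (N - S.card)
        ∂(Measure.pi fun _ : Fin N => μ)

/-- measurability of graph events -/
def S_GM : Prop := ∀ (N : ℕ) (a b ζ : ℝ) (T : Set (SimpleGraph (Fin N))),
  MeasurableSet {ω : (Fin N → ℝ × ℝ) × (Sym2 (Fin N) → ℝ) |
    gr (fun e => (eprob ζ 1 N ω.1 e - a) / b) ω.2 ∈ T}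

/-- probability of a cut, given the points -/
def S_BOX : Prop := ∀ (N : ℕ) (P : Sym2 (Fin N) → ℝ), (∀ e, P e ≤ 1) → ∀ S : Finset (Fin N),
  (∀ i ∈ S, ∀ j ∉ S, 0 ≤ P s(i, j)) →
  thr N {U | IsCut (gr P U) S} = ENNReal.ofReal (∏ i ∈ S, ∏ j ∈ Sᶜ, (1 - P s(i, j)))

/-- coupling for the sprinkling -/
def S_SPR1 : Prop := ∀ (N : ℕ) (P : Sym2 (Fin N) → ℝ) (q : ℝ), 0 ≤ q → q < 1 →
  (∀ e, q ≤ P e ∧ P e ≤ 1) → ∀ T : Set (SimpleGraph (Fin N)),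
  thr N {U | gr P U ∈ T} = ((thr N).prod (thr N))
    {w | gr (fun e => (P e - q) / (1 - q)) w.1 ⊔ gr (fun _ => q) w.2 ∈ T}

/-- second round of the sprinkling -/
def S_SPR2 : Prop := ∀ (N : ℕ), 1 ≤ N → ∀ (G : SimpleGraph (Fin N)) (q : ℝ), 0 ≤ q → q < 1 →
  ∀ m : ℕ, (∀ S : Finset (Fin N), S.Nonempty → IsCut G S → m < S.card) →
  thr N {W | ¬ (G ⊔ gr (fun _ => q) W).Connected} ≤
    ENNReal.ofReal ((N:ℝ) ^ 2 * (1 - q) ^ (m ^ 2))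

/-- sprinkling -/
def S_SPR : Prop := ∀ (N : ℕ), 1 ≤ N → ∀ (P : Sym2 (Fin N) → ℝ) (q : ℝ), 0 ≤ q → q < 1 →
  (∀ e, q ≤ P e ∧ P e ≤ 1) → ∀ m : ℕ,
  thr N {U | ¬ (gr P U).Connected} ≤
    thr N {U | ∃ S : Finset (Fin N), S.Nonempty ∧ S.card ≤ m ∧
      IsCut (gr (fun e => (P e - q) / (1 - q)) U) S}
    + ENNReal.ofReal ((N:ℝ) ^ 2 * (1 - q) ^ (m ^ 2))

/-- the sum over the sizes -/
def S_SUM : Prop := ∀ C : ℝ, 0 < C → ∃ δ : ℝ, 0 < δ ∧ δ < 1 / 2 ∧ C + 1 ≤ Real.log (1 / δ) ∧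
  Tendsto (fun N : ℕ => ∑ k ∈ Finset.Icc 1 ⌊δ * N⌋₊,
    (N.choose k : ℝ) * (C * (k / N) / (Real.log (N / k) - C)) ^ k) atTop (𝓝 0)

/-- no small cuts in the first round -/
def S_SMALL : Prop := ∀ ζ α : ℝ, Adm ζ α → 2 - 4 / π ≤ ζ / α → ∃ δ : ℝ, 0 < δ ∧
  Tendsto (fun N : ℕ => model ζ α N {ω | ∃ S : Finset (Fin N), S.Nonempty ∧ S.card ≤ ⌊δ * N⌋₊ ∧
    IsCut (gr (fun e => (eprob ζ 1 N ω.1 e - qq N) / (1 - qq N)) ω.2) S}) atTop (𝓝 0)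

/-- connectivity -/
def S_POS : Prop := ∀ ζ α : ℝ, Adm ζ α → 2 - 4 / π ≤ ζ / α →
  Tendsto (fun N : ℕ => model ζ α N {ω | (rgraph ζ 1 N ω).Connected}) atTop (𝓝 1)

/-! negative side -/

/-- upper bound for the connection probability -/
def S_PUB : Prop := ∀ ζ : ℝ, 0 < ζ → ∀ N : ℕ, 2 ≤ N → ∀ r0 : ℝ, 0 < r0 → ∀ u v : ℝ × ℝ,
  r0 ≤ u.1 → r0 ≤ v.1 → 0 < rel u.2 v.2 → 
  prob ζ 1 N u v ≤ wt ζ N u.1 * wt ζ N v.1 /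
    ((1 - Real.exp (-(2 * ζ * r0))) * (N * Real.sin (rel u.2 v.2 / 2)))

/-- probability that the radius is small -/
def S_RSM : Prop := ∀ ζ α : ℝ, Adm ζ α → ∀ r0 : ℝ, Tendsto (fun N : ℕ =>
  (N:ℝ) * Real.log N * (radial ζ α N (Iic r0)).toReal) atTop (𝓝 0)

/-- mean degree near the boundary -/
def S_DEG : Prop := ∀ ζ α : ℝ, Adm ζ α → ∀ ε : ℝ, 0 < ε → ∃ δ : ℝ, 0 < δ ∧ δ ≤ 1 ∧
  ∀ᶠ N : ℕ in atTop, ∀ u ∈ disc ζ N, Rad ζ N - δ ≤ u.1 →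
  N * ∫ v, prob ζ 1 N u v ∂(pt ζ α N) ≤ (2 / π * (α / (α - ζ / 2)) + ε) * Real.log N

/-- two distant vertices near the boundary have few common neighbours -/
def S_Q2 : Prop := ∀ ζ α : ℝ, Adm ζ α → ∀ η : ℝ, 0 < η → ∀ ε : ℝ, 0 < ε →
  ∀ᶠ N : ℕ in atTop, ∀ u ∈ disc ζ N, ∀ v ∈ disc ζ N, Rad ζ N - 1 ≤ u.1 → Rad ζ N - 1 ≤ v.1 →
  (N:ℝ) ^ (η - 1) ≤ rel u.2 v.2 →
  N * ∫ y, prob ζ 1 N u y * prob ζ 1 N v y ∂(pt ζ α N) ≤ ε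

/-- `i` is isolated and near the boundary -/
def IsoB (ζ : ℝ) (N : ℕ) (δ : ℝ) (i : Fin N) : Set ((Fin N → ℝ × ℝ) × (Sym2 (Fin N) → ℝ)) :=
  {ω | Rad ζ N - δ ≤ (ω.1 i).1 ∧ ∀ j, ¬ (rgraph ζ 1 N ω).Adj i j}

/-- second moment method -/
def S_SM : Prop := ∀ (Ω : Type) (_ : MeasurableSpace Ω) (μ : Measure Ω), IsProbabilityMeasure μ →
  ∀ (N : ℕ), 1 ≤ N → ∀ A : Fin N → Set Ω, (∀ i, MeasurableSet (A i)) → ∀ e1 e2 : ℝ, 0 < e1 →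
  0 ≤ e2 → (∀ i, (μ (A i)).toReal = e1) → (∀ i j, i ≠ j → (μ (A i ∩ A j)).toReal ≤ e2) →
  (μ {ω | ∀ i, ω ∉ A i}).toReal ≤ 1 / (N * e1) + (e2 / e1 ^ 2 - 1)

/-- the probability of one isolated vertex near the boundary -/
def e1f (ζ α : ℝ) (δ : ℝ) (N : ℕ) : ℝ := ∫ u, (if Rad ζ N - δ ≤ u.1 then
    (1 - ∫ y, prob ζ 1 N u y ∂(pt ζ α N)) ^ (N - 1) else 0) ∂(pt ζ α N)

/-- upper bound for the probability of two isolated vertices near the boundary -/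
def e2f (ζ α : ℝ) (δ : ℝ) (N : ℕ) : ℝ := ∫ u, ∫ v,
    (if Rad ζ N - δ ≤ u.1 ∧ Rad ζ N - δ ≤ v.1 then
    (∫ y, (1 - prob ζ 1 N u y) * (1 - prob ζ 1 N v y) ∂(pt ζ α N)) ^ (N - 2) else 0)
      ∂(pt ζ α N) ∂(pt ζ α N)

/-- probability of one isolated vertex -/
def S_E1 : Prop := ∀ ζ α : ℝ, Adm ζ α → ∀ δ : ℝ, ∀ N : ℕ, 2 ≤ N → ∀ i : Fin N,
  (model ζ α N (IsoB ζ N δ i)).toReal = e1f ζ α δ N

/-- probability of two isolated vertices -/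
def S_E2 : Prop := ∀ ζ α : ℝ, Adm ζ α → ∀ δ : ℝ, ∀ N : ℕ, 2 ≤ N → ∀ i j : Fin N, i ≠ j →
  (model ζ α N (IsoB ζ N δ i ∩ IsoB ζ N δ j)).toReal ≤ e2f ζ α δ N

/-- lower bound for `e1f` -/
def S_E1LB : Prop := ∀ ζ α : ℝ, Adm ζ α → ζ / α < 2 - 4 / π → ∃ δ η : ℝ, 0 < δ ∧ δ ≤ 1 ∧
  0 < η ∧ η < 1 ∧ (∀ᶠ N : ℕ in atTop, (N:ℝ) ^ (2 * η - 1) ≤ e1f ζ α δ N) ∧
  (∀ᶠ N : ℕ in atTop, ∀ u ∈ disc ζ N, Rad ζ N - δ ≤ u.1 →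
    ∫ v, prob ζ 1 N u v ∂(pt ζ α N) ≤ Real.log N / N)

/-- upper bound for `e2f` -/
def S_E2UB : Prop := ∀ ζ α : ℝ, Adm ζ α → ∀ δ η : ℝ, 0 < δ → δ ≤ 1 →
  0 < η → η < 1 → (∀ᶠ N : ℕ in atTop, (N:ℝ) ^ (2 * η - 1) ≤ e1f ζ α δ N) →
  (∀ᶠ N : ℕ in atTop, ∀ u ∈ disc ζ N, Rad ζ N - δ ≤ u.1 →
    ∫ v, prob ζ 1 N u v ∂(pt ζ α N) ≤ Real.log N / N) →
  ∀ ε : ℝ, 0 < ε → ∀ᶠ N : ℕ in atTop, e2f ζ α δ N ≤ (1 + ε) * e1f ζ α δ N ^ 2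

/-- disconnectedness -/
def S_NEG : Prop := ∀ ζ α : ℝ, Adm ζ α → ζ / α < 2 - 4 / π →
  Tendsto (fun N : ℕ => model ζ α N {ω | (rgraph ζ 1 N ω).Connected}) atTop (𝓝 0)

end

end HG
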