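import Pool.Agent.R985.HG.Defs

open MeasureTheory Set Filter
open scoped ENNReal Topology BigOperators Real

namespace HG

theorem fin_cr_ge (ζ : ℝ) (hζ : 0 < ζ) (u v : ℝ × ℝ) (hu : 0 ≤ u.1) (hv : 0 ≤ v.1) :
    1 ≤ cr ζ u v := by
  unfold cr
  have h1 : 0 ≤ Real.sinh (ζ * u.1) := Real.sinh_nonneg_iff.2 (by positivity)
  have h2 : 0 ≤ Real.sinh (ζ * v.1) := Real.sinh_nonneg_iff.2 (by positivity)
  have h3 := Real.cos_le_one (rel u.2 v.2)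
  have h4 : Real.cosh (ζ * u.1 - ζ * v.1) = Real.cosh (ζ * u.1) * Real.cosh (ζ * v.1)
      - Real.sinh (ζ * u.1) * Real.sinh (ζ * v.1) := Real.cosh_sub _ _
  have h5 := Real.one_le_cosh (ζ * u.1 - ζ * v.1)
  have h6 : Real.sinh (ζ * u.1) * Real.sinh (ζ * v.1) * Real.cos (rel u.2 v.2)
      ≤ Real.sinh (ζ * u.1) * Real.sinh (ζ * v.1) :=
    mul_le_of_le_one_right (mul_nonneg h1 h2) h3
  linarith

/-- the distance is the nonnegative solution of the hyperbolic cosine rule -/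
theorem fin_hdist (ζ : ℝ) (hζ : 0 < ζ) (u v : ℝ × ℝ) (hu : 0 ≤ u.1) (hv : 0 ≤ v.1) :
    0 ≤ hdist ζ u v ∧ Real.cosh (ζ * hdist ζ u v) = cr ζ u v := by
  have hc := fin_cr_ge ζ hζ u v hu hv
  set c := cr ζ u v with hcd
  have hs : 0 ≤ c ^ 2 - 1 := by nlinarith
  have hsq : √(c ^ 2 - 1) ^ 2 = c ^ 2 - 1 := Real.sq_sqrt hs
  have hs0 : 0 ≤ √(c ^ 2 - 1) := Real.sqrt_nonneg _
  have hx : 1 ≤ c + √(c ^ 2 - 1) := by linarith
  have hx0 : 0 < c + √(c ^ 2 - 1) := by linarith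
  constructor
  · exact div_nonneg (Real.log_nonneg hx) hζ.le
  · have he : ζ * hdist ζ u v = Real.log (c + √(c ^ 2 - 1)) := by
      unfold hdist; rw [← hcd]; field_simp
    rw [he, Real.cosh_log hx0]
    have hinv : (c + √(c ^ 2 - 1))⁻¹ = c - √(c ^ 2 - 1) := by
      apply inv_eq_of_mul_eq_one_right
      nlinarith
    rw [hinv]; ring

theorem fin_main (hPM : S_PM) (hPOS : S_POS) (hNEG : S_NEG)
    (ζ α : ℝ) (hζ : 0 < ζ) (hζ2 : ζ < 2) (hα : 0 < α) (h : ζ / α < 2) :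
    (∀ N : ℕ, 2 ≤ N → IsProbabilityMeasure (model ζ α N)) ∧
    (∀ u v : ℝ × ℝ, 0 ≤ u.1 → 0 ≤ v.1 →
      0 ≤ hdist ζ u v ∧ Real.cosh (ζ * hdist ζ u v) = cr ζ u v) ∧
    (2 - 4 / π ≤ ζ / α →
      Tendsto (fun N : ℕ => model ζ α N {ω | (rgraph ζ 1 N ω).Connected}) atTop (𝓝 1)) ∧
    (ζ / α < 2 - 4 / π →
      Tendsto (fun N : ℕ => model ζ α N {ω | (rgraph ζ 1 N ω).Connected}) atTop (𝓝 0)) := by
  have hA : Adm ζ α := ⟨hζ, hζ2, hα, h⟩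
  refine ⟨fun N hN => ?_, fun u v hu hv => fin_hdist ζ hζ u v hu hv, hPOS ζ α hA, hNEG ζ α hA⟩
  have := (hPM ζ α hA N hN).2.2
  have : IsProbabilityMeasure (volume.restrict (Icc (0:ℝ) 1)) := ⟨by simp⟩
  unfold model thr
  infer_instance

end HG
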