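import Pool.Agent.R985.HG.Defs

/-! HG-BOX (helper160): probability of a cut, given the points -/

open MeasureTheory Set Filter
open scoped ENNReal Topology BigOperators Real

namespace HG

theorem BOX_iff {N : ℕ} (P U : Sym2 (Fin N) → ℝ) (S : Finset (Fin N)) :
    IsCut (gr P U) S ↔ ∀ i ∈ S, ∀ j ∉ S, P s(i, j) ≤ U s(i, j) := by
  constructor
  · intro h i hi j hj
    by_contra hc
    exact h i hi j hj ⟨fun e => hj (e ▸ hi), not_le.mp hc⟩
  · intro h i hi j hj hadj
    exact absurd hadj.2 (not_lt.mpr (h i hi j hj))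

theorem BOX_vol {p : ℝ} (h0 : 0 ≤ p) (_ : p ≤ 1) :
    (volume.restrict (Icc (0:ℝ) 1)) (Ici p) = ENNReal.ofReal (1 - p) := by
  rw [Measure.restrict_apply measurableSet_Ici]
  have : Ici p ∩ Icc (0:ℝ) 1 = Icc p 1 := by
    ext x
    simp only [mem_inter_iff, mem_Ici, mem_Icc]
    constructor
    · rintro ⟨a, b, c⟩; exact ⟨a, c⟩
    · rintro ⟨a, c⟩; exact ⟨a, h0.trans a, c⟩
  rw [this, Real.volume_Icc]

theorem t_BOX : S_BOX := by
  classical
  intro N P hP S hS
  set E : Finset (Sym2 (Fin N)) := (S ×ˢ Sᶜ).image (fun p => s(p.1, p.2)) with hE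
  let B : Sym2 (Fin N) → Set ℝ := fun e => if e ∈ E then Ici (P e) else univ
  have hset : {U : Sym2 (Fin N) → ℝ | IsCut (gr P U) S} = Set.pi univ B := by
    ext U
    simp only [mem_ofPred_eq, BOX_iff, Set.mem_pi, mem_univ, true_imp_iff]
    constructor
    · intro h e
      by_cases he : e ∈ E
      · obtain ⟨⟨i, j⟩, hij, rfl⟩ := Finset.mem_image.mp he
        simp only [Finset.mem_product, Finset.mem_compl] at hij
        simp only [B, if_pos he, mem_Ici]
        exact h i hij.1 j hij.2
      · simp only [B, if_neg he, mem_univ]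
    · intro h i hi j hj
      have he : s(i, j) ∈ E :=
        Finset.mem_image.mpr ⟨(i, j), by simp [hi, hj], rfl⟩
      have := h s(i, j)
      simpa only [B, if_pos he, mem_Ici] using this
  rw [hset]
  unfold thr
  rw [Measure.pi_pi]
  have h1 : ∀ e : Sym2 (Fin N), (volume.restrict (Icc (0:ℝ) 1)) (B e) =
      if e ∈ E then ENNReal.ofReal (1 - P e) else 1 := by
    intro e
    by_cases he : e ∈ E
    · obtain ⟨⟨i, j⟩, hij, hh⟩ := Finset.mem_image.mp he
      simp only [Finset.mem_product, Finset.mem_compl] at hij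
      simp only [B, if_pos he]
      refine BOX_vol ?_ (hP e)
      rw [← hh]
      exact hS i hij.1 j hij.2
    · simp only [B, if_neg he]
      rw [Measure.restrict_apply_univ, Real.volume_Icc]
      simp
  rw [Finset.prod_congr rfl (fun e _ => h1 e), Finset.prod_ite_mem, Finset.univ_inter]
  have hinj : Set.InjOn (fun p : Fin N × Fin N => s(p.1, p.2)) (S ×ˢ Sᶜ : Finset (Fin N × Fin N)) := by
    rintro ⟨i, j⟩ hij ⟨k, l⟩ hkl h
    simp only [Finset.coe_product, Set.mem_prod, Finset.mem_coe, Finset.mem_compl] at hij hkl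
    simp only [Sym2.eq_iff] at h
    rcases h with ⟨h1, h2⟩ | ⟨h1, h2⟩
    · rw [h1, h2]
    · exact absurd (h1 ▸ hij.1) hkl.2
  rw [hE, Finset.prod_image hinj, Finset.prod_product]
  rw [ENNReal.ofReal_prod_of_nonneg
    (fun i _ => Finset.prod_nonneg (fun j _ => by linarith [hP s(i, j)]))]
  refine Finset.prod_congr rfl (fun i _ => ?_)
  exact (ENNReal.ofReal_prod_of_nonneg (fun j _ => by linarith [hP s(i, j)])).symm

end HG
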