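import Pool.Agent.R985.HG.Defs

/-! HG-CUT (helper160): integration over the points outside `S` -/

open MeasureTheory Set Filter
open scoped ENNReal Topology BigOperators Real

namespace HG

theorem t_CUT : S_CUT := by
  classical
  intro N μ hμ κ hκ hκb w hw hwb S
  let p : Fin N → Prop := fun i => i ∈ S
  have mp := measurePreserving_piEquivPiSubtypeProd (fun _ : Fin N => μ) p
  let e := MeasurableEquiv.piEquivPiSubtypeProd (fun _ : Fin N => ℝ × ℝ) p
  let F : ((∀ i : {i // p i}, ℝ × ℝ) × (∀ i : {i // ¬ p i}, ℝ × ℝ)) → ℝ := fun z =>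
    (∏ i, w (z.1 i)) * ∏ j, ∏ i, κ (z.1 i) (z.2 j)
  let G : (∀ i : {i // p i}, ℝ × ℝ) → ℝ := fun a =>
    (∏ i, w (a i)) * (∫ y, ∏ i, κ (a i) y ∂μ) ^ (N - S.card)
  have hprodS : ∀ f : Fin N → ℝ, ∏ i ∈ S, f i = ∏ i : {i // p i}, f i := fun f =>
    Finset.prod_subtype S (fun i => Iff.rfl) f
  have hprodC : ∀ f : Fin N → ℝ, ∏ i ∈ Sᶜ, f i = ∏ i : {i // ¬ p i}, f i := fun f =>
    Finset.prod_subtype Sᶜ (fun i => by simp [p]) f
  have hL : ∀ x : Fin N → ℝ × ℝ,
      (∏ i ∈ S, w (x i)) * ∏ i ∈ S, ∏ j ∈ Sᶜ, κ (x i) (x j) = F (e x) := by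
    intro x
    rw [Finset.prod_comm, hprodS (fun i => w (x i)), hprodC (fun j => ∏ i ∈ S, κ (x i) (x j))]
    simp only [F]
    congr 1
    refine Finset.prod_congr rfl (fun j _ => ?_)
    exact hprodS (fun i => κ (x i) (x j))
  have hR : ∀ x : Fin N → ℝ × ℝ,
      (∏ i ∈ S, w (x i)) * (∫ y, ∏ i ∈ S, κ (x i) y ∂μ) ^ (N - S.card) = G (e x).1 := by
    intro x
    rw [hprodS (fun i => w (x i))]
    simp only [G]
    congr 2
    refine integral_congr_ae (Eventually.of_forall fun y => ?_)
    exact hprodS (fun i => κ (x i) y)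
  have h1 : ∫ x, (∏ i ∈ S, w (x i)) * ∏ i ∈ S, ∏ j ∈ Sᶜ, κ (x i) (x j)
      ∂(Measure.pi fun _ : Fin N => μ) = ∫ z, F z ∂((Measure.pi fun _ : {i // p i} => μ).prod
        (Measure.pi fun _ : {i // ¬ p i} => μ)) := by
    refine (integral_congr_ae (Eventually.of_forall fun x => hL x)).trans ?_
    convert mp.integral_comp' F using 3
    all_goals (congr 1; exact Subsingleton.elim _ _)
  have h2 : ∫ x, (∏ i ∈ S, w (x i)) * (∫ y, ∏ i ∈ S, κ (x i) y ∂μ) ^ (N - S.card)
      ∂(Measure.pi fun _ : Fin N => μ) = ∫ z, G z.1 ∂((Measure.pi fun _ : {i // p i} => μ).prod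
        (Measure.pi fun _ : {i // ¬ p i} => μ)) := by
    refine (integral_congr_ae (Eventually.of_forall fun x => hR x)).trans ?_
    convert mp.integral_comp' (fun z => G z.1) using 3
    all_goals (congr 1; exact Subsingleton.elim _ _)
  rw [h1, h2]
  have hFm : Measurable F := by
    refine Measurable.mul ?_ ?_
    · exact Finset.measurable_prod _ fun i _ => hw.comp ((measurable_pi_apply i).comp measurable_fst)
    · refine Finset.measurable_prod _ fun j _ => Finset.measurable_prod _ fun i _ => ?_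
      have : Measurable fun z : ((∀ i : {i // p i}, ℝ × ℝ) × (∀ i : {i // ¬ p i}, ℝ × ℝ)) =>
          (z.1 i, z.2 j) :=
        ((measurable_pi_apply i).comp measurable_fst).prodMk
          ((measurable_pi_apply j).comp measurable_snd)
      exact hκ.comp this
  have hFb : ∀ z, ‖F z‖ ≤ 1 * ∏ j : {i // ¬ p i}, ∏ i : {i // p i}, (2:ℝ) := by
    intro z
    rw [norm_mul]
    refine mul_le_mul ?_ ?_ (norm_nonneg _) zero_le_one
    · rw [Real.norm_of_nonneg (Finset.prod_nonneg fun i _ => (hwb _).1)]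
      exact Finset.prod_le_one (fun i _ => (hwb _).1) (fun i _ => (hwb _).2)
    · rw [Real.norm_of_nonneg (Finset.prod_nonneg fun j _ => Finset.prod_nonneg fun i _ =>
        (hκb _ _).1)]
      exact Finset.prod_le_prod (fun j _ => Finset.prod_nonneg fun i _ => (hκb _ _).1)
        (fun j _ => Finset.prod_le_prod (fun i _ => (hκb _ _).1) (fun i _ => (hκb _ _).2))
  have hFi : Integrable F ((Measure.pi fun _ : {i // p i} => μ).prod
        (Measure.pi fun _ : {i // ¬ p i} => μ)) :=
    Integrable.of_bound hFm.aestronglyMeasurable _ (Eventually.of_forall hFb)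
  rw [integral_prod F hFi, integral_fun_fst]
  have hcard : Fintype.card {i // ¬ p i} = N - S.card := by
    rw [Fintype.card_subtype_compl]
    simp [p]
  simp only [measureReal_def, measure_univ, ENNReal.toReal_one, one_smul]
  refine integral_congr_ae (Eventually.of_forall fun a => ?_)
  simp only [F, G]
  rw [integral_const_mul]
  congr 1
  rw [integral_fintype_prod_eq_prod (fun (_ : {i // ¬ p i}) (y : ℝ × ℝ) => ∏ i, κ (a i) y)]
  rw [Finset.prod_const, Finset.card_univ, hcard]

end HG
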