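import Pool.Agent.R985.HG.Defs

open MeasureTheory Set Filter
open scoped ENNReal Topology BigOperators Real

namespace HG

noncomputable section

theorem DEG_sin (x : ℝ) (h0 : 0 < x) (h1 : x ≤ π / 2) : 1 / Real.sin x ≤ 1 / x + 1 := by
  have hs : 0 < Real.sin x := Real.sin_pos_of_pos_of_lt_pi h0 (by linarith [Real.pi_pos])
  rw [div_le_iff₀ hs]
  have e : (1 / x + 1) = (1 + x) / x := by field_simp
  rw [e, div_mul_eq_mul_div, le_div_iff₀ h0, one_mul]
  have := Real.sin_gt_sub_cube h0
  have hpi : π < 3.15 := Real.pi_lt_d2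
  have hx : x < 1.6 := by linarith
  have h3 : 0 ≤ x ^ 2 * (6 - x - x ^ 2) := by
    apply mul_nonneg (by positivity); nlinarith
  nlinarith [mul_pos (show (0:ℝ) < 1 + x by linarith) (sub_pos.2 this)]

/-- majorant of the connection probability -/
def DEG_G (K a : ℝ) (N : ℕ) (θ : ℝ) : ℝ := if θ ≤ a / N then 1 else K * a * (2 / θ + 1) / N

theorem DEG_G_nonneg (K a : ℝ) (N : ℕ) (hK : 0 ≤ K) (ha : 0 ≤ a) (θ : ℝ) (hθ : 0 ≤ θ) :
    0 ≤ DEG_G K a N θ := by
  unfold DEG_G; split_ifs
  · norm_num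
  · positivity

theorem DEG_G_le (K a : ℝ) (N : ℕ) (hN : 2 ≤ N) (hK : 1 ≤ K) (ha : 1 ≤ a) (haN : a ≤ N) (θ : ℝ) :
    DEG_G K a N θ ≤ 1 + 3 * K := by
  have hN0 : (0:ℝ) < N := by positivity
  unfold DEG_G; split_ifs with h
  · linarith
  · push Not at h
    have hθ : 0 < θ := lt_of_le_of_lt (by positivity) h
    rw [div_le_iff₀ hN0]
    have h1 : a / θ ≤ N := by
      rw [div_le_iff₀ hθ]
      rw [div_lt_iff₀ hN0] at h; nlinarith
    have : K * a * (2 / θ + 1) = K * (2 * (a / θ) + a) := by field_simp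
    rw [this]
    nlinarith [mul_le_mul_of_nonneg_left (show 2 * (a/θ) + a ≤ 3 * N by linarith) (show 0 ≤ K by linarith)]

theorem DEG_inner (K a : ℝ) (N : ℕ) (hN : 2 ≤ N) (hK : 1 ≤ K) (ha : 1 ≤ a) (haN : a ≤ N) :
    ∫ θ, DEG_G K a N θ ∂((ENNReal.ofReal π)⁻¹ • volume.restrict (Icc 0 π))
      ≤ a / N * (K * (2 / π) * Real.log N + (1 / π + K * (2 / π) * Real.log π + K)) := by
  have hN0 : (0:ℝ) < N := by positivity
  have hpi := Real.pi_pos
  have hpi3 := Real.pi_gt_three
  have haN0 : 0 < a / N := by positivity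
  have haN1 : a / N ≤ π := by
    rw [div_le_iff₀ hN0]; nlinarith
  rw [integral_smul_measure]
  have e1 : ((ENNReal.ofReal π)⁻¹).toReal = 1 / π := by
    rw [ENNReal.toReal_inv, ENNReal.toReal_ofReal hpi.le, one_div]
  rw [e1, integral_Icc_eq_integral_Ioc, ← intervalIntegral.integral_of_le hpi.le]
  have i1 : IntervalIntegrable (DEG_G K a N) volume 0 (a / N) := by
    refine (intervalIntegrable_const (c := (1:ℝ))).congr ?_
    intro x hx
    rw [uIoc_of_le haN0.le] at hx
    simp [DEG_G, hx.2]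
  have hc : ContinuousOn (fun θ : ℝ => K * a * (2 / θ + 1) / N) (uIcc (a / N) π) := by
    rw [uIcc_of_le haN1]
    apply ContinuousOn.div_const
    apply ContinuousOn.mul continuousOn_const
    apply ContinuousOn.add _ continuousOn_const
    apply ContinuousOn.div continuousOn_const continuousOn_id
    intro x hx; exact (lt_of_lt_of_le haN0 hx.1).ne'
  have i2 : IntervalIntegrable (DEG_G K a N) volume (a / N) π := by
    refine (hc.intervalIntegrable).congr ?_
    intro x hx
    rw [uIoc_of_le haN1] at hx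
    simp only [DEG_G]; rw [if_neg (not_le.2 hx.1)]
  rw [← intervalIntegral.integral_add_adjacent_intervals i1 i2]
  have v1 : ∫ θ in (0:ℝ)..(a / N), DEG_G K a N θ = a / N := by
    have : ∫ θ in (0:ℝ)..(a / N), DEG_G K a N θ = ∫ θ in (0:ℝ)..(a / N), (1:ℝ) := by
      apply intervalIntegral.integral_congr
      intro x hx
      rw [uIcc_of_le haN0.le] at hx
      simp [DEG_G, hx.2]
    rw [this]; simp
  have v2 : ∫ θ in (a / N)..π, DEG_G K a N θ
      = K * a / N * (2 * Real.log (π / (a / N)) + (π - a / N)) := by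
    have : ∫ θ in (a / N)..π, DEG_G K a N θ
        = ∫ θ in (a / N)..π, K * a / N * (2 * (1 / θ) + 1) := by
      apply intervalIntegral.integral_congr_ae
      filter_upwards with x hx
      rw [uIoc_of_le haN1] at hx
      simp only [DEG_G]; rw [if_neg (not_le.2 hx.1)]; ring
    rw [this, intervalIntegral.integral_const_mul, intervalIntegral.integral_add,
      intervalIntegral.integral_const_mul, integral_one_div_of_pos haN0 hpi]
    · simp
    · apply IntervalIntegrable.const_mul
      apply intervalIntegral.intervalIntegrable_one_div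
      · intro x hx; rw [uIcc_of_le haN1] at hx; exact (lt_of_lt_of_le haN0 hx.1).ne'
      · exact continuousOn_id
    · exact intervalIntegrable_const
  rw [v1, v2, smul_eq_mul]
  have hl : Real.log (π / (a / N)) ≤ Real.log π + Real.log N := by
    rw [← Real.log_mul hpi.ne' hN0.ne']
    apply Real.log_le_log (by positivity)
    rw [div_div_eq_mul_div, div_le_iff₀ (by linarith)]
    nlinarith [mul_pos hpi hN0]
  have h1 : K * a / N * (2 * Real.log (π / (a / N)) + (π - a / N))
      ≤ K * a / N * (2 * (Real.log π + Real.log N) + π) := by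
    apply mul_le_mul_of_nonneg_left _ (by positivity)
    linarith
  calc 1 / π * (a / N + K * a / N * (2 * Real.log (π / (a / N)) + (π - a / N)))
      ≤ 1 / π * (a / N + K * a / N * (2 * (Real.log π + Real.log N) + π)) := by
        apply mul_le_mul_of_nonneg_left _ (by positivity); linarith
    _ = a / N * (K * (2 / π) * Real.log N + (1 / π + K * (2 / π) * Real.log π + K)) := by
        field_simp
        ring

theorem DEG_meas (K ζ : ℝ) (N : ℕ) :
    Measurable (fun w : ℝ × ℝ => DEG_G K (wt ζ N w.1) N w.2) := by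
  unfold DEG_G wt
  apply Measurable.ite
  · apply measurableSet_le <;> fun_prop
  · fun_prop
  · fun_prop

theorem DEG_rel (s t : ℝ) (hs : s ∈ Ioc (0:ℝ) (2 * π)) (ht : t ∈ Ioc (0:ℝ) (2 * π)) :
    0 ≤ rel s t ∧ rel s t ≤ π := by
  unfold rel
  have h1 : |s - t| ≤ 2 * π := by
    rw [abs_le]; constructor <;> linarith [hs.1, hs.2, ht.1, ht.2]
  have h2 : |π - (|s - t|)| ≤ π := by
    rw [abs_le]; constructor <;> linarith [abs_nonneg (s - t)]
  constructor
  · linarith
  · linarith [abs_nonneg (π - (|s - t|))]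

theorem DEG_wt (ζ : ℝ) (hζ : 0 < ζ) (N : ℕ) (hN : 2 ≤ N) (r : ℝ) (h0 : 0 ≤ r)
    (h1 : r ≤ Rad ζ N) : 1 ≤ wt ζ N r ∧ wt ζ N r ≤ N := by
  have hN0 : (0:ℝ) < N := by positivity
  unfold wt
  constructor
  · apply Real.one_le_exp; nlinarith
  · have : (N:ℝ) = Real.exp (ζ * Rad ζ N / 2) := by
      unfold Rad
      rw [show ζ * (2 * Real.log N / ζ) / 2 = Real.log N by field_simp, Real.exp_log hN0]
    rw [this]
    conv_rhs => rw [← this]
    rw [this]
    apply Real.exp_le_exp.2
    have : ((Real.exp (ζ * Rad ζ N / 2))) = N := this.symm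
    nlinarith

theorem DEG_radial_ae (ζ α : ℝ) (N : ℕ) : ∀ᵐ r ∂(radial ζ α N), r ∈ Icc 0 (Rad ζ N) := by
  unfold radial
  exact (withDensity_absolutelyContinuous _ _).ae_le (ae_restrict_mem measurableSet_Icc)

theorem DEG_G_int (hP : S_PM) (hA : S_AE) (hL : S_POL) (ζ α : ℝ) (hAd : Adm ζ α)
    (N : ℕ) (hN : 2 ≤ N) (K : ℝ) (hK : 1 ≤ K) (u : ℝ × ℝ) (hu : u ∈ disc ζ N) :
    Integrable (fun v : ℝ × ℝ => DEG_G K (wt ζ N v.1) N (rel u.2 v.2)) (pt ζ α N) ∧
    ∫ v, DEG_G K (wt ζ N v.1) N (rel u.2 v.2) ∂(pt ζ α N)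
      ≤ (∫ r, wt ζ N r ∂(radial ζ α N)) / N *
        (K * (2 / π) * Real.log N + (1 / π + K * (2 / π) * Real.log π + K)) := by
  obtain ⟨p1, p2, p3⟩ := hP ζ α hAd N hN
  have hN0 : (0:ℝ) < N := by positivity
  have hζ := hAd.z0
  have hpi := Real.pi_pos
  have hmrel : Measurable (fun v : ℝ × ℝ => (v.1, rel u.2 v.2)) := by
    unfold rel; fun_prop
  have hmG := DEG_meas K ζ N
  have hint0 : Integrable (fun v : ℝ × ℝ => DEG_G K (wt ζ N v.1) N (rel u.2 v.2)) (pt ζ α N) := by
    refine Integrable.of_bound (C := 1 + 3 * K) (hmG.comp hmrel).aestronglyMeasurable ?_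
    filter_upwards [hA ζ α hAd N hN] with v hv
    have hr := DEG_rel u.2 v.2 hu.2 hv.2
    have hw := DEG_wt ζ hζ N hN v.1 hv.1.1 hv.1.2
    rw [Real.norm_of_nonneg (DEG_G_nonneg K _ N (by linarith) (by linarith [hw.1]) _ hr.1)]
    exact DEG_G_le K _ N hN hK hw.1 hw.2 _
  refine ⟨hint0, ?_⟩
  have hmap := hL ζ α hAd N hN u.2 hu.2
  set unif : Measure ℝ := (ENNReal.ofReal π)⁻¹ • volume.restrict (Icc 0 π) with hunif
  have hint1 : Integrable (fun w : ℝ × ℝ => DEG_G K (wt ζ N w.1) N w.2)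
      ((radial ζ α N).prod unif) := by
    rw [← hmap]
    exact (integrable_map_measure hmG.aestronglyMeasurable hmrel.aemeasurable).2 hint0
  have e1 : ∫ v, DEG_G K (wt ζ N v.1) N (rel u.2 v.2) ∂(pt ζ α N)
      = ∫ w, DEG_G K (wt ζ N w.1) N w.2 ∂((radial ζ α N).prod unif) := by
    rw [← hmap, integral_map hmrel.aemeasurable hmG.aestronglyMeasurable]
  have hsf : SFinite unif := by rw [hunif]; infer_instance
  rw [e1, integral_prod _ hint1]
  have hwint : Integrable (fun r => wt ζ N r) (radial ζ α N) := by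
    refine Integrable.of_bound (C := N) (by unfold wt; fun_prop) ?_
    filter_upwards [DEG_radial_ae ζ α N] with r hr
    have hw := DEG_wt ζ hζ N hN r hr.1 hr.2
    rw [Real.norm_of_nonneg (by linarith [hw.1])]; exact hw.2
  have e2 : (∫ r, wt ζ N r ∂(radial ζ α N)) / N *
        (K * (2 / π) * Real.log N + (1 / π + K * (2 / π) * Real.log π + K))
      = ∫ r, wt ζ N r / N * (K * (2 / π) * Real.log N + (1 / π + K * (2 / π) * Real.log π + K))
          ∂(radial ζ α N) := by
    rw [integral_mul_const, integral_div]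
  rw [e2]
  apply integral_mono_ae hint1.integral_prod_left ((hwint.div_const _).mul_const _)
  filter_upwards [DEG_radial_ae ζ α N] with r hr
  have hw := DEG_wt ζ hζ N hN r hr.1 hr.2
  exact DEG_inner K (wt ζ N r) N hN hK hw.1 hw.2

theorem t_DEG (hP : S_PM) (hA : S_AE) (hME : S_MEAS) (hE : S_PEL) (hL : S_POL) (hU : S_PUB)
    (hS : S_RSM) (hM : S_MEAN) : S_DEG := by
  intro ζ α hAd ε hε
  obtain ⟨CM, hCM, hMean⟩ := hM ζ α hAd
  have hζ := hAd.z0
  have hα := hAd.a0
  have hpi := Real.pi_pos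
  have hden : 0 < α - ζ / 2 := by
    have := hAd.h2
    rw [div_lt_iff₀ hα] at this; linarith
  set m := α / (α - ζ / 2) with hm
  have hm0 : 0 < m := by positivity
  set c0 := 2 / π * m with hc0
  have hc0p : 0 < c0 := by positivity
  set K := 1 + ε / (2 * c0) with hK
  have hK1 : 1 < K := by rw [hK]; have : 0 < ε / (2 * c0) := by positivity
                         linarith
  have hKc : K * c0 = c0 + ε / 2 := by rw [hK]; field_simp
  set s := √K with hs
  have hs1 : 1 < s := by
    rw [hs]; exact Real.lt_sqrt_of_sq_lt (by linarith) 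
  have hss : s * s = K := Real.mul_self_sqrt (by linarith)
  have hq0 : 0 < 1 - 1 / s := by
    rw [sub_pos, div_lt_one (by linarith)]; exact hs1
  have hq1 : 1 - 1 / s < 1 := by
    have : 0 < 1 / s := by positivity
    linarith
  set r0 := -Real.log (1 - 1 / s) / (2 * ζ) with hr0
  have hr0p : 0 < r0 := by
    rw [hr0]; apply div_pos _ (by positivity)
    have := Real.log_neg hq0 hq1; linarith
  have hexp : Real.exp (-(2 * ζ * r0)) = 1 - 1 / s := by
    rw [hr0, show -(2 * ζ * (-Real.log (1 - 1 / s) / (2 * ζ))) = Real.log (1 - 1 / s) by field_simp,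
      Real.exp_log hq0]
  set δ := min 1 (2 * Real.log s / ζ) with hδ
  have hls : 0 < Real.log s := Real.log_pos hs1
  have hδp : 0 < δ := by rw [hδ]; apply lt_min one_pos; positivity
  have hδ1 : δ ≤ 1 := min_le_left _ _
  have hδe : Real.exp (ζ * δ / 2) ≤ s := by
    have : δ ≤ 2 * Real.log s / ζ := min_le_right _ _
    rw [le_div_iff₀ hζ] at this
    calc Real.exp (ζ * δ / 2) ≤ Real.exp (Real.log s) := by apply Real.exp_le_exp.2; linarith
      _ = s := Real.exp_log (by linarith)
  refine ⟨δ, hδp, hδ1, ?_⟩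
  set C' := 1 / π + K * (2 / π) * Real.log π + K with hC'
  have hlpi : 0 < Real.log π := Real.log_pos (by linarith [Real.pi_gt_three])
  have hC'0 : 0 < C' := by rw [hC']; positivity
  set D := m * C' + CM * (K * (2 / π)) + CM * C' + 1 with hD
  have hlog : Tendsto (fun N : ℕ => Real.log N) atTop atTop :=
    Real.tendsto_log_atTop.comp tendsto_natCast_atTop_atTop
  have ev1 : ∀ᶠ N : ℕ in atTop, max 1 (max (2 * D / ε) ((r0 + 1) * ζ / 2)) ≤ Real.log N :=
    hlog.eventually_ge_atTop _
  have ev2 : ∀ᶠ N : ℕ in atTop, (N:ℝ) * Real.log N * (radial ζ α N (Iic r0)).toReal < 1 :=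
    (hS ζ α hAd r0).eventually (gt_mem_nhds one_pos)
  filter_upwards [ev1, ev2, eventually_ge_atTop 2] with N hl hR hN
  intro u hu hub
  obtain ⟨p1, p2, p3⟩ := hP ζ α hAd N hN
  have hN0 : (0:ℝ) < N := by positivity
  have hl1 : 1 ≤ Real.log N := le_trans (le_max_left _ _) hl
  have hl2 : 2 * D / ε ≤ Real.log N := le_trans (le_trans (le_max_left _ _) (le_max_right _ _)) hl
  have hl3 : (r0 + 1) * ζ / 2 ≤ Real.log N :=
    le_trans (le_trans (le_max_right _ _) (le_max_right _ _)) hl
  have hRad : r0 + 1 ≤ Rad ζ N := by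
    unfold Rad; rw [le_div_iff₀ hζ]; linarith
  have hur : r0 ≤ u.1 := by linarith
  have hau : wt ζ N u.1 ≤ s := by
    refine le_trans ?_ hδe
    unfold wt; apply Real.exp_le_exp.2
    have : Rad ζ N - u.1 ≤ δ := by linarith
    nlinarith
  have hpw : ∀ v ∈ disc ζ N, prob ζ 1 N u v
      ≤ (Iic r0 ×ˢ (univ : Set ℝ)).indicator 1 v + DEG_G K (wt ζ N v.1) N (rel u.2 v.2) := by
    intro v hv
    have hr := DEG_rel u.2 v.2 hu.2 hv.2
    have hw := DEG_wt ζ hζ N hN v.1 hv.1.1 hv.1.2
    have hG0 := DEG_G_nonneg K (wt ζ N v.1) N (by linarith) (by linarith [hw.1]) _ hr.1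
    have hp1 := ((hE ζ hζ N hN).1 u v).2
    by_cases hv0 : v.1 ≤ r0
    · have : (Iic r0 ×ˢ (univ : Set ℝ)).indicator (1 : ℝ × ℝ → ℝ) v = 1 := by
        rw [indicator_of_mem]; · rfl
        exact ⟨hv0, mem_univ _⟩
      rw [this]; linarith
    · have : (Iic r0 ×ˢ (univ : Set ℝ)).indicator (1 : ℝ × ℝ → ℝ) v = 0 := by
        rw [indicator_of_notMem]; intro h; exact hv0 h.1
      rw [this, zero_add]
      unfold DEG_G
      split_ifs with h
      · exact hp1
      · push Not at h hv0
        have hr0' : 0 < rel u.2 v.2 := lt_of_le_of_lt (by have := hw.1; positivity) h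
        refine le_trans (hU ζ hζ N hN r0 hr0p u v hur hv0.le hr0') ?_
        rw [hexp]
        have hsin := DEG_sin (rel u.2 v.2 / 2) (by linarith) (by linarith [hr.2])
        have hsp : 0 < Real.sin (rel u.2 v.2 / 2) :=
          Real.sin_pos_of_pos_of_lt_pi (by linarith) (by linarith [hr.2])
        have e : wt ζ N u.1 * wt ζ N v.1 / ((1 - (1 - 1 / s)) * (N * Real.sin (rel u.2 v.2 / 2)))
            = (wt ζ N u.1 * s) * (wt ζ N v.1 / N) * (1 / Real.sin (rel u.2 v.2 / 2)) := by
          have : s ≠ 0 := by linarith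
          field_simp
          ring
        rw [e]
        have e2 : K * wt ζ N v.1 * (2 / rel u.2 v.2 + 1) / N
            = K * (wt ζ N v.1 / N) * (2 / rel u.2 v.2 + 1) := by ring
        rw [e2]
        have e3 : 1 / (rel u.2 v.2 / 2) = 2 / rel u.2 v.2 := by field_simp
        rw [e3] at hsin
        have hx : 0 ≤ wt ζ N v.1 / N := by have := hw.1; positivity
        have hKs : wt ζ N u.1 * s ≤ K := by rw [← hss]; nlinarith
        apply mul_le_mul _ hsin (by positivity) (by positivity)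
        exact mul_le_mul_of_nonneg_right hKs hx
  obtain ⟨hGi, hGle⟩ := DEG_G_int hP hA hL ζ α hAd N hN K hK1.le u hu
  have hms : MeasurableSet (Iic r0 ×ˢ (univ : Set ℝ)) := measurableSet_Iic.prod MeasurableSet.univ
  have hind : Integrable ((Iic r0 ×ˢ (univ : Set ℝ)).indicator (1 : ℝ × ℝ → ℝ)) (pt ζ α N) :=
    (integrable_const (1:ℝ)).indicator hms
  have hle : ∫ v, prob ζ 1 N u v ∂(pt ζ α N)
      ≤ ∫ v, ((Iic r0 ×ˢ (univ : Set ℝ)).indicator 1 v + DEG_G K (wt ζ N v.1) N (rel u.2 v.2))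
        ∂(pt ζ α N) := by
    apply integral_mono_of_nonneg
    · exact Filter.Eventually.of_forall fun v => ((hE ζ hζ N hN).1 u v).1
    · exact hind.add hGi
    · filter_upwards [hA ζ α hAd N hN] with v hv
      exact hpw v hv
  rw [integral_add hind hGi, integral_indicator_one hms] at hle
  have hmass : (pt ζ α N).real (Iic r0 ×ˢ (univ : Set ℝ)) = (radial ζ α N (Iic r0)).toReal := by
    unfold pt Measure.real
    rw [Measure.prod_prod, measure_univ, mul_one]
  rw [hmass] at hle
  have hR' : N * (radial ζ α N (Iic r0)).toReal ≤ 1 := by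
    have h0 : 0 ≤ N * (radial ζ α N (Iic r0)).toReal := by positivity
    nlinarith
  have hE1 := (hMean N hN).2
  have hlb : 0 ≤ K * (2 / π) * Real.log N + C' := by positivity
  calc N * ∫ v, prob ζ 1 N u v ∂(pt ζ α N)
      ≤ N * ((radial ζ α N (Iic r0)).toReal + (∫ r, wt ζ N r ∂(radial ζ α N)) / N *
        (K * (2 / π) * Real.log N + C')) := by
        apply mul_le_mul_of_nonneg_left _ hN0.le
        linarith
    _ = N * (radial ζ α N (Iic r0)).toReal + (∫ r, wt ζ N r ∂(radial ζ α N)) *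
        (K * (2 / π) * Real.log N + C') := by field_simp
    _ ≤ 1 + (m + CM / Real.log N) * (K * (2 / π) * Real.log N + C') := by
        apply add_le_add hR'
        exact mul_le_mul_of_nonneg_right hE1 hlb
    _ = K * c0 * Real.log N + (1 + m * C' + CM * (K * (2 / π)) + CM * C' / Real.log N) := by
        rw [hc0]; field_simp; ring
    _ ≤ K * c0 * Real.log N + D := by
        have : CM * C' / Real.log N ≤ CM * C' := div_le_self (by positivity) hl1
        rw [hD]; linarith
    _ ≤ (c0 + ε) * Real.log N := by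
        rw [hKc]
        rw [div_le_iff₀ hε] at hl2
        nlinarith

end

end HG
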