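import Pool.Agent.R985.HG.Defs

set_option autoImplicit false

open MeasureTheory Set Filter
open scoped ENNReal Topology BigOperators Real

namespace HG

noncomputable section

/-- indicator of a radius near the boundary -/
def E12_w (ζ : ℝ) (N : ℕ) (δ : ℝ) (u : ℝ × ℝ) : ℝ := if Rad ζ N - δ ≤ u.1 then 1 else 0

/-- no edge -/
def E12_k (ζ : ℝ) (N : ℕ) (u v : ℝ × ℝ) : ℝ := 1 - prob ζ 1 N u v

theorem E12_w_meas (ζ : ℝ) (N : ℕ) (δ : ℝ) : Measurable (E12_w ζ N δ) := by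
  unfold E12_w
  exact Measurable.ite (measurableSet_le measurable_const measurable_fst) measurable_const
    measurable_const

theorem E12_w_nonneg (ζ : ℝ) (N : ℕ) (δ : ℝ) (u : ℝ × ℝ) :
    0 ≤ E12_w ζ N δ u ∧ E12_w ζ N δ u ≤ 1 := by
  unfold E12_w
  split_ifs <;> norm_num

theorem E12_k_meas (hME : S_MEAS) (ζ : ℝ) (N : ℕ) :
    Measurable (fun w : (ℝ × ℝ) × (ℝ × ℝ) => E12_k ζ N w.1 w.2) := by
  unfold E12_k
  exact measurable_const.sub (hME ζ N)

theorem E12_k_bd (hE : S_PEL) {ζ : ℝ} (hζ : 0 < ζ) {N : ℕ} (hN : 2 ≤ N) (u v : ℝ × ℝ) :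
    0 ≤ E12_k ζ N u v ∧ E12_k ζ N u v ≤ 1 := by
  have h := (hE ζ hζ N hN).1 u v
  unfold E12_k
  constructor <;> linarith [h.1, h.2]

/-- the cut event -/
def E12_C (ζ : ℝ) (N : ℕ) (δ : ℝ) (S : Finset (Fin N)) :
    Set ((Fin N → ℝ × ℝ) × (Sym2 (Fin N) → ℝ)) :=
  {ω | (∀ i ∈ S, Rad ζ N - δ ≤ (ω.1 i).1) ∧ IsCut (rgraph ζ 1 N ω) S}

theorem E12_gm (hG : S_GM) (ζ : ℝ) (N : ℕ) (T : Set (SimpleGraph (Fin N))) :
    MeasurableSet {ω : (Fin N → ℝ × ℝ) × (Sym2 (Fin N) → ℝ) | rgraph ζ 1 N ω ∈ T} := by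
  have h := hG N 0 1 ζ T
  simp only [sub_zero, div_one] at h
  exact h

theorem E12_C_meas (hG : S_GM) (ζ : ℝ) (N : ℕ) (δ : ℝ) (S : Finset (Fin N)) :
    MeasurableSet (E12_C ζ N δ S) := by
  have h1 : MeasurableSet {ω : (Fin N → ℝ × ℝ) × (Sym2 (Fin N) → ℝ) |
      ∀ i ∈ S, Rad ζ N - δ ≤ (ω.1 i).1} := by
    have : {ω : (Fin N → ℝ × ℝ) × (Sym2 (Fin N) → ℝ) | ∀ i ∈ S, Rad ζ N - δ ≤ (ω.1 i).1} =
        ⋂ i ∈ S, {ω | Rad ζ N - δ ≤ (ω.1 i).1} := by
      ext ω; simp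
    rw [this]
    refine Finset.measurableSet_biInter _ fun i _ => ?_
    exact measurableSet_le measurable_const
      (((measurable_pi_apply i).comp measurable_fst).fst)
  exact h1.inter (E12_gm hG ζ N {G | IsCut G S})

theorem E12_prod_w (ζ : ℝ) (N : ℕ) (δ : ℝ) (S : Finset (Fin N)) (x : Fin N → ℝ × ℝ) :
    ∏ i ∈ S, E12_w ζ N δ (x i) = if ∀ i ∈ S, Rad ζ N - δ ≤ (x i).1 then 1 else 0 := by
  split_ifs with h
  · exact Finset.prod_eq_one fun i hi => by rw [E12_w, if_pos (h i hi)]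
  · push Not at h
    obtain ⟨i, hi, h⟩ := h
    exact Finset.prod_eq_zero hi (by rw [E12_w, if_neg (not_le.2 h)])

theorem E12_kk_meas (hME : S_MEAS) (ζ : ℝ) (N : ℕ) (i j : Fin N) :
    Measurable fun x : Fin N → ℝ × ℝ => E12_k ζ N (x i) (x j) := by
  have h1 : Measurable fun x : Fin N → ℝ × ℝ => (x i, x j) :=
    (measurable_pi_apply i).prodMk (measurable_pi_apply j)
  have h2 := (E12_k_meas hME ζ N).comp h1
  exact h2

theorem E12_ww_meas (ζ : ℝ) (N : ℕ) (δ : ℝ) (i : Fin N) :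
    Measurable fun x : Fin N → ℝ × ℝ => E12_w ζ N δ (x i) := by
  have h1 : Measurable fun x : Fin N → ℝ × ℝ => x i := measurable_pi_apply i
  have h2 := (E12_w_meas ζ N δ).comp h1
  exact h2

theorem E12_F_meas (hME : S_MEAS) (ζ : ℝ) (N : ℕ) (δ : ℝ) (S : Finset (Fin N)) :
    Measurable fun x : Fin N → ℝ × ℝ =>
      (∏ i ∈ S, E12_w ζ N δ (x i)) * ∏ i ∈ S, ∏ j ∈ Sᶜ, E12_k ζ N (x i) (x j) := by
  have h1 : Measurable fun x : Fin N → ℝ × ℝ => ∏ i ∈ S, E12_w ζ N δ (x i) :=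
    Finset.measurable_fun_prod S fun i _ => E12_ww_meas ζ N δ i
  have h2 : Measurable fun x : Fin N → ℝ × ℝ => ∏ i ∈ S, ∏ j ∈ Sᶜ, E12_k ζ N (x i) (x j) :=
    Finset.measurable_fun_prod S fun i _ => Finset.measurable_fun_prod Sᶜ fun j _ =>
      E12_kk_meas hME ζ N i j
  exact h1.mul h2

theorem E12_cut (hP : S_PM) (hME : S_MEAS) (hG : S_GM) (hE : S_PEL) (hC : S_CUT) (hB : S_BOX)
    {ζ α : ℝ} (hA : Adm ζ α) (δ : ℝ) {N : ℕ} (hN : 2 ≤ N) (S : Finset (Fin N)) :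
    (model ζ α N (E12_C ζ N δ S)).toReal =
      ∫ x, (∏ i ∈ S, E12_w ζ N δ (x i)) *
        (∫ y, ∏ i ∈ S, E12_k ζ N (x i) y ∂(pt ζ α N)) ^ (N - S.card)
          ∂(Measure.pi fun _ : Fin N => pt ζ α N) := by
  have hpm : IsProbabilityMeasure (pt ζ α N) := (hP ζ α hA N hN).2.2
  have hthr : SigmaFinite (thr N) := by unfold thr; infer_instance
  have hk := fun u v => E12_k_bd hE hA.z0 hN u v
  rw [← hC N (pt ζ α N) hpm (E12_k ζ N) (E12_k_meas hME ζ N)
    (fun u v => ⟨(hk u v).1, (hk u v).2.trans one_le_two⟩) (E12_w ζ N δ) (E12_w_meas ζ N δ)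
    (E12_w_nonneg ζ N δ) S]
  set F : (Fin N → ℝ × ℝ) → ℝ := fun x =>
    (∏ i ∈ S, E12_w ζ N δ (x i)) * ∏ i ∈ S, ∏ j ∈ Sᶜ, E12_k ζ N (x i) (x j) with hF
  have hF0 : ∀ x, 0 ≤ F x := fun x => mul_nonneg
    (Finset.prod_nonneg fun i _ => (E12_w_nonneg ζ N δ (x i)).1)
    (Finset.prod_nonneg fun i _ => Finset.prod_nonneg fun j _ => (hk _ _).1)
  have hFm : Measurable F := E12_F_meas hME ζ N δ S
  rw [integral_eq_lintegral_of_nonneg_ae (Eventually.of_forall hF0) hFm.aestronglyMeasurable]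
  congr 1
  rw [model, Measure.prod_apply (E12_C_meas hG ζ N δ S)]
  refine lintegral_congr fun x => ?_
  have hpre : Prod.mk x ⁻¹' (E12_C ζ N δ S) =
      if ∀ i ∈ S, Rad ζ N - δ ≤ (x i).1 then {U | IsCut (gr (eprob ζ 1 N x) U) S} else ∅ := by
    ext U
    split_ifs with h
    · simp only [mem_preimage, E12_C, mem_ofPred_eq]
      exact ⟨fun hh => hh.2, fun hh => ⟨h, hh⟩⟩
    · simp only [mem_preimage, E12_C, mem_ofPred_eq, mem_empty_iff_false, iff_false]
      exact fun hh => h hh.1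
  have heP : ∀ e, eprob ζ 1 N x e ≤ 1 := by
    intro e
    induction e using Sym2.ind with
    | _ a b => exact ((hE ζ hA.z0 N hN).1 (x a) (x b)).2
  have hbox := hB N (eprob ζ 1 N x) heP S fun i _ j _ => ((hE ζ hA.z0 N hN).1 (x i) (x j)).1
  rw [hpre, hF]
  simp only [E12_prod_w]
  split_ifs with h
  · rw [hbox, one_mul]
    rfl
  · simp

theorem E12_iso (ζ : ℝ) (N : ℕ) (δ : ℝ) (i : Fin N) : IsoB ζ N δ i = E12_C ζ N δ {i} := by
  ext ω
  simp only [IsoB, E12_C, mem_ofPred_eq, Finset.mem_singleton, forall_eq, IsCut]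
  refine and_congr_right fun _ => ⟨fun h j _ => h j, fun h j => ?_⟩
  by_cases hij : j = i
  · rw [hij]
    exact (rgraph ζ 1 N ω).irrefl
  · exact h j hij

theorem t_E1 (hP : S_PM) (hME : S_MEAS) (hG : S_GM) (hE : S_PEL) (hC : S_CUT) (hB : S_BOX) :
    S_E1 := by
  intro ζ α hA δ N hN i
  have hpm : IsProbabilityMeasure (pt ζ α N) := (hP ζ α hA N hN).2.2
  have hpmeas : ∀ u, Measurable fun y => prob ζ 1 N u y := by
    intro u
    have h1 : Measurable fun y : ℝ × ℝ => (u, y) := measurable_const.prodMk measurable_id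
    have h2 := (hME ζ N).comp h1
    exact h2
  have hpint : ∀ u, Integrable (fun y => prob ζ 1 N u y) (pt ζ α N) := by
    intro u
    refine Integrable.of_bound (hpmeas u).aestronglyMeasurable 1 (Eventually.of_forall fun y => ?_)
    have h := (hE ζ hA.z0 N hN).1 u y
    rw [Real.norm_eq_abs, abs_of_nonneg h.1]
    exact h.2
  rw [E12_iso, E12_cut hP hME hG hE hC hB hA δ hN {i}]
  simp only [Finset.prod_singleton, Finset.card_singleton]
  set G : ℝ × ℝ → ℝ := fun u => E12_w ζ N δ u * (∫ y, E12_k ζ N u y ∂(pt ζ α N)) ^ (N - 1)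
    with hGdef
  have hGm : Measurable G := by
    have g1 := (E12_k_meas hME ζ N).stronglyMeasurable.integral_prod_right' (ν := pt ζ α N)
    have g2 := g1.measurable.pow_const (N - 1)
    have g3 := (E12_w_meas ζ N δ).mul g2
    exact g3
  have hmap := (measurePreserving_eval (fun _ : Fin N => pt ζ α N) i).map_eq
  have h1 : ∫ x, G (x i) ∂(Measure.pi fun _ : Fin N => pt ζ α N) = ∫ u, G u ∂(pt ζ α N) := by
    conv_rhs => rw [← hmap]
    rw [integral_map (measurable_pi_apply i).aemeasurable hGm.aestronglyMeasurable]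
  show ∫ x, G (x i) ∂(Measure.pi fun _ : Fin N => pt ζ α N) = e1f ζ α δ N
  rw [h1, e1f]
  refine integral_congr_ae (Eventually.of_forall fun u => ?_)
  show E12_w ζ N δ u * (∫ y, E12_k ζ N u y ∂(pt ζ α N)) ^ (N - 1) = _
  have h2 : ∫ y, E12_k ζ N u y ∂(pt ζ α N) = 1 - ∫ y, prob ζ 1 N u y ∂(pt ζ α N) := by
    unfold E12_k
    rw [integral_sub (integrable_const _) (hpint u)]
    simp
  rw [h2, E12_w]
  by_cases hu : Rad ζ N - δ ≤ u.1
  · simp only [hu, if_true, one_mul]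
  · simp only [hu, if_false, zero_mul]

theorem t_E2 (hP : S_PM) (hME : S_MEAS) (hG : S_GM) (hE : S_PEL) (hC : S_CUT) (hB : S_BOX) :
    S_E2 := by
  intro ζ α hA δ N hN i j hij
  have hpm : IsProbabilityMeasure (pt ζ α N) := (hP ζ α hA N hN).2.2
  have hthr : SigmaFinite (thr N) := by unfold thr; infer_instance
  have hthrp : IsProbabilityMeasure (thr N) := by
    unfold thr
    have : IsProbabilityMeasure ((volume : Measure ℝ).restrict (Icc (0:ℝ) 1)) := by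
      refine ⟨?_⟩
      simp
    infer_instance
  have hmod : IsProbabilityMeasure (model ζ α N) := by
    unfold model
    infer_instance
  have hsub : IsoB ζ N δ i ∩ IsoB ζ N δ j ⊆ E12_C ζ N δ {i, j} := by
    rintro ω ⟨h1, h2⟩
    refine ⟨?_, ?_⟩
    · intro a ha
      rw [Finset.mem_insert, Finset.mem_singleton] at ha
      rcases ha with rfl | rfl
      · exact h1.1
      · exact h2.1
    · intro a ha b _
      rw [Finset.mem_insert, Finset.mem_singleton] at ha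
      rcases ha with rfl | rfl
      · exact h1.2 b
      · exact h2.2 b
  have hle : (model ζ α N (IsoB ζ N δ i ∩ IsoB ζ N δ j)).toReal ≤
      (model ζ α N (E12_C ζ N δ {i, j})).toReal :=
    ENNReal.toReal_mono (measure_ne_top _ _) (measure_mono hsub)
  refine hle.trans (le_of_eq ?_)
  rw [E12_cut hP hME hG hE hC hB hA δ hN {i, j}]
  simp only [Finset.prod_pair hij, Finset.card_pair hij]
  set G : (ℝ × ℝ) × (ℝ × ℝ) → ℝ := fun z => (E12_w ζ N δ z.1 * E12_w ζ N δ z.2) *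
    (∫ y, E12_k ζ N z.1 y * E12_k ζ N z.2 y ∂(pt ζ α N)) ^ (N - 2) with hGdef
  have hkm := E12_k_meas hME ζ N
  have hkk : Measurable fun w : ((ℝ × ℝ) × (ℝ × ℝ)) × (ℝ × ℝ) =>
      E12_k ζ N w.1.1 w.2 * E12_k ζ N w.1.2 w.2 := by
    have g1 : Measurable fun w : ((ℝ × ℝ) × (ℝ × ℝ)) × (ℝ × ℝ) => (w.1.1, w.2) :=
      measurable_fst.fst.prodMk measurable_snd
    have g2 : Measurable fun w : ((ℝ × ℝ) × (ℝ × ℝ)) × (ℝ × ℝ) => (w.1.2, w.2) :=
      measurable_fst.snd.prodMk measurable_snd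
    have g3 := hkm.comp g1
    have g4 := hkm.comp g2
    have g5 := g3.mul g4
    exact g5
  have hGm : Measurable G := by
    have q1 : Measurable fun z : (ℝ × ℝ) × (ℝ × ℝ) => E12_w ζ N δ z.1 * E12_w ζ N δ z.2 := by
      have a1 : Measurable fun z : (ℝ × ℝ) × (ℝ × ℝ) => z.1 := measurable_fst
      have a2 : Measurable fun z : (ℝ × ℝ) × (ℝ × ℝ) => z.2 := measurable_snd
      have g1 := (E12_w_meas ζ N δ).comp a1
      have g2 := (E12_w_meas ζ N δ).comp a2
      have g3 := g1.mul g2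
      exact g3
    have q2 := (hkk.stronglyMeasurable.integral_prod_right' (ν := pt ζ α N)).measurable.pow_const
      (N - 2)
    have q3 := q1.mul q2
    exact q3
  have hk := fun u v => E12_k_bd hE hA.z0 hN u v
  have hGb : ∀ z, ‖G z‖ ≤ 1 := by
    intro z
    have a1 := E12_w_nonneg ζ N δ z.1
    have a2 := E12_w_nonneg ζ N δ z.2
    have b0 : 0 ≤ ∫ y, E12_k ζ N z.1 y * E12_k ζ N z.2 y ∂(pt ζ α N) :=
      integral_nonneg fun y => mul_nonneg (hk _ _).1 (hk _ _).1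
    have b1 : ∫ y, E12_k ζ N z.1 y * E12_k ζ N z.2 y ∂(pt ζ α N) ≤ 1 := by
      have c1 : Measurable fun y => E12_k ζ N z.1 y * E12_k ζ N z.2 y := by
        have g1 : Measurable fun y : ℝ × ℝ => (z, y) := measurable_const.prodMk measurable_id
        have g2 := hkk.comp g1
        exact g2
      have c2 : ∀ y, E12_k ζ N z.1 y * E12_k ζ N z.2 y ≤ 1 := fun y =>
        mul_le_one₀ (hk _ _).2 (hk _ _).1 (hk _ _).2
      have c3 : Integrable (fun y => E12_k ζ N z.1 y * E12_k ζ N z.2 y) (pt ζ α N) := by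
        refine Integrable.of_bound c1.aestronglyMeasurable 1 (Eventually.of_forall fun y => ?_)
        rw [Real.norm_eq_abs, abs_of_nonneg (mul_nonneg (hk _ _).1 (hk _ _).1)]
        exact c2 y
      calc ∫ y, E12_k ζ N z.1 y * E12_k ζ N z.2 y ∂(pt ζ α N) ≤ ∫ _y, (1 : ℝ) ∂(pt ζ α N) :=
            integral_mono c3 (integrable_const _) c2
        _ = 1 := by simp
    have d1 : 0 ≤ (∫ y, E12_k ζ N z.1 y * E12_k ζ N z.2 y ∂(pt ζ α N)) ^ (N - 2) :=
      pow_nonneg b0 _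
    have d2 : (∫ y, E12_k ζ N z.1 y * E12_k ζ N z.2 y ∂(pt ζ α N)) ^ (N - 2) ≤ 1 :=
      pow_le_one₀ b0 b1
    have d3 : 0 ≤ E12_w ζ N δ z.1 * E12_w ζ N δ z.2 := mul_nonneg a1.1 a2.1
    have d4 : E12_w ζ N δ z.1 * E12_w ζ N δ z.2 ≤ 1 := mul_le_one₀ a1.2 a2.1 a2.2
    rw [Real.norm_eq_abs, abs_of_nonneg (mul_nonneg d3 d1)]
    exact mul_le_one₀ d4 d1 d2
  have hmapi := (measurePreserving_eval (fun _ : Fin N => pt ζ α N) i).map_eq
  have hmapj := (measurePreserving_eval (fun _ : Fin N => pt ζ α N) j).map_eq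
  have hind : ProbabilityTheory.IndepFun (fun x : Fin N → ℝ × ℝ => x i)
      (fun x : Fin N → ℝ × ℝ => x j) (Measure.pi fun _ : Fin N => pt ζ α N) :=
    (ProbabilityTheory.iIndepFun_pi (μ := fun _ : Fin N => pt ζ α N)
      (X := fun _ => id) fun _ => aemeasurable_id).indepFun hij
  have hmap : Measure.map (fun x : Fin N → ℝ × ℝ => (x i, x j))
      (Measure.pi fun _ : Fin N => pt ζ α N) = (pt ζ α N).prod (pt ζ α N) := by
    rw [(ProbabilityTheory.indepFun_iff_map_prod_eq_prod_map_map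
      (measurable_pi_apply i).aemeasurable (measurable_pi_apply j).aemeasurable).1 hind]
    congr 1
  have h1 : ∫ x, G (x i, x j) ∂(Measure.pi fun _ : Fin N => pt ζ α N) =
      ∫ z, G z ∂((pt ζ α N).prod (pt ζ α N)) := by
    rw [← hmap, integral_map
      ((measurable_pi_apply i).prodMk (measurable_pi_apply j)).aemeasurable
      hGm.aestronglyMeasurable]
  show ∫ x, G (x i, x j) ∂(Measure.pi fun _ : Fin N => pt ζ α N) = e2f ζ α δ N
  have hGint : Integrable G ((pt ζ α N).prod (pt ζ α N)) :=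
    Integrable.of_bound hGm.aestronglyMeasurable 1 (Eventually.of_forall hGb)
  rw [h1, integral_prod _ hGint, e2f]
  refine integral_congr_ae (Eventually.of_forall fun u => ?_)
  refine integral_congr_ae (Eventually.of_forall fun v => ?_)
  show (E12_w ζ N δ u * E12_w ζ N δ v) *
    (∫ y, E12_k ζ N u y * E12_k ζ N v y ∂(pt ζ α N)) ^ (N - 2) = _
  by_cases h1 : Rad ζ N - δ ≤ u.1
  · by_cases h2 : Rad ζ N - δ ≤ v.1
    · simp only [E12_w, h1, h2, if_true, and_self, one_mul]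
      rfl
    · simp [E12_w, h2]
  · simp [E12_w, h1]

end

end HG
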