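import Pool.Agent.R985.HG.Defs

open MeasureTheory Set Filter
open scoped ENNReal Topology BigOperators Real

namespace HG

/-- The integral of the connection probabilities is in `[0,1]`. -/
theorem E1LB_P01 (hP : S_PM) (hME : S_MEAS) (hE : S_PEL) {ζ α : ℝ} (hA : Adm ζ α)
    {N : ℕ} (hN : 2 ≤ N) (u : ℝ × ℝ) :
    0 ≤ ∫ y, prob ζ 1 N u y ∂(pt ζ α N) ∧ ∫ y, prob ζ 1 N u y ∂(pt ζ α N) ≤ 1 := by
  have := (hP ζ α hA N hN).2.2
  have hb := (hE ζ hA.z0 N hN).1 u
  have hm : Measurable (prob ζ 1 N u) :=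
    Measurable.of_uncurry_left (f := prob ζ 1 N) (hME ζ N)
  have hi : Integrable (fun y => prob ζ 1 N u y) (pt ζ α N) := by
    refine Integrable.of_bound (C := 1) hm.aestronglyMeasurable ?_
    refine Eventually.of_forall fun y => ?_
    rw [Real.norm_eq_abs, abs_of_nonneg (hb y).1]
    exact (hb y).2
  refine ⟨integral_nonneg fun y => (hb y).1, ?_⟩
  calc ∫ y, prob ζ 1 N u y ∂(pt ζ α N) ≤ ∫ y, (1:ℝ) ∂(pt ζ α N) :=
        integral_mono hi (integrable_const _) fun y => (hb y).2
    _ = 1 := by simp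

/-- Elementary lower bound for a power. -/
theorem E1LB_pow {c ε L P : ℝ} {N : ℕ} (hN : 2 ≤ N) (hc : 0 < c) (hε : 0 < ε)
    (hL : L = Real.log N) (hP0 : 0 ≤ P)
    (hP : N * P ≤ (c + ε) * L) (hs : (c + ε) * L / N * (c + 2 * ε) ≤ ε)
    (hs2 : (c + ε) * L / N < 1) :
    Real.exp (-((c + 2 * ε) * L)) ≤ (1 - P) ^ (N - 1) := by
  have hNpos : (0:ℝ) < N := by positivity
  set p := (c + ε) * L / N with hp
  have hPp : P ≤ p := by
    rw [hp, le_div_iff₀ hNpos]; linarith
  have hp0 : 0 ≤ p := hP0.trans hPp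
  have h1p : 0 < 1 - p := by linarith
  have hlog : -(p / (1 - p)) ≤ Real.log (1 - p) := by
    have := Real.one_sub_inv_le_log_of_pos h1p
    have h2 : 1 - (1 - p)⁻¹ = -(p / (1 - p)) := by field_simp; ring
    linarith
  have hNp : N * p = (c + ε) * L := by
    rw [hp]; field_simp
  have hL0 : 0 ≤ (c + ε) * L := by
    rw [← hNp]; positivity
  have hL0' : 0 ≤ L := by
    by_contra hcon
    push Not at hcon
    have : (c + ε) * L < 0 := mul_neg_of_pos_of_neg (by linarith) hcon
    linarith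
  have h3 : N * (p / (1 - p)) ≤ (c + 2 * ε) * L := by
    rw [← mul_div_assoc, hNp, div_le_iff₀ h1p]
    nlinarith
  have h4 : Real.exp (-((c + 2 * ε) * L)) ≤ (1 - p) ^ N := by
    have : (1 - p) ^ N = Real.exp (N * Real.log (1 - p)) := by
      rw [← Real.log_pow, Real.exp_log (by positivity)]
    rw [this]
    apply Real.exp_le_exp.mpr
    nlinarith [mul_le_mul_of_nonneg_left hlog hNpos.le]
  have h5 : (1 - p) ^ N ≤ (1 - p) ^ (N - 1) :=
    pow_le_pow_of_le_one h1p.le (by linarith) (Nat.sub_le N 1)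
  have h6 : (1 - p) ^ (N - 1) ≤ (1 - P) ^ (N - 1) :=
    pow_le_pow_left₀ h1p.le (by linarith) _
  exact h4.trans (h5.trans h6)

/-- Lower bound for the mass near the boundary. -/
theorem E1LB_mass (hR : S_RHO) {ζ α : ℝ} (hA : Adm ζ α) {N : ℕ} (hN : 2 ≤ N) {δ : ℝ}
    (hδ : 0 < δ) (hδ1 : δ ≤ 1) (hRad : δ ≤ Rad ζ N)
    (hbig : Real.exp (-(2 * α * Rad ζ N) + α) ≤ Real.exp (-α) / 2) :
    ENNReal.ofReal (α * Real.exp (-α) / 2 * δ) ≤
      radial ζ α N (Icc (Rad ζ N - δ) (Rad ζ N)) := by
  obtain ⟨C, hC, hrho⟩ := hR ζ α hA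
  have ha := hA.a0
  unfold radial
  rw [withDensity_apply _ measurableSet_Icc]
  have hsub : Icc (Rad ζ N - δ) (Rad ζ N) ⊆ Icc 0 (Rad ζ N) :=
    Icc_subset_Icc (by linarith) le_rfl
  rw [Measure.restrict_restrict measurableSet_Icc, inter_eq_self_of_subset_left hsub]
  calc ENNReal.ofReal (α * Real.exp (-α) / 2 * δ)
      = ∫⁻ r in Icc (Rad ζ N - δ) (Rad ζ N), ENNReal.ofReal (α * Real.exp (-α) / 2) := by
        rw [setLIntegral_const, Real.volume_Icc, ← ENNReal.ofReal_mul (by positivity)]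
        congr 1; ring
    _ ≤ _ := by
        refine setLIntegral_mono' measurableSet_Icc fun r hr => ?_
        apply ENNReal.ofReal_le_ofReal
        refine le_trans ?_ (hrho N hN r (hsub hr)).2
        have h1 : Real.exp (-α) ≤ Real.exp (-(α * (Rad ζ N - r))) := by
          apply Real.exp_le_exp.mpr
          have : Rad ζ N - r ≤ 1 := by linarith [hr.1]
          nlinarith
        have h2 : Real.exp (-(2 * α * Rad ζ N) + α * (Rad ζ N - r)) ≤
            Real.exp (-(2 * α * Rad ζ N) + α) := by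
          apply Real.exp_le_exp.mpr
          have : Rad ζ N - r ≤ 1 := by linarith [hr.1]
          nlinarith
        have h3 := h2.trans hbig
        nlinarith

theorem E1LB_ang : angular (Ioc 0 (2 * π)) = 1 := by
  unfold angular
  have hpi : (0:ℝ) < 2 * π := by positivity
  rw [Measure.smul_apply, Measure.restrict_apply_self, Real.volume_Ioc, sub_zero, smul_eq_mul]
  exact ENNReal.inv_mul_cancel (by simpa using hpi) ENNReal.ofReal_ne_top

theorem E1LB_Rad_tendsto {ζ : ℝ} (hz : 0 < ζ) : Tendsto (fun N : ℕ => Rad ζ N) atTop atTop := by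
  unfold Rad
  have h1 : Tendsto (fun N : ℕ => Real.log (N:ℝ)) atTop atTop :=
    Real.tendsto_log_atTop.comp tendsto_natCast_atTop_atTop
  have h2 : Tendsto (fun N : ℕ => (2 / ζ) * Real.log (N:ℝ)) atTop atTop :=
    Tendsto.const_mul_atTop (by positivity) h1
  refine h2.congr fun N => ?_
  ring

theorem E1LB_logdiv : Tendsto (fun N : ℕ => Real.log (N:ℝ) / N) atTop (𝓝 0) := by
  have h := Real.isLittleO_log_id_atTop.tendsto_div_nhds_zero
  exact (h.comp tendsto_natCast_atTop_atTop).congr fun N => rfl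

theorem t_E1LB (hP : S_PM) (hME : S_MEAS) (hE : S_PEL) (hR : S_RHO) (hD : S_DEG) : S_E1LB := by
  intro ζ α hA hlt
  have ha := hA.a0
  have hz := hA.z0
  have hpi : 0 < π := Real.pi_pos
  have h2 : ζ / α < 2 := hA.h2
  have haz : 0 < α - ζ / 2 := by
    rw [div_lt_iff₀ ha] at h2; linarith
  set c := 2 / π * (α / (α - ζ / 2)) with hc
  have hc0 : 0 < c := by positivity
  have hc1 : c < 1 := by
    rw [hc, div_mul_div_comm, div_lt_one (by positivity)]
    have h3 : ζ < (2 - 4 / π) * α := by rwa [div_lt_iff₀ ha] at hlt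
    have h4 : (2 - 4 / π) * α * π = 2 * α * π - 4 * α := by field_simp
    nlinarith [mul_lt_mul_of_pos_right h3 hpi]
  set ε := (1 - c) / 8 with hε
  have hε0 : 0 < ε := by rw [hε]; linarith
  obtain ⟨δ, hδ0, hδ1, hdeg⟩ := hD ζ α hA ε hε0
  refine ⟨δ, ε, hδ0, hδ1, hε0, by rw [hε]; linarith, ?_, ?_⟩
  · -- the lower bound
    have e1 : ∀ᶠ N : ℕ in atTop, (c + ε) * Real.log N / N * (c + 2 * ε) ≤ ε := by
      have h : Tendsto (fun N : ℕ => (c + ε) * (c + 2 * ε) * (Real.log (N:ℝ) / N)) atTop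
          (𝓝 ((c + ε) * (c + 2 * ε) * 0)) := E1LB_logdiv.const_mul _
      rw [mul_zero] at h
      filter_upwards [h.eventually (gt_mem_nhds hε0)] with N hN
      have : (c + ε) * Real.log N / N * (c + 2 * ε)
        = (c + ε) * (c + 2 * ε) * (Real.log (N:ℝ) / N) := by ring
      rw [this]; exact hN.le
    have e2 : ∀ᶠ N : ℕ in atTop, (c + ε) * Real.log N / N < 1 := by
      have h : Tendsto (fun N : ℕ => (c + ε) * (Real.log (N:ℝ) / N)) atTop
          (𝓝 ((c + ε) * 0)) := E1LB_logdiv.const_mul _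
      rw [mul_zero] at h
      filter_upwards [h.eventually (gt_mem_nhds one_pos)] with N hN
      have : (c + ε) * Real.log N / N = (c + ε) * (Real.log (N:ℝ) / N) := by ring
      rw [this]; exact hN
    have e3 : ∀ᶠ N : ℕ in atTop, δ ≤ Rad ζ N := (E1LB_Rad_tendsto hz).eventually_ge_atTop δ
    have e4 : ∀ᶠ N : ℕ in atTop,
        Real.exp (-(2 * α * Rad ζ N) + α) ≤ Real.exp (-α) / 2 := by
      have h1 : Tendsto (fun N : ℕ => 2 * α * Rad ζ N - α) atTop atTop := by
        apply tendsto_atTop_add_const_right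
        exact Tendsto.const_mul_atTop (by positivity) (E1LB_Rad_tendsto hz)
      have h2 := Real.tendsto_exp_neg_atTop_nhds_zero.comp h1
      have h3 : 0 < Real.exp (-α) / 2 := by positivity
      filter_upwards [h2.eventually (gt_mem_nhds h3)] with N hN
      have : -(2 * α * Rad ζ N) + α = -(2 * α * Rad ζ N - α) := by ring
      rw [this]; exact hN.le
    have e5 : ∀ᶠ N : ℕ in atTop, (N:ℝ) ^ (-((1 - c) / 2)) ≤ α * Real.exp (-α) / 2 * δ := by
      have h1 : Tendsto (fun N : ℕ => (N:ℝ) ^ (-((1 - c) / 2))) atTop (𝓝 0) :=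
        (tendsto_rpow_neg_atTop (by linarith)).comp tendsto_natCast_atTop_atTop
      have h3 : 0 < α * Real.exp (-α) / 2 * δ := by positivity
      filter_upwards [h1.eventually (gt_mem_nhds h3)] with N hN
      exact hN.le
    filter_upwards [hdeg, e1, e2, e3, e4, e5, eventually_ge_atTop 2] with N hN h1 h2 h3 h4 h5 h6
    have hpm := (hP ζ α hA N h6).2.2
    have hpm1 := (hP ζ α hA N h6).1
    have hpm2 := (hP ζ α hA N h6).2.1
    have hNpos : (0:ℝ) < N := by positivity
    set m := Real.exp (-((c + 2 * ε) * Real.log N)) with hm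
    set D : Set (ℝ × ℝ) := Icc (Rad ζ N - δ) (Rad ζ N) ×ˢ Ioc 0 (2 * π) with hDdef
    have hDm : MeasurableSet D := measurableSet_Icc.prod measurableSet_Ioc
    have hPm : Measurable fun u => ∫ y, prob ζ 1 N u y ∂(pt ζ α N) := by
      have := (hME ζ N).stronglyMeasurable
      exact (StronglyMeasurable.integral_prod_right (f := fun u y => prob ζ 1 N u y)
        (ν := pt ζ α N) this).measurable
    have hint : Integrable (fun u : ℝ × ℝ => (if Rad ζ N - δ ≤ u.1 then
        (1 - ∫ y, prob ζ 1 N u y ∂(pt ζ α N)) ^ (N - 1) else 0)) (pt ζ α N) := by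
      refine Integrable.of_bound (C := 1) ?_ ?_
      · apply Measurable.aestronglyMeasurable
        exact Measurable.ite (measurableSet_le measurable_const measurable_fst)
          ((measurable_const.sub hPm).pow_const _) measurable_const
      · refine Eventually.of_forall fun u => ?_
        have h01 := E1LB_P01 hP hME hE hA h6 u
        split_ifs
        · rw [Real.norm_eq_abs, abs_of_nonneg (pow_nonneg (by linarith [h01.2]) _)]
          exact pow_le_one₀ (by linarith [h01.2]) (by linarith [h01.1])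
        · simp
    have hlow : m * (pt ζ α N D).toReal ≤ e1f ζ α δ N := by
      have hI : ∫ u, D.indicator (fun _ => m) u ∂(pt ζ α N) = m * (pt ζ α N D).toReal := by
        rw [integral_indicator hDm, setIntegral_const, smul_eq_mul, Measure.real, mul_comm]
      rw [← hI]
      unfold e1f
      refine integral_mono ((integrable_const m).indicator hDm) hint fun u => ?_
      have h01 := E1LB_P01 hP hME hE hA h6 u
      by_cases hu : u ∈ D
      · rw [indicator_of_mem hu]
        have hu1 : Rad ζ N - δ ≤ u.1 := hu.1.1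
        have hud : u ∈ disc ζ N := ⟨⟨by linarith [hu.1.1], hu.1.2⟩, hu.2⟩
        simp only [if_pos hu1]
        exact E1LB_pow h6 hc0 hε0 rfl h01.1 (hN u hud hu1) h1 h2
      · rw [indicator_of_notMem hu]
        split_ifs
        · exact pow_nonneg (by linarith [h01.2]) _
        · exact le_rfl
    have hmass : α * Real.exp (-α) / 2 * δ ≤ (pt ζ α N D).toReal := by
      have h7 := E1LB_mass hR hA h6 hδ0 hδ1 h3 h4
      have h8 : pt ζ α N D = radial ζ α N (Icc (Rad ζ N - δ) (Rad ζ N)) := by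
        unfold pt
        rw [hDdef, Measure.prod_prod, E1LB_ang, mul_one]
      rw [h8]
      have := ENNReal.toReal_mono (measure_ne_top _ _) h7
      rwa [ENNReal.toReal_ofReal (by positivity)] at this
    have hmr : m = (N:ℝ) ^ (-(c + 2 * ε)) := by
      rw [hm, Real.rpow_def_of_pos hNpos]; congr 1; ring
    calc (N:ℝ) ^ (2 * ε - 1) = (N:ℝ) ^ (-(c + 2 * ε)) * (N:ℝ) ^ (-((1 - c) / 2)) := by
          rw [← Real.rpow_add hNpos]; congr 1; rw [hε]; ring
      _ ≤ (N:ℝ) ^ (-(c + 2 * ε)) * (α * Real.exp (-α) / 2 * δ) := by gcongr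
      _ ≤ m * (pt ζ α N D).toReal := by rw [hmr]; gcongr
      _ ≤ _ := hlow
  · filter_upwards [hdeg, eventually_ge_atTop 2] with N hN h6 u hu hu1
    have hNpos : (0:ℝ) < N := by positivity
    have hL : 0 ≤ Real.log (N:ℝ) := Real.log_nonneg (by exact_mod_cast (by omega : 1 ≤ N))
    have h7 := hN u hu hu1
    rw [le_div_iff₀ hNpos]
    have h8 : c + ε ≤ 1 := by rw [hε]; linarith
    nlinarith [mul_le_mul_of_nonneg_right h8 hL]

end HG
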