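import Pool.Agent.R985.HG.Defs

open MeasureTheory Set Filter
open scoped ENNReal Topology BigOperators Real

namespace HG

/-- integration of the pointwise bound -/
theorem E2UB_int {X : Type*} [MeasurableSpace X] (μ : Measure X) [IsProbabilityMeasure μ]
    (H : X → X → ℝ) (F : X → ℝ) (B : X → Set X) (D : Set X) (K L t : ℝ) (hL : 0 ≤ L)
    (hF : Measurable F) (hF0 : ∀ u, 0 ≤ F u) (hF1 : ∀ u, F u ≤ 1)
    (H0 : ∀ u v, 0 ≤ H u v) (hD : ∀ᵐ u ∂μ, u ∈ D)
    (hB : ∀ u ∈ D, MeasurableSet (B u)) (hBt : ∀ u ∈ D, (μ (B u)).toReal ≤ t)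
    (hpt : ∀ u ∈ D, ∀ v ∈ D, H u v ≤ K * F u * F v + L * F u * (B u).indicator (fun _ => (1:ℝ)) v) :
    ∫ u, ∫ v, H u v ∂μ ∂μ ≤ K * (∫ u, F u ∂μ) ^ 2 + L * (∫ u, F u ∂μ) * t := by
  have hFi : Integrable F μ := by
    refine Integrable.of_bound hF.aestronglyMeasurable 1 ?_
    refine Eventually.of_forall fun u => ?_
    rw [Real.norm_eq_abs, abs_of_nonneg (hF0 u)]; exact hF1 u
  have key : ∀ u ∈ D, ∫ v, H u v ∂μ ≤ F u * (K * (∫ u, F u ∂μ) + L * t) := by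
    intro u hu
    have hind : Integrable ((B u).indicator (fun _ => (1:ℝ))) μ :=
      (integrable_const (1:ℝ)).indicator (hB u hu)
    have h1 : ∫ v, H u v ∂μ ≤
        ∫ v, (K * F u * F v + L * F u * (B u).indicator (fun _ => (1:ℝ)) v) ∂μ := by
      refine integral_mono_of_nonneg (Eventually.of_forall fun v => H0 u v) ?_ ?_
      · exact (hFi.const_mul _).add (hind.const_mul _)
      · filter_upwards [hD] with v hv using hpt u hu v hv
    have h2 : ∫ v, (K * F u * F v + L * F u * (B u).indicator (fun _ => (1:ℝ)) v) ∂μ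
        = K * F u * (∫ v, F v ∂μ) + L * F u * (μ (B u)).toReal := by
      rw [integral_add (hFi.const_mul _) (hind.const_mul _), integral_const_mul,
        integral_const_mul, integral_indicator_const _ (hB u hu)]
      simp [Measure.real]
    rw [h2] at h1
    have h3 : L * F u * (μ (B u)).toReal ≤ L * F u * t :=
      mul_le_mul_of_nonneg_left (hBt u hu) (mul_nonneg hL (hF0 u))
    nlinarith [h1, h3]
  have h4 : ∫ u, ∫ v, H u v ∂μ ∂μ ≤ ∫ u, F u * (K * (∫ u, F u ∂μ) + L * t) ∂μ := by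
    refine integral_mono_of_nonneg (Eventually.of_forall fun u => integral_nonneg (H0 u)) ?_ ?_
    · exact hFi.mul_const _
    · filter_upwards [hD] with u hu using key u hu
  rw [integral_mul_const] at h4
  nlinarith [h4]

/-- probability that the relative angle to a fixed direction is small -/
theorem E2UB_rel (hP : S_PM) (hL : S_POL) (ζ α : ℝ) (hA : Adm ζ α) (N : ℕ) (hN : 2 ≤ N)
    (t : ℝ) (ht : t ∈ Ioc (0:ℝ) (2 * π)) (s : ℝ) (hs : 0 ≤ s) :
    MeasurableSet {v : ℝ × ℝ | rel t v.2 < s} ∧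
    ((pt ζ α N) {v : ℝ × ℝ | rel t v.2 < s}).toReal ≤ s := by
  have hrc : Continuous (fun v : ℝ × ℝ => rel t v.2) := by
    unfold rel; fun_prop
  have hm : Measurable (fun v : ℝ × ℝ => (v.1, rel t v.2)) :=
    measurable_fst.prodMk hrc.measurable
  have hms : MeasurableSet {v : ℝ × ℝ | rel t v.2 < s} := hrc.measurable measurableSet_Iio
  refine ⟨hms, ?_⟩
  have h1 := hL ζ α hA N hN t ht
  have h2 : (pt ζ α N) {v : ℝ × ℝ | rel t v.2 < s}
      = Measure.map (fun v : ℝ × ℝ => (v.1, rel t v.2)) (pt ζ α N) (univ ×ˢ Iio s) := by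
    rw [Measure.map_apply hm (MeasurableSet.univ.prod measurableSet_Iio)]
    congr 1
    ext v; simp
  obtain ⟨hp1, -, -⟩ := hP ζ α hA N hN
  have h3 : (pt ζ α N) {v : ℝ × ℝ | rel t v.2 < s} ≤ ENNReal.ofReal s := by
    rw [h2, h1, Measure.prod_prod, measure_univ, one_mul, Measure.smul_apply, smul_eq_mul,
      Measure.restrict_apply measurableSet_Iio]
    have h5 : volume (Iio s ∩ Icc 0 π) ≤ ENNReal.ofReal s := by
      calc volume (Iio s ∩ Icc 0 π) ≤ volume (Icc (0:ℝ) s) := by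
            refine measure_mono ?_
            rintro x ⟨hx1, hx2⟩
            exact ⟨hx2.1, le_of_lt hx1⟩
        _ = ENNReal.ofReal s := by rw [Real.volume_Icc, sub_zero]
    have h6 : (ENNReal.ofReal π)⁻¹ ≤ 1 := by
      rw [ENNReal.inv_le_one, ← ENNReal.ofReal_one]
      exact ENNReal.ofReal_le_ofReal (by linarith [Real.pi_gt_three])
    calc (ENNReal.ofReal π)⁻¹ * volume (Iio s ∩ Icc 0 π) ≤ 1 * ENNReal.ofReal s :=
          mul_le_mul' h6 h5
      _ = ENNReal.ofReal s := one_mul _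
  calc ((pt ζ α N) {v : ℝ × ℝ | rel t v.2 < s}).toReal ≤ (ENNReal.ofReal s).toReal :=
        ENNReal.toReal_mono ENNReal.ofReal_ne_top h3
    _ = s := ENNReal.toReal_ofReal hs

/-- numerical inequality, far case -/
theorem E2UB_far (N : ℕ) (hN : 2 ≤ N) (P P' Q a e : ℝ) (hP : 0 ≤ P) (hP' : 0 ≤ P')
    (hQ : 0 ≤ Q) (hPa : P ≤ a) (hPa' : P' ≤ a) (ha : a ≤ 1 / 2) (hQe : N * Q ≤ e)
    (hI : 0 ≤ 1 - P - P' + Q) :
    (1 - P - P' + Q) ^ (N - 2) ≤
      ((1 - a) ^ 2)⁻¹ * Real.exp (4 * e) * (1 - P) ^ (N - 1) * (1 - P') ^ (N - 1) := by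
  have hx1 : 1 / 2 ≤ 1 - P := by linarith
  have hx2 : 1 / 2 ≤ 1 - P' := by linarith
  have ha1 : 1 / 2 ≤ 1 - a := by linarith
  have hxx : (1 - a) ^ 2 ≤ (1 - P) * (1 - P') := by nlinarith
  have hx4 : 1 / 4 ≤ (1 - P) * (1 - P') := by nlinarith
  have hPP : 0 ≤ P * P' := mul_nonneg hP hP'
  set x := (1 - P) * (1 - P') with hx
  have h1 : 1 - P - P' + Q ≤ x * Real.exp (4 * Q) := by
    have h2 : 4 * Q + 1 ≤ Real.exp (4 * Q) := Real.add_one_le_exp _
    have h3 : x * (4 * Q + 1) ≤ x * Real.exp (4 * Q) := by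
      apply mul_le_mul_of_nonneg_left h2; linarith
    have h4 : 1 - P - P' + Q ≤ x * (4 * Q + 1) := by
      have : x = 1 - P - P' + P * P' := by rw [hx]; ring
      nlinarith [mul_nonneg hQ (by linarith : (0:ℝ) ≤ x - 1 / 4)]
    linarith
  have h5 : (1 - P - P' + Q) ^ (N - 2) ≤ (x * Real.exp (4 * Q)) ^ (N - 2) :=
    pow_le_pow_left₀ hI h1 _
  have h6 : Real.exp (4 * Q) ^ (N - 2) ≤ Real.exp (4 * e) := by
    rw [← Real.exp_nat_mul]
    apply Real.exp_le_exp.mpr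
    have : ((N - 2 : ℕ) : ℝ) ≤ N := by exact_mod_cast Nat.sub_le N 2
    nlinarith
  have hxpos : 0 < x := by linarith
  have h7 : x ^ (N - 2) ≤ ((1 - a) ^ 2)⁻¹ * x ^ (N - 1) := by
    have h8 : x ^ (N - 1) = x ^ (N - 2) * x := by
      rw [← pow_succ]; congr 1; omega
    rw [h8]
    have hpa : 0 < (1 - a) ^ 2 := by positivity
    have h9 : 1 ≤ ((1 - a) ^ 2)⁻¹ * x := by
      rw [inv_mul_eq_div, le_div_iff₀ hpa]; linarith
    have h10 : 0 ≤ x ^ (N - 2) := by positivity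
    nlinarith
  calc (1 - P - P' + Q) ^ (N - 2) ≤ x ^ (N - 2) * Real.exp (4 * Q) ^ (N - 2) := by
        rw [← mul_pow]; exact h5
    _ ≤ (((1 - a) ^ 2)⁻¹ * x ^ (N - 1)) * Real.exp (4 * e) := by
        apply mul_le_mul h7 h6 (by positivity)
        have : 0 ≤ ((1 - a) ^ 2)⁻¹ := by positivity
        positivity
    _ = ((1 - a) ^ 2)⁻¹ * Real.exp (4 * e) * (1 - P) ^ (N - 1) * (1 - P') ^ (N - 1) := by
        rw [hx, mul_pow]; ring

/-- numerical inequality, close case -/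
theorem E2UB_close (N : ℕ) (hN : 2 ≤ N) (P P' Q a : ℝ) (hPa : P ≤ a) (ha : a ≤ 1 / 2)
    (hQP : Q ≤ P') (hI : 0 ≤ 1 - P - P' + Q) :
    (1 - P - P' + Q) ^ (N - 2) ≤ 2 * (1 - P) ^ (N - 1) := by
  have hx1 : 1 / 2 ≤ 1 - P := by linarith
  have h1 : (1 - P - P' + Q) ^ (N - 2) ≤ (1 - P) ^ (N - 2) :=
    pow_le_pow_left₀ hI (by linarith) _
  have h8 : (1 - P) ^ (N - 1) = (1 - P) ^ (N - 2) * (1 - P) := by
    rw [← pow_succ]; congr 1; omega
  rw [h8]
  have h10 : 0 ≤ (1 - P) ^ (N - 2) := by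
    apply pow_nonneg; linarith
  nlinarith

/-- the integral of the product of the complements -/
theorem E2UB_Ieq {X : Type*} [MeasurableSpace X] (μ : Measure X) [IsProbabilityMeasure μ]
    (f g : X → ℝ) (hf : Integrable f μ) (hg : Integrable g μ)
    (hfg : Integrable (fun y => f y * g y) μ) :
    ∫ y, (1 - f y) * (1 - g y) ∂μ
      = 1 - (∫ y, f y ∂μ) - (∫ y, g y ∂μ) + ∫ y, f y * g y ∂μ := by
  have h1 : (fun y => (1 - f y) * (1 - g y))
      = fun y => (1 - f y - g y) + f y * g y := by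
    funext y; ring
  have hc : Integrable (fun _ : X => (1:ℝ)) μ := integrable_const (1:ℝ)
  have hcf : Integrable (fun y => 1 - f y) μ := hc.sub hf
  have hcfg : Integrable (fun y => 1 - f y - g y) μ := hcf.sub hg
  rw [h1, integral_add hcfg hfg, integral_sub hcf hg, integral_sub hc hf]
  simp

/-- the pointwise bound, as reals -/
theorem E2UB_pt (N : ℕ) (hN : 2 ≤ N) (cu cv cr : Prop) [Decidable cu] [Decidable cv]
    (P P' Q a e I : ℝ) (hP : 0 ≤ P)
    (hP' : 0 ≤ P') (hP1 : P ≤ 1) (hP1' : P' ≤ 1) (hQ : 0 ≤ Q) (hQP : Q ≤ P')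
    (hPa : cu → P ≤ a) (hPa' : cv → P' ≤ a) (ha : a ≤ 1 / 2)
    (hQe : cu → cv → ¬ cr → N * Q ≤ e)
    (hI : 0 ≤ I) (hIe : I = 1 - P - P' + Q) (i : ℝ) (hi0 : 0 ≤ i) (hi : cr → i = 1)
    (hi' : ¬ cr → i = 0) :
    (if cu ∧ cv then I ^ (N - 2) else 0) ≤
      ((1 - a) ^ 2)⁻¹ * Real.exp (4 * e) * (if cu then (1 - P) ^ (N - 1) else 0) *
        (if cv then (1 - P') ^ (N - 1) else 0) +
        2 * (if cu then (1 - P) ^ (N - 1) else 0) * i := by
  have hKn : 0 ≤ ((1 - a) ^ 2)⁻¹ * Real.exp (4 * e) := by positivity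
  have hFu : 0 ≤ (1 - P) ^ (N - 1) := pow_nonneg (by linarith) _
  have hFv : 0 ≤ (1 - P') ^ (N - 1) := pow_nonneg (by linarith) _
  subst hIe
  by_cases hu1 : cu
  · by_cases hv1 : cv
    · rw [if_pos ⟨hu1, hv1⟩, if_pos hu1, if_pos hv1]
      by_cases hr : cr
      · have hc := E2UB_close N hN P P' Q a (hPa hu1) ha hQP hI
        rw [hi hr, mul_one]
        have := mul_nonneg (mul_nonneg hKn hFu) hFv
        linarith
      · rw [hi' hr, mul_zero, add_zero]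
        exact E2UB_far N hN P P' Q a e hP hP' hQ (hPa hu1) (hPa' hv1) ha (hQe hu1 hv1 hr) hI
    · rw [if_neg (fun h => hv1 h.2), if_neg hv1, if_pos hu1, mul_zero, zero_add]
      exact mul_nonneg (mul_nonneg (by norm_num) hFu) hi0
  · rw [if_neg (fun h => hu1 h.1), if_neg hu1]
    simp

/-- the bound for one `N`, for a general kernel -/
theorem E2UB_gen {X : Type*} [MeasurableSpace X] (μ : Measure X) [IsProbabilityMeasure μ]
    (p : X → X → ℝ) (hpm : Measurable (fun w : X × X => p w.1 w.2))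
    (hp01 : ∀ u v, 0 ≤ p u v ∧ p u v ≤ 1) (A : X → Prop) [DecidablePred A]
    (hAm : MeasurableSet {u | A u}) (D : Set X) (hD : ∀ᵐ u ∂μ, u ∈ D)
    (B : X → Set X) (hB : ∀ u ∈ D, MeasurableSet (B u)) (s : ℝ)
    (hBt : ∀ u ∈ D, (μ (B u)).toReal ≤ s) (N : ℕ) (hN : 2 ≤ N) (a e : ℝ) (ha : a ≤ 1 / 2)
    (hdeg : ∀ u ∈ D, A u → ∫ v, p u v ∂μ ≤ a)
    (hQ : ∀ u ∈ D, ∀ v ∈ D, A u → A v → ¬ (v ∈ B u) → N * ∫ y, p u y * p v y ∂μ ≤ e) :
    (∫ u, ∫ v, (if A u ∧ A v then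
      (∫ y, (1 - p u y) * (1 - p v y) ∂μ) ^ (N - 2) else 0) ∂μ ∂μ) ≤
    ((1 - a) ^ 2)⁻¹ * Real.exp (4 * e) *
      (∫ u, (if A u then (1 - ∫ y, p u y ∂μ) ^ (N - 1) else 0) ∂μ) ^ 2
      + 2 * (∫ u, (if A u then (1 - ∫ y, p u y ∂μ) ^ (N - 1) else 0) ∂μ) * s := by
  have hmeas : ∀ u, Measurable (fun y => p u y) := fun u =>
    hpm.comp (measurable_const.prodMk measurable_id)
  have hint : ∀ u, Integrable (fun y => p u y) μ := by
    intro u
    refine Integrable.of_bound (hmeas u).aestronglyMeasurable 1 ?_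
    refine Eventually.of_forall fun y => ?_
    rw [Real.norm_eq_abs, abs_of_nonneg (hp01 u y).1]; exact (hp01 u y).2
  have hint2 : ∀ u v, Integrable (fun y => p u y * p v y) μ := by
    intro u v
    refine Integrable.of_bound ((hmeas u).mul (hmeas v)).aestronglyMeasurable 1 ?_
    refine Eventually.of_forall fun y => ?_
    rw [Real.norm_eq_abs, abs_of_nonneg (mul_nonneg (hp01 u y).1 (hp01 v y).1)]
    exact mul_le_one₀ (hp01 u y).2 (hp01 v y).1 (hp01 v y).2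
  have hPmeas : Measurable (fun u => ∫ y, p u y ∂μ) :=
    (hpm.stronglyMeasurable.integral_prod_right').measurable
  have hP0 : ∀ u, 0 ≤ ∫ y, p u y ∂μ := fun u => integral_nonneg fun y => (hp01 u y).1
  have hP1 : ∀ u, ∫ y, p u y ∂μ ≤ 1 := fun u => by
    have := integral_mono (hint u) (integrable_const (1:ℝ)) (fun y => (hp01 u y).2)
    simpa using this
  have hQ0 : ∀ u v, 0 ≤ ∫ y, p u y * p v y ∂μ := fun u v =>
    integral_nonneg fun y => mul_nonneg (hp01 u y).1 (hp01 v y).1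
  have hQP : ∀ u v, ∫ y, p u y * p v y ∂μ ≤ ∫ y, p v y ∂μ := fun u v =>
    integral_mono (hint2 u v) (hint v) (fun y => by
      have h1 := (hp01 u y).2
      have h2 := (hp01 v y).1
      show p u y * p v y ≤ p v y
      nlinarith)
  have hI0 : ∀ u v, 0 ≤ ∫ y, (1 - p u y) * (1 - p v y) ∂μ :=
    fun u v => integral_nonneg fun y =>
      mul_nonneg (by linarith [(hp01 u y).2]) (by linarith [(hp01 v y).2])
  exact E2UB_int μ
    (fun u v => if A u ∧ A v then (∫ y, (1 - p u y) * (1 - p v y) ∂μ) ^ (N - 2) else 0)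
    (fun u => if A u then (1 - ∫ y, p u y ∂μ) ^ (N - 1) else 0) B D
    (((1 - a) ^ 2)⁻¹ * Real.exp (4 * e)) 2 s (by norm_num)
    (Measurable.ite hAm ((measurable_const.sub hPmeas).pow_const _) measurable_const)
    (by
      intro u
      by_cases h : A u
      · simp only [if_pos h]
        exact pow_nonneg (by linarith [hP1 u]) _
      · simp only [if_neg h]
        exact le_refl _)
    (by
      intro u
      by_cases h : A u
      · simp only [if_pos h]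
        exact pow_le_one₀ (by linarith [hP1 u]) (by linarith [hP0 u])
      · simp only [if_neg h]
        exact zero_le_one)
    (by
      intro u v
      by_cases h : A u ∧ A v
      · simp only [if_pos h]
        exact pow_nonneg (hI0 u v) _
      · simp only [if_neg h]
        exact le_refl _)
    hD hB hBt
    (by
      intro u hu v hv
      exact E2UB_pt N hN (A u) (A v) (v ∈ B u) (∫ y, p u y ∂μ) (∫ y, p v y ∂μ)
        (∫ y, p u y * p v y ∂μ) a e (∫ y, (1 - p u y) * (1 - p v y) ∂μ)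
        (hP0 u) (hP0 v) (hP1 u) (hP1 v) (hQ0 u v) (hQP u v)
        (hdeg u hu) (hdeg v hv) ha (hQ u hu v hv) (hI0 u v)
        (E2UB_Ieq μ (fun y => p u y) (fun y => p v y) (hint u) (hint v) (hint2 u v))
        ((B u).indicator (fun _ => (1:ℝ)) v)
        (indicator_nonneg (fun _ _ => zero_le_one) _)
        (fun h => indicator_of_mem h _) (fun h => indicator_of_notMem h _))

/-- the bound for one `N` -/
theorem E2UB_fix (hP : S_PM) (hA : S_AE) (hME : S_MEAS) (hE : S_PEL) (hL : S_POL)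
    (ζ α : ℝ) (hadm : Adm ζ α) (N : ℕ) (hN : 2 ≤ N) (δ : ℝ) (hδ : δ ≤ 1) (s e : ℝ)
    (hs : 0 ≤ s) (hlog : Real.log N / N ≤ 1 / 2)
    (hdeg : ∀ u ∈ disc ζ N, Rad ζ N - δ ≤ u.1 →
      ∫ v, prob ζ 1 N u v ∂(pt ζ α N) ≤ Real.log N / N)
    (hQ : ∀ u ∈ disc ζ N, ∀ v ∈ disc ζ N, Rad ζ N - 1 ≤ u.1 → Rad ζ N - 1 ≤ v.1 →
      s ≤ rel u.2 v.2 → N * ∫ y, prob ζ 1 N u y * prob ζ 1 N v y ∂(pt ζ α N) ≤ e) :
    e2f ζ α δ N ≤ ((1 - Real.log N / N) ^ 2)⁻¹ * Real.exp (4 * e) * e1f ζ α δ N ^ 2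
      + 2 * e1f ζ α δ N * s := by
  have hpm := (hP ζ α hadm N hN).2.2
  have hp01 := (hE ζ hadm.z0 N hN).1
  exact E2UB_gen (pt ζ α N) (prob ζ 1 N) (hME ζ N) hp01 (fun u => Rad ζ N - δ ≤ u.1)
    (measurableSet_le measurable_const measurable_fst) (disc ζ N) (hA ζ α hadm N hN)
    (fun u => {v : ℝ × ℝ | rel u.2 v.2 < s})
    (fun u hu => (E2UB_rel hP hL ζ α hadm N hN u.2 hu.2 s hs).1) s
    (fun u hu => (E2UB_rel hP hL ζ α hadm N hN u.2 hu.2 s hs).2) N hN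
    (Real.log N / N) e hlog hdeg
    (fun u hu v hv h1 h2 h3 => hQ u hu v hv (by linarith) (by linarith) (not_lt.mp h3))

theorem t_E2UB (hP : S_PM) (hA : S_AE) (hME : S_MEAS) (hE : S_PEL) (hL : S_POL) (hQ : S_Q2) :
    S_E2UB := by
  intro ζ α hadm δ η hδ0 hδ1 hη0 hη1 he1 hdeg ε hε
  set e : ℝ := Real.log (1 + ε / 4) / 4 with he
  have hepos : 0 < e := by
    have : 0 < Real.log (1 + ε / 4) := Real.log_pos (by linarith)
    positivity
  have hexp : Real.exp (4 * e) = 1 + ε / 4 := by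
    rw [he, mul_div_cancel₀ _ (by norm_num : (4:ℝ) ≠ 0), Real.exp_log (by linarith)]
  have hlogt : Tendsto (fun N : ℕ => Real.log N / N) atTop (𝓝 0) := by
    have h1 : Tendsto (fun x : ℝ => Real.log x / x) atTop (𝓝 0) := by
      have := Real.tendsto_pow_log_div_mul_add_atTop 1 0 1 one_ne_zero
      simpa using this
    exact h1.comp tendsto_natCast_atTop_atTop
  have hKt : Tendsto (fun N : ℕ => ((1 - Real.log N / N) ^ 2)⁻¹ * (1 + ε / 4)) atTop
      (𝓝 (1 + ε / 4)) := by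
    have h1 : Tendsto (fun N : ℕ => ((1 - Real.log N / N) ^ 2)⁻¹ * (1 + ε / 4)) atTop
        (𝓝 (((1 - 0) ^ 2)⁻¹ * (1 + ε / 4))) := by
      refine Tendsto.mul_const _ ?_
      refine Tendsto.inv₀ ((tendsto_const_nhds.sub hlogt).pow 2) (by norm_num)
    simpa using h1
  have hK : ∀ᶠ N : ℕ in atTop, ((1 - Real.log N / N) ^ 2)⁻¹ * (1 + ε / 4) < 1 + ε / 2 :=
    hKt.eventually_lt_const (by linarith)
  have hpw : Tendsto (fun N : ℕ => (N:ℝ) ^ (-η)) atTop (𝓝 0) :=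
    (tendsto_rpow_neg_atTop hη0).comp tendsto_natCast_atTop_atTop
  have hpe : ∀ᶠ N : ℕ in atTop, (N:ℝ) ^ (-η) < ε / 4 :=
    hpw.eventually_lt_const (by linarith)
  have hlh : ∀ᶠ N : ℕ in atTop, Real.log N / N < 1 / 2 :=
    hlogt.eventually_lt_const (by norm_num)
  filter_upwards [he1, hdeg, hQ ζ α hadm η hη0 e hepos, hK, hpe, hlh, eventually_ge_atTop 2]
    with N h1 h2 h3 h4 h5 h6 hN
  have hNpos : (0:ℝ) < N := by exact_mod_cast (by omega : 0 < N)
  have hfix := E2UB_fix hP hA hME hE hL ζ α hadm N hN δ hδ1 ((N:ℝ) ^ (η - 1)) e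
    (by positivity) h6.le h2 h3
  rw [hexp] at hfix
  have hE1 : 0 < e1f ζ α δ N := lt_of_lt_of_le (by positivity) h1
  have hs : (N:ℝ) ^ (η - 1) = (N:ℝ) ^ (2 * η - 1) * (N:ℝ) ^ (-η) := by
    rw [← Real.rpow_add hNpos]; congr 1; ring
  have hs2 : (N:ℝ) ^ (η - 1) ≤ e1f ζ α δ N * (ε / 4) := by
    rw [hs]
    exact mul_le_mul h1 h5.le (by positivity) hE1.le
  have hK2 : ((1 - Real.log N / N) ^ 2)⁻¹ * (1 + ε / 4) * e1f ζ α δ N ^ 2
      ≤ (1 + ε / 2) * e1f ζ α δ N ^ 2 :=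
    mul_le_mul_of_nonneg_right h4.le (by positivity)
  have hs3 : 2 * e1f ζ α δ N * (N:ℝ) ^ (η - 1) ≤ 2 * e1f ζ α δ N * (e1f ζ α δ N * (ε / 4)) :=
    mul_le_mul_of_nonneg_left hs2 (by positivity)
  nlinarith [hfix, hK2, hs3]

end HG
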