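import Pool.Agent.R985.HG.Defs

open MeasureTheory Set Filter
open scoped ENNReal Topology BigOperators Real

namespace HG

theorem t_MEAS : S_MEAS := by
  intro ζ N
  unfold prob hdist cr rel
  fun_prop

theorem GM_mk (ζ β : ℝ) (N : ℕ) (x : Fin N → ℝ × ℝ) (i j : Fin N) :
    eprob ζ β N x s(i, j) = prob ζ β N (x i) (x j) := by
  unfold eprob
  rw [Sym2.lift_mk]

theorem GM_edge (N : ℕ) (a b ζ : ℝ) (i j : Fin N) :
    MeasurableSet {ω : (Fin N → ℝ × ℝ) × (Sym2 (Fin N) → ℝ) |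
      ω.2 s(i, j) < (eprob ζ 1 N ω.1 s(i, j) - a) / b} := by
  have h1 : Measurable (fun ω : (Fin N → ℝ × ℝ) × (Sym2 (Fin N) → ℝ) =>
      eprob ζ 1 N ω.1 s(i, j)) := by
    have h := t_MEAS ζ N
    have h2 : Measurable (fun ω : (Fin N → ℝ × ℝ) × (Sym2 (Fin N) → ℝ) => (ω.1 i, ω.1 j)) := by
      fun_prop
    have h4 : (fun ω : (Fin N → ℝ × ℝ) × (Sym2 (Fin N) → ℝ) => eprob ζ 1 N ω.1 s(i, j)) =
        (fun w : (ℝ × ℝ) × (ℝ × ℝ) => prob ζ 1 N w.1 w.2) ∘
          (fun ω : (Fin N → ℝ × ℝ) × (Sym2 (Fin N) → ℝ) => (ω.1 i, ω.1 j)) := by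
      funext ω
      rw [GM_mk]
      simp only [Function.comp]
    rw [h4]
    exact Measurable.comp h h2
  have h3 : Measurable (fun ω : (Fin N → ℝ × ℝ) × (Sym2 (Fin N) → ℝ) => ω.2 s(i, j)) := by
    fun_prop
  exact measurableSet_lt h3 ((h1.sub_const a).div_const b)

theorem GM_eq (N : ℕ) (a b ζ : ℝ) (G : SimpleGraph (Fin N)) :
    MeasurableSet {ω : (Fin N → ℝ × ℝ) × (Sym2 (Fin N) → ℝ) |
      gr (fun e => (eprob ζ 1 N ω.1 e - a) / b) ω.2 = G} := by
  have h : {ω : (Fin N → ℝ × ℝ) × (Sym2 (Fin N) → ℝ) |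
      gr (fun e => (eprob ζ 1 N ω.1 e - a) / b) ω.2 = G} =
      ⋂ i : Fin N, ⋂ j : Fin N, {ω | (i ≠ j ∧
        ω.2 s(i, j) < (eprob ζ 1 N ω.1 s(i, j) - a) / b) ↔ G.Adj i j} := by
    ext ω
    simp only [Set.mem_setOf_eq, Set.mem_iInter]
    constructor
    · intro hG i j
      rw [← hG]
      exact Iff.rfl
    · intro hG
      ext i j
      exact hG i j
  rw [h]
  refine MeasurableSet.iInter (fun i => MeasurableSet.iInter (fun j => ?_))
  by_cases hij : i = j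
  · by_cases hG : G.Adj i j
    · convert MeasurableSet.empty using 1
      ext ω
      simp [hij]
      rw [hij] at hG
      exact absurd hG (G.irrefl)
    · convert MeasurableSet.univ using 1
      ext ω
      simp [hij]
  · by_cases hG : G.Adj i j
    · convert GM_edge N a b ζ i j using 1
      ext ω
      simp [hij, hG]
    · convert (GM_edge N a b ζ i j).compl using 1
      ext ω
      simp [hij, hG]

theorem t_GM : S_GM := by
  intro N a b ζ T
  have h : {ω : (Fin N → ℝ × ℝ) × (Sym2 (Fin N) → ℝ) |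
      gr (fun e => (eprob ζ 1 N ω.1 e - a) / b) ω.2 ∈ T} =
      ⋃ G ∈ T, {ω | gr (fun e => (eprob ζ 1 N ω.1 e - a) / b) ω.2 = G} := by
    ext ω
    simp
  rw [h]
  exact (Set.toFinite T).measurableSet_biUnion (fun G _ => GM_eq N a b ζ G)

end HG
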