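import Pool.Agent.R985.HG.Defs

open MeasureTheory Set Filter
open scoped ENNReal Topology BigOperators Real

namespace HG

theorem INNER_wt_pos (ζ : ℝ) (N : ℕ) (r : ℝ) : 0 < wt ζ N r := Real.exp_pos _

theorem INNER_ff_meas (ζ : ℝ) (N k : ℕ) (u : ℝ × ℝ) : Measurable (fun v => ff ζ N k u v) := by
  have hw : Continuous (fun v : ℝ × ℝ => wt ζ N v.1) := by unfold wt; fun_prop
  have hr : Continuous (fun v : ℝ × ℝ => rel u.2 v.2) := by unfold rel; fun_prop
  unfold ff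
  refine Measurable.ite ?_ ?_ measurable_const
  · exact (measurableSet_le (hw.measurable.mul_const _) measurable_const).inter
      (measurableSet_le ((hw.measurable.mul_const _).div_const _) hr.measurable)
  · exact (hw.measurable.const_mul _).div (hr.measurable.const_mul _)

theorem INNER_ff_nonneg (ζ : ℝ) (N k : ℕ) (u v : ℝ × ℝ) : 0 ≤ ff ζ N k u v := by
  have hw := INNER_wt_pos ζ N v.1
  unfold ff
  split_ifs with h
  · have h1 : 0 ≤ rel u.2 v.2 := le_trans (by positivity) h.2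
    positivity
  · exact le_rfl

theorem INNER_ff_le (ζ : ℝ) (N k : ℕ) (hN : 1 ≤ N) (hk : 1 ≤ k) (u v : ℝ × ℝ) :
    ff ζ N k u v ≤ 2 := by
  have hw := INNER_wt_pos ζ N v.1
  have hN' : (0 : ℝ) < N := by exact_mod_cast hN
  have hk' : (1 : ℝ) ≤ k := by exact_mod_cast hk
  unfold ff
  split_ifs with h
  · have h1 : 0 < rel u.2 v.2 := lt_of_lt_of_le (by positivity) h.2
    have h2 := h.2
    rw [div_le_iff₀ hN'] at h2
    rw [div_le_iff₀ (mul_pos hN' h1)]
    nlinarith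
  · norm_num

theorem INNER_int {X : Type*} [MeasurableSpace X] (μ : Measure X) [IsProbabilityMeasure μ]
    (H : X → ℝ) (hH : Integrable H μ) (hH2 : Integrable (fun y => H y ^ 2) μ) (c : ℝ) :
    Integrable (fun y => 1 - H y + 4 * H y ^ 2 + c) μ ∧
    ∫ y, (1 - H y + 4 * H y ^ 2 + c) ∂μ = 1 - ∫ y, H y ∂μ + 4 * ∫ y, H y ^ 2 ∂μ + c := by
  have h1 : Integrable (fun y => 1 - H y) μ := (integrable_const 1).sub hH
  have h2 : Integrable (fun y => 4 * H y ^ 2) μ := hH2.const_mul 4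
  have h3 : Integrable (fun y => 1 - H y + 4 * H y ^ 2) μ := h1.add h2
  refine ⟨h3.add (integrable_const c), ?_⟩
  rw [integral_add h3 (integrable_const c), integral_add h1 h2,
    integral_sub (integrable_const 1) hH, integral_const_mul]
  simp

theorem INNER_sum {X ι : Type*} [MeasurableSpace X] (μ : Measure X) (S : Finset ι) (a : ι → ℝ)
    (f : ι → X → ℝ) (hf : ∀ i, Integrable (f i) μ) :
    Integrable (fun y => ∑ i ∈ S, a i * f i y) μ ∧
    ∫ y, ∑ i ∈ S, a i * f i y ∂μ = ∑ i ∈ S, a i * ∫ y, f i y ∂μ := by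
  refine ⟨integrable_finsetSum _ (fun i _ => (hf i).const_mul _), ?_⟩
  rw [integral_finsetSum _ (fun i _ => (hf i).const_mul _)]
  exact Finset.sum_congr rfl (fun i _ => integral_const_mul _ _)

/-- the pointwise and integrated bounds for the sum -/
theorem INNER_H {X ι : Type*} [MeasurableSpace X] (μ : Measure X) [IsProbabilityMeasure μ]
    (S : Finset ι) (a : ι → ℝ) (f : ι → X → ℝ) (hfm : ∀ i, Measurable (f i))
    (hf0 : ∀ i y, 0 ≤ f i y) (hf2 : ∀ i y, f i y ≤ 2) (ha1 : ∀ i, 1 ≤ a i) (ha2 : ∀ i, a i ≤ 2)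
    (L B : ℝ) (hL : ∀ i, L ≤ ∫ y, f i y ∂μ) (hB : ∀ i, ∫ y, f i y ^ 2 ∂μ ≤ B) :
    Integrable (fun y => ∑ i ∈ S, a i * f i y) μ ∧
    Integrable (fun y => (∑ i ∈ S, a i * f i y) ^ 2) μ ∧
    (∑ i ∈ S, a i) * L ≤ ∫ y, ∑ i ∈ S, a i * f i y ∂μ ∧
    ∫ y, (∑ i ∈ S, a i * f i y) ^ 2 ∂μ ≤ (∑ i ∈ S, a i) * ((∑ i ∈ S, a i) * B) := by
  have hfint : ∀ i, Integrable (f i) μ := fun i =>
    Integrable.of_bound (hfm i).aestronglyMeasurable 2 (Eventually.of_forall (fun y => by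
      rw [Real.norm_of_nonneg (hf0 i y)]
      exact hf2 i y))
  have hf2int : ∀ i, Integrable (fun y => f i y ^ 2) μ := fun i =>
    Integrable.of_bound ((hfm i).pow_const 2).aestronglyMeasurable 4
      (Eventually.of_forall (fun y => by
      rw [Real.norm_of_nonneg (sq_nonneg _)]
      nlinarith [hf0 i y, hf2 i y]))
  obtain ⟨hHint, hHeq⟩ := INNER_sum μ S a f hfint
  obtain ⟨hH2i, hH2eq⟩ := INNER_sum μ S a (fun i y => f i y ^ 2) hf2int
  have hA0 : 0 ≤ ∑ i ∈ S, a i := Finset.sum_nonneg (fun i _ => by linarith [ha1 i])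
  have hHm : Measurable (fun y => ∑ i ∈ S, a i * f i y) :=
    Finset.measurable_sum _ (fun i _ => (hfm i).const_mul _)
  have hH0 : ∀ y, 0 ≤ ∑ i ∈ S, a i * f i y := fun y => Finset.sum_nonneg (fun i _ =>
    mul_nonneg (by linarith [ha1 i]) (hf0 i y))
  have hHle : ∀ y, (∑ i ∈ S, a i * f i y) ^ 2 ≤ (∑ i ∈ S, a i) * ∑ i ∈ S, a i * f i y ^ 2 := by
    intro y
    have hcs := Finset.sum_mul_sq_le_sq_mul_sq S (fun i => Real.sqrt (a i))
      (fun i => Real.sqrt (a i) * f i y)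
    have e1 : ∀ i, Real.sqrt (a i) * (Real.sqrt (a i) * f i y) = a i * f i y := by
      intro i
      rw [← mul_assoc, Real.mul_self_sqrt (by linarith [ha1 i])]
    have e2 : ∀ i, Real.sqrt (a i) ^ 2 = a i := fun i => Real.sq_sqrt (by linarith [ha1 i])
    have e3 : ∀ i, (Real.sqrt (a i) * f i y) ^ 2 = a i * f i y ^ 2 := by
      intro i
      rw [mul_pow, e2]
    simp only [e1, e2, e3] at hcs
    exact hcs
  have hHb : ∀ y, ∑ i ∈ S, a i * f i y ≤ S.card * 4 := by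
    intro y
    have h3 : ∑ i ∈ S, a i * f i y ≤ ∑ _i ∈ S, (4 : ℝ) := by
      refine Finset.sum_le_sum (fun i _ => ?_)
      have h4 := ha1 i
      have h5 := ha2 i
      have h6 := hf0 i y
      have h7 := hf2 i y
      nlinarith
    rwa [Finset.sum_const, nsmul_eq_mul] at h3
  have hH2int : Integrable (fun y => (∑ i ∈ S, a i * f i y) ^ 2) μ :=
    Integrable.of_bound (hHm.pow_const 2).aestronglyMeasurable ((S.card * 4) ^ 2)
      (Eventually.of_forall (fun y => by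
        rw [Real.norm_of_nonneg (sq_nonneg _)]
        exact pow_le_pow_left₀ (hH0 y) (hHb y) 2))
  refine ⟨hHint, hH2int, ?_, ?_⟩
  · rw [hHeq, Finset.sum_mul]
    exact Finset.sum_le_sum (fun i _ => mul_le_mul_of_nonneg_left (hL i) (by linarith [ha1 i]))
  · refine (integral_mono hH2int (hH2i.const_mul _) hHle).trans ?_
    rw [integral_const_mul, hH2eq]
    refine mul_le_mul_of_nonneg_left ?_ hA0
    rw [Finset.sum_mul]
    exact Finset.sum_le_sum (fun i _ => mul_le_mul_of_nonneg_left (hB i) (by linarith [ha1 i]))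

/-- the pointwise comparison for one vertex -/
theorem INNER_pt (hB : S_PLB) (hE : S_PEL) (ζ : ℝ) (hz : 0 < ζ) (N k : ℕ) (hN : 2 ≤ N)
    (hk1 : 1 ≤ k) (u y : ℝ × ℝ) (hu : u ∈ disc ζ N) (hy : y ∈ disc ζ N) (a : ℝ) (ha1 : 1 ≤ a)
    (haw : a ≤ wt ζ N u.1) (hwt1 : 1 ≤ wt ζ N u.1) :
    a * ff ζ N k u y - 3 * (a * ff ζ N k u y) ^ 2 ≤ prob ζ 1 N u y := by
  have hN0 : (0 : ℝ) < N := by
    have : 0 < N := by omega
    exact_mod_cast this
  have hk0 : (0 : ℝ) < k := by exact_mod_cast hk1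
  by_cases hc : wt ζ N y.1 * k ≤ N ∧ wt ζ N y.1 * k / N ≤ rel u.2 y.2
  · have hwy := INNER_wt_pos ζ N y.1
    have hrel : 0 < rel u.2 y.2 := lt_of_lt_of_le (by positivity) hc.2
    have hff : ff ζ N k u y = 2 * wt ζ N y.1 / (N * rel u.2 y.2) := by
      rw [ff, if_pos hc]
    obtain ⟨z, hzdef⟩ : ∃ z, z = N * rel u.2 y.2 / (2 * (a * wt ζ N y.1)) := ⟨_, rfl⟩
    have hz0 : 0 < z := by
      rw [hzdef]
      positivity
    have hh : a * ff ζ N k u y = 1 / z := by
      rw [hff, hzdef]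
      field_simp
    have hple := hB ζ hz N hN u hu y hy
    have hzz : N * rel u.2 y.2 / (2 * (wt ζ N u.1 * wt ζ N y.1)) ≤ z := by
      rw [hzdef]
      apply div_le_div_of_nonneg_left (by positivity) (by positivity)
      have := mul_le_mul_of_nonneg_right haw hwy.le
      linarith
    have hw0 : 0 ≤ N * rel u.2 y.2 / (2 * (wt ζ N u.1 * wt ζ N y.1)) := by
      positivity
    have h5 : 1 / (z + 3) ≤ prob ζ 1 N u y := by
      refine le_trans ?_ hple
      apply one_div_le_one_div_of_le (by linarith)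
      linarith
    refine le_trans ?_ h5
    rw [hh]
    have h6 : 1 / (z + 3) - (1 / z - 3 * (1 / z) ^ 2) = 9 / (z ^ 2 * (z + 3)) := by
      field_simp
      ring
    have h7 : 0 ≤ 9 / (z ^ 2 * (z + 3)) := by positivity
    linarith
  · have hff : ff ζ N k u y = 0 := by
      rw [ff, if_neg hc]
    rw [hff]
    have := ((hE ζ hz N hN).1 u y).1
    simpa using this

theorem INNER_prob1 (hE : S_PEL) (ζ : ℝ) (hz : 0 < ζ) (N : ℕ) (hN : 2 ≤ N)
    (u y : ℝ × ℝ) (hu : u ∈ disc ζ N) (hy : y ∈ disc ζ N) (hq0 : 0 < qq N) (hq1 : qq N < 1) :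
    0 ≤ prob1 ζ N u y ∧ prob1 ζ N u y ≤ 1 ∧ prob ζ 1 N u y - qq N ≤ prob1 ζ N u y := by
  have h3 := (hE ζ hz N hN).2 u hu y hy
  have h4 := ((hE ζ hz N hN).1 u y).2
  have h5 : 0 < 1 - qq N := by linarith
  unfold prob1
  refine ⟨div_nonneg (by linarith) h5.le, ?_, ?_⟩
  · rw [div_le_one h5]
    linarith
  · rw [le_div_iff₀ h5]
    nlinarith

theorem INNER_prob_meas (hME : S_MEAS) (ζ : ℝ) (N : ℕ) (u : ℝ × ℝ) :
    Measurable (fun y : ℝ × ℝ => prob ζ 1 N u y) := by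
  have h1 : Measurable (fun y : ℝ × ℝ => (u, y)) := measurable_const.prodMk measurable_id
  have h2 := (hME ζ N).comp h1
  exact h2

theorem INNER_prob1_meas (hME : S_MEAS) (ζ : ℝ) (N : ℕ) (u : ℝ × ℝ) :
    Measurable (fun y : ℝ × ℝ => 1 - prob1 ζ N u y) := by
  have h3 := INNER_prob_meas hME ζ N u
  have h4 : Measurable (fun y : ℝ × ℝ => (prob ζ 1 N u y - qq N) / (1 - qq N)) :=
    (h3.sub_const _).div_const _
  exact h4.const_sub 1

theorem t_INNER (hP : S_PM) (hA : S_AE) (hME : S_MEAS) (hB : S_PLB) (hE : S_PEL) (hW : S_PW)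
    (h1 : S_M1) (h2 : S_M2) : S_INNER := by
  intro ζ α had hζα
  obtain ⟨C1, hC1, hM1⟩ := h1 ζ α had hζα
  obtain ⟨C2, hC2, hM2⟩ := h2 ζ α had
  refine ⟨C1 + 8 * C2 + 1 / 4, by positivity, ?_⟩
  intro N hN S hS x hx
  have : IsProbabilityMeasure (pt ζ α N) := (hP ζ α had N hN).2.2
  have hN1 : 1 ≤ N := by omega
  have hN0 : (0 : ℝ) < N := by exact_mod_cast hN1
  have hN2 : (2 : ℝ) ≤ N := by exact_mod_cast hN
  set k : ℕ := S.card with hk
  have hk1 : 1 ≤ k := hS.card_pos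
  have hkN : k ≤ N := by
    have := Finset.card_le_univ S
    rwa [Fintype.card_fin] at this
  have hk0 : (0 : ℝ) < k := by exact_mod_cast hk1
  have hz := had.z0
  set a : Fin N → ℝ := fun i => min (wt ζ N (x i).1) 2 with ha
  have hwt1 : ∀ i, 1 ≤ wt ζ N (x i).1 := by
    intro i
    have h3 : (x i).1 ≤ Rad ζ N := (hx i).1.2
    unfold wt
    rw [Real.one_le_exp_iff]
    have : 0 ≤ Rad ζ N - (x i).1 := by linarith
    positivity
  have ha1 : ∀ i, 1 ≤ a i := fun i => le_min (hwt1 i) (by norm_num)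
  have ha2 : ∀ i, a i ≤ 2 := fun i => min_le_right _ _
  have haw : ∀ i, a i ≤ wt ζ N (x i).1 := fun i => min_le_left _ _
  set A : ℝ := ∑ i ∈ S, a i with hAdef
  have hAk : (k : ℝ) ≤ A := by
    have h3 : ∑ _i ∈ S, (1 : ℝ) ≤ ∑ i ∈ S, a i := Finset.sum_le_sum (fun i _ => ha1 i)
    simpa using h3
  have hA2 : A ≤ 2 * k := by
    have h3 : ∑ i ∈ S, a i ≤ ∑ _i ∈ S, (2 : ℝ) := Finset.sum_le_sum (fun i _ => ha2 i)
    have h4 : ∑ _i ∈ S, (2 : ℝ) = 2 * k := by
      rw [Finset.sum_const, nsmul_eq_mul]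
      ring
    rw [h4] at h3
    exact h3
  have hA0 : 0 < A := by linarith
  set q : ℝ := qq N with hq
  have hqv : q = 1 / (4 * N) := rfl
  have hq0 : 0 < q := by rw [hqv]; positivity
  have hq1 : q < 1 := by
    rw [hqv, div_lt_one (by positivity)]
    linarith
  -- the comparison functions
  obtain ⟨hHint, hH2int, hEH, hEH2⟩ := INNER_H (pt ζ α N) S a (fun i y => ff ζ N k (x i) y)
    (fun i => INNER_ff_meas ζ N k (x i)) (fun i y => INNER_ff_nonneg ζ N k (x i) y)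
    (fun i y => INNER_ff_le ζ N k hN1 hk1 (x i) y) ha1 ha2 ((Real.log (N / k) - C1) / N)
    (C2 / (N * k)) (fun i => hM1 N hN k hk1 hkN (x i) (hx i))
    (fun i => hM2 N hN k hk1 hkN (x i) (hx i))
  obtain ⟨hint1, hstep2⟩ := INNER_int (pt ζ α N) (fun y => ∑ i ∈ S, a i * ff ζ N k (x i) y)
    hHint hH2int (k * q)
  -- pointwise
  have hpt : ∀ y ∈ disc ζ N, (∀ i, 0 ≤ prob1 ζ N (x i) y ∧ prob1 ζ N (x i) y ≤ 1) ∧
      ∏ i ∈ S, (1 - prob1 ζ N (x i) y) ≤ 1 - (∑ i ∈ S, a i * ff ζ N k (x i) y) +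
        4 * (∑ i ∈ S, a i * ff ζ N k (x i) y) ^ 2 + k * q := by
    intro y hy
    have hX := fun i => INNER_prob1 hE ζ hz N hN (x i) y (hx i) hy hq0 hq1
    refine ⟨fun i => ⟨(hX i).1, (hX i).2.1⟩, ?_⟩
    have hkey := hW N S (fun i => a i * ff ζ N k (x i) y) (fun i => prob1 ζ N (x i) y) q hq0.le
      (fun i _ => mul_nonneg (by linarith [ha1 i]) (INNER_ff_nonneg ζ N k (x i) y))
      (fun i _ => ⟨(hX i).1, (hX i).2.1⟩) (fun i _ => by
        have h3 := (hX i).2.2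
        have h4 := INNER_pt hB hE ζ hz N k hN hk1 (x i) y (hx i) hy (a i) (ha1 i) (haw i) (hwt1 i)
        change a i * ff ζ N k (x i) y - 3 * (a i * ff ζ N k (x i) y) ^ 2 - q ≤ prob1 ζ N (x i) y
        linarith)
    have hkey' : (∑ i ∈ S, a i * ff ζ N k (x i) y) -
        4 * (∑ i ∈ S, a i * ff ζ N k (x i) y) ^ 2 - k * q ≤
        1 - ∏ i ∈ S, (1 - prob1 ζ N (x i) y) := hkey
    linarith
  -- integration
  have hae := hA ζ α had N hN
  have hprodm : Measurable (fun y => ∏ i ∈ S, (1 - prob1 ζ N (x i) y)) :=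
    Finset.measurable_prod _ (fun i _ => INNER_prob1_meas hME ζ N (x i))
  have hprodint : Integrable (fun y => ∏ i ∈ S, (1 - prob1 ζ N (x i) y)) (pt ζ α N) := by
    refine Integrable.of_bound hprodm.aestronglyMeasurable 1 ?_
    refine hae.mono (fun y hy => ?_)
    have h3 := (hpt y hy).1
    rw [Real.norm_of_nonneg (Finset.prod_nonneg (fun i _ => by linarith [(h3 i).2]))]
    exact Finset.prod_le_one (fun i _ => by linarith [(h3 i).2]) (fun i _ => by
      linarith [(h3 i).1])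
  have hstep1 := integral_mono_ae hprodint hint1 (hae.mono (fun y hy => (hpt y hy).2))
  rw [hstep2] at hstep1
  have e4 : A * (A * (C2 / (N * k))) ≤ 2 * A * C2 / N := by
    have e5 : 2 * A * C2 / N = A * (2 * k * (C2 / (N * k))) := by
      field_simp
    rw [e5]
    have e6 : 0 ≤ C2 / (N * k) := by positivity
    exact mul_le_mul_of_nonneg_left (mul_le_mul_of_nonneg_right hA2 e6) hA0.le
  have hkq : k * q ≤ A / N * (1 / 4) := by
    have e1 : (k : ℝ) * q = k / N * (1 / 4) := by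
      rw [hqv]
      field_simp
    rw [e1]
    have e2 : (k : ℝ) / N ≤ A / N := div_le_div_of_nonneg_right hAk hN0.le
    linarith
  have e9 : 4 * (2 * A * C2 / N) = A / N * (8 * C2) := by ring
  have e10 : A * ((Real.log (N / k) - C1) / N) = A / N * (Real.log (N / k) - C1) := by ring
  rw [e10] at hEH
  have e11 : 1 - A / N * (Real.log (N / k) - (C1 + 8 * C2 + 1 / 4)) =
      1 - A / N * (Real.log (N / k) - C1) + A / N * (8 * C2) + A / N * (1 / 4) := by ring
  rw [e11]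
  linarith

end HG
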