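import Mathlib
import Pool.Agent.R985.HG.Defs

open MeasureTheory Set Filter
open scoped ENNReal Topology BigOperators Real

namespace HG

/-- the integrand as a function of the weight and the angle -/
noncomputable def M1_g (a : ℝ) (N k : ℕ) (θ : ℝ) : ℝ :=
  if a * k ≤ N ∧ a * k / N ≤ θ then 2 * a / (N * θ) else 0

/-- the uniform law on `[0,π]` -/
noncomputable def M1_nu : Measure ℝ := (ENNReal.ofReal π)⁻¹ • volume.restrict (Icc 0 π)

theorem M1_nu_prob : IsProbabilityMeasure M1_nu := by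
  constructor
  have hπ : ENNReal.ofReal π ≠ 0 := by
    rw [Ne, ENNReal.ofReal_eq_zero, not_le]; exact Real.pi_pos
  rw [M1_nu, Measure.smul_apply, Measure.restrict_apply_univ, Real.volume_Icc, sub_zero,
    smul_eq_mul, ENNReal.inv_mul_cancel hπ ENNReal.ofReal_ne_top]

theorem M1_g_nonneg {a : ℝ} (ha : 0 < a) {N k : ℕ} (hN : 2 ≤ N) (hk : 1 ≤ k) (θ : ℝ) :
    0 ≤ M1_g a N k θ := by
  unfold M1_g
  have hN' : (0:ℝ) < N := by exact_mod_cast (by omega : 0 < N)
  have hk' : (0:ℝ) < k := by exact_mod_cast (by omega : 0 < k)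
  split_ifs with h
  · have h0 : 0 < a * k / N := by positivity
    have hθ : 0 < θ := lt_of_lt_of_le h0 h.2
    positivity
  · exact le_rfl

theorem M1_g_le {a : ℝ} (ha : 0 < a) {N k : ℕ} (hN : 2 ≤ N) (hk : 1 ≤ k) (θ : ℝ) :
    M1_g a N k θ ≤ 2 := by
  unfold M1_g
  have hN' : (0:ℝ) < N := by exact_mod_cast (by omega : 0 < N)
  have hk' : (0:ℝ) < k := by exact_mod_cast (by omega : 0 < k)
  have hk1 : (1:ℝ) ≤ k := by exact_mod_cast hk
  split_ifs with h
  · have h0 : 0 < a * k / N := by positivity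
    have hθ : 0 < θ := lt_of_lt_of_le h0 h.2
    rw [div_le_iff₀ (by positivity)]
    have h2 : a * k ≤ N * θ := by
      have := h.2
      rw [div_le_iff₀ hN'] at this
      linarith
    nlinarith
  · norm_num

theorem M1_g_meas (ζ : ℝ) (N k : ℕ) :
    Measurable (fun w : ℝ × ℝ => M1_g (wt ζ N w.1) N k w.2) := by
  have hwt : Measurable (fun w : ℝ × ℝ => wt ζ N w.1) := by
    unfold wt
    fun_prop
  unfold M1_g
  refine Measurable.ite ?_ ?_ measurable_const
  · exact (measurableSet_le (hwt.mul_const _) measurable_const).inter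
      (measurableSet_le ((hwt.mul_const _).div_const _) measurable_snd)
  · exact (hwt.const_mul 2).div (measurable_snd.const_mul _)

theorem M1_g_meas2 (a : ℝ) (N k : ℕ) : Measurable (fun θ : ℝ => M1_g a N k θ) := by
  unfold M1_g
  refine Measurable.ite ?_ ?_ measurable_const
  · exact (MeasurableSet.const _).inter (measurableSet_le measurable_const measurable_id)
  · exact measurable_const.div (measurable_id.const_mul _)

theorem M1_inner {a : ℝ} (ha : 0 < a) {N k : ℕ} (hN : 2 ≤ N) (hk : 1 ≤ k) :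
    (2 * a / (π * N)) * (Real.log (N / k) - Real.log a) ≤ ∫ θ, M1_g a N k θ ∂M1_nu := by
  have hN' : (0:ℝ) < N := by exact_mod_cast (by omega : 0 < N)
  have hk' : (0:ℝ) < k := by exact_mod_cast (by omega : 0 < k)
  have hπ := Real.pi_pos
  by_cases h : a * k ≤ N
  · have hc : 0 < a * k / N := by positivity
    have hc1 : a * k / N ≤ 1 := by rw [div_le_one hN']; exact h
    have hcπ : a * k / N ≤ π := by linarith [Real.pi_gt_three]
    rw [M1_nu, integral_smul_measure]
    have hint : IntegrableOn (fun θ => M1_g a N k θ) (Icc 0 π) := by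
      refine Measure.integrableOn_of_bounded (M := 2) (by simp) (M1_g_meas2 a N k).aestronglyMeasurable ?_
      refine Filter.Eventually.of_forall fun θ => ?_
      rw [Real.norm_eq_abs, abs_of_nonneg (M1_g_nonneg ha hN hk θ)]
      exact M1_g_le ha hN hk θ
    have h1 : ∫ θ in Ioc (a * k / N) π, M1_g a N k θ ≤ ∫ θ in Icc 0 π, M1_g a N k θ := by
      refine setIntegral_mono_set hint ?_ ?_
      · exact Filter.Eventually.of_forall fun θ => M1_g_nonneg ha hN hk θ
      · refine Filter.Eventually.of_forall fun θ hθ => ?_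
        exact ⟨hc.le.trans hθ.1.le, hθ.2⟩
    have h2 : ∫ θ in Ioc (a * k / N) π, M1_g a N k θ
        = (2 * a / N) * Real.log (π / (a * k / N)) := by
      rw [← integral_inv_of_pos hc hπ, intervalIntegral.integral_of_le hcπ,
        ← integral_const_mul]
      refine setIntegral_congr_fun measurableSet_Ioc fun θ hθ => ?_
      have : a * k ≤ N ∧ a * k / N ≤ θ := ⟨h, hθ.1.le⟩
      simp only [M1_g, if_pos this]
      have hθ0 : 0 < θ := hc.trans hθ.1
      field_simp
    have h3 : Real.log (π / (a * k / N)) = Real.log π + (Real.log (N / k) - Real.log a) := by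
      rw [Real.log_div hπ.ne' hc.ne', Real.log_div (by positivity) hN'.ne',
        Real.log_mul ha.ne' hk'.ne', Real.log_div hN'.ne' hk'.ne']
      ring
    have h4 : 0 ≤ Real.log π := Real.log_nonneg (by linarith [Real.pi_gt_three])
    have h5 : ((ENNReal.ofReal π)⁻¹).toReal = π⁻¹ := by
      rw [ENNReal.toReal_inv, ENNReal.toReal_ofReal hπ.le]
    rw [h5, smul_eq_mul]
    calc (2 * a / (π * N)) * (Real.log (N / k) - Real.log a)
        ≤ (2 * a / (π * N)) * Real.log (π / (a * k / N)) := by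
          rw [h3]
          refine mul_le_mul_of_nonneg_left (by linarith) (by positivity)
      _ = π⁻¹ * ((2 * a / N) * Real.log (π / (a * k / N))) := by
          field_simp
      _ ≤ π⁻¹ * ∫ θ in Icc 0 π, M1_g a N k θ := by
          rw [← h2]
          exact mul_le_mul_of_nonneg_left h1 (by positivity)
  · have h0 : ∫ θ, M1_g a N k θ ∂M1_nu = 0 := by
      have : (fun θ => M1_g a N k θ) = fun _ => 0 := by
        funext θ
        simp [M1_g, h]
      rw [this, integral_zero]
    rw [h0]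
    have h1 : Real.log (N / k) ≤ Real.log a := by
      refine Real.log_le_log (by positivity) ?_
      rw [div_le_iff₀ hk']
      exact (not_le.1 h).le
    refine mul_nonpos_of_nonneg_of_nonpos (by positivity) (by linarith)

theorem M1_ff (ζ : ℝ) (N k : ℕ) (u v : ℝ × ℝ) :
    ff ζ N k u v = M1_g (wt ζ N v.1) N k (rel u.2 v.2) := by
  unfold ff M1_g
  rfl

theorem t_M1 (hP : S_PM) (hL : S_POL) (hM : S_MOM) (hE : S_MEAN) : S_M1 := by
  intro ζ α hA hζα
  have hζ := hA.z0
  have hα := hA.a0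
  have hπ := Real.pi_pos
  have hgap : 0 < α - ζ / 2 := by
    have := hA.h2
    rw [div_lt_iff₀ hα] at this
    linarith
  obtain ⟨C1, hC1, hmean⟩ := hE ζ α hA
  obtain ⟨C2, hC2, hmom1⟩ := hM ζ α hA (ζ / 2) (by positivity) (by linarith)
  set ε : ℝ := (α - ζ / 2) / 2 with hε
  have hε0 : 0 < ε := by positivity
  obtain ⟨C3, hC3, hmom⟩ := hM ζ α hA (ζ / 2 + ε) (by positivity) (by rw [hε]; linarith)
  set c : ℝ := (ζ / 2) / ε with hc
  have hc0 : 0 < c := by positivity
  refine ⟨C1 + c * C3, by positivity, ?_⟩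
  intro N hN k hk hkN u hu
  have hN' : (0:ℝ) < N := by exact_mod_cast (by omega : 0 < N)
  have hk' : (0:ℝ) < k := by exact_mod_cast (by omega : 0 < k)
  obtain ⟨hPr, _, _⟩ := hP ζ α hA N hN
  have hPn := M1_nu_prob
  have hwtpos : ∀ r, 0 < wt ζ N r := fun r => Real.exp_pos _
  have hut : u.2 ∈ Ioc (0:ℝ) (2 * π) := hu.2
  -- polar coordinates
  have hφ : Measurable (fun v : ℝ × ℝ => (v.1, rel u.2 v.2)) := by
    refine measurable_fst.prodMk ?_
    unfold rel
    fun_prop
  have e1 : ∫ v, ff ζ N k u v ∂(pt ζ α N)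
      = ∫ w, M1_g (wt ζ N w.1) N k w.2 ∂((radial ζ α N).prod M1_nu) := by
    have := hL ζ α hA N hN u.2 hut
    rw [M1_nu, ← this, integral_map hφ.aemeasurable (M1_g_meas ζ N k).aestronglyMeasurable]
    refine integral_congr_ae (Filter.Eventually.of_forall fun v => ?_)
    exact M1_ff ζ N k u v
  have hintF : Integrable (fun w : ℝ × ℝ => M1_g (wt ζ N w.1) N k w.2)
      ((radial ζ α N).prod M1_nu) := by
    refine Integrable.of_bound (M1_g_meas ζ N k).aestronglyMeasurable 2 ?_
    refine Filter.Eventually.of_forall fun w => ?_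
    rw [Real.norm_eq_abs, abs_of_nonneg (M1_g_nonneg (hwtpos _) hN hk _)]
    exact M1_g_le (hwtpos _) hN hk _
  rw [e1, integral_prod _ hintF]
  set l : ℝ := Real.log (N / k) with hl
  have hl0 : 0 ≤ l := Real.log_nonneg (by
    rw [le_div_iff₀ hk', one_mul]; exact_mod_cast hkN)
  have hlogN : 0 < Real.log N := Real.log_pos (by exact_mod_cast (by omega : 1 < N))
  have hlN : l ≤ Real.log N := by
    refine Real.log_le_log (by positivity) ?_
    rw [div_le_iff₀ hk']
    have : (1:ℝ) ≤ k := by exact_mod_cast hk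
    nlinarith
  -- pointwise lower bound
  have hwt : ∀ r, wt ζ N r = Real.exp (ζ / 2 * (Rad ζ N - r)) := by
    intro r; unfold wt; congr 1; ring
  have hpt : ∀ r, (2 / (π * N)) * (l * Real.exp (ζ / 2 * (Rad ζ N - r))
      - c * Real.exp ((ζ / 2 + ε) * (Rad ζ N - r))) ≤ ∫ θ, M1_g (wt ζ N r) N k θ ∂M1_nu := by
    intro r
    refine le_trans ?_ (M1_inner (hwtpos r) hN hk)
    set y := Rad ζ N - r with hy
    rw [hwt r, Real.log_exp, ← hy]
    have h1 : ε * y ≤ Real.exp (ε * y) := by
      have := Real.add_one_le_exp (ε * y)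
      linarith
    have h2 : Real.exp ((ζ / 2 + ε) * y) = Real.exp (ζ / 2 * y) * Real.exp (ε * y) := by
      rw [← Real.exp_add]; congr 1; ring
    have h3 : ζ / 2 * y ≤ c * Real.exp (ε * y) := by
      have : ζ / 2 * y = c * (ε * y) := by
        rw [hc]; field_simp
      rw [this]
      exact mul_le_mul_of_nonneg_left h1 hc0.le
    have h4 : 0 < Real.exp (ζ / 2 * y) := Real.exp_pos _
    rw [h2]
    have h5 : (2 * Real.exp (ζ / 2 * y) / (π * N)) * (l - ζ / 2 * y)
        = (2 / (π * N)) * (l * Real.exp (ζ / 2 * y) - Real.exp (ζ / 2 * y) * (ζ / 2 * y)) := by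
      ring
    rw [h5]
    refine mul_le_mul_of_nonneg_left ?_ (by positivity)
    nlinarith
  have hi1 := (hmom1 N hN).1
  have hi2 := (hmom N hN).1
  have hmono : ∫ r, (2 / (π * N)) * (l * Real.exp (ζ / 2 * (Rad ζ N - r))
      - c * Real.exp ((ζ / 2 + ε) * (Rad ζ N - r))) ∂(radial ζ α N)
      ≤ ∫ r, ∫ θ, M1_g (wt ζ N r) N k θ ∂M1_nu ∂(radial ζ α N) := by
    refine integral_mono (((hi1.const_mul l).sub (hi2.const_mul c)).const_mul _)
      hintF.integral_prod_left hpt
  refine le_trans ?_ hmono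
  rw [integral_const_mul, integral_sub (hi1.const_mul l) (hi2.const_mul c), integral_const_mul,
    integral_const_mul]
  have hE1 := (hmean N hN).1
  have hE1' : ∫ r, Real.exp (ζ / 2 * (Rad ζ N - r)) ∂(radial ζ α N)
      = ∫ r, wt ζ N r ∂(radial ζ α N) := by
    refine integral_congr_ae (Filter.Eventually.of_forall fun r => ?_)
    exact (hwt r).symm
  rw [hE1']
  set A := ∫ r, wt ζ N r ∂(radial ζ α N) with hA1
  have hE2 := (hmom N hN).2
  set B := ∫ r, Real.exp ((ζ / 2 + ε) * (Rad ζ N - r)) ∂(radial ζ α N) with hB1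
  have hc0π : π / 2 ≤ α / (α - ζ / 2) := by
    rw [le_div_iff₀ hgap]
    have h1 : (2 - 4 / π) * α ≤ ζ := by
      rwa [le_div_iff₀ hα] at hζα
    have h2 : π * ((2 - 4 / π) * α) ≤ π * ζ := mul_le_mul_of_nonneg_left h1 hπ.le
    have h3 : π * ((2 - 4 / π) * α) = 2 * π * α - 4 * α := by
      field_simp
    nlinarith
  have h6 : l * (π / 2) - C1 ≤ l * A := by
    have h7 : l * (α / (α - ζ / 2) - C1 / Real.log N) ≤ l * A :=
      mul_le_mul_of_nonneg_left hE1 hl0
    have h8 : l * (C1 / Real.log N) ≤ C1 := by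
      rw [mul_div_assoc', div_le_iff₀ hlogN, mul_comm]
      exact mul_le_mul_of_nonneg_left hlN hC1.le
    have h9 : l * (π / 2) ≤ l * (α / (α - ζ / 2)) := mul_le_mul_of_nonneg_left hc0π hl0
    nlinarith
  have h10 : c * B ≤ c * C3 := mul_le_mul_of_nonneg_left hE2 hc0.le
  have h11 : l * (π / 2) - (C1 + c * C3) ≤ l * A - c * B := by linarith
  have h12 : (2 / (π * N)) * (l * (π / 2) - (C1 + c * C3)) ≤ (2 / (π * N)) * (l * A - c * B) :=
    mul_le_mul_of_nonneg_left h11 (by positivity)
  refine le_trans ?_ h12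
  have h13 : (2 / (π * N)) * (l * (π / 2) - (C1 + c * C3))
      = (l - (2 / π) * (C1 + c * C3)) / N := by
    field_simp
  rw [h13]
  refine div_le_div_of_nonneg_right ?_ hN'.le
  have h14 : 2 / π ≤ 1 := by
    rw [div_le_one hπ]; linarith [Real.pi_gt_three]
  have h15 : 0 < C1 + c * C3 := by positivity
  nlinarith

end HG
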