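import Mathlib
import Pool.Agent.R985.HG.Defs
import Pool.Agent.R985.HG.P_M1

open MeasureTheory Set Filter
open scoped ENNReal Topology BigOperators Real

namespace HG

theorem M2b_inner {a : ℝ} (ha : 0 < a) {N k : ℕ} (hN : 2 ≤ N) (hk : 1 ≤ k) :
    ∫ θ, M1_g a N k θ ^ 2 ∂M1_nu ≤ 4 * a / (π * N * k) := by
  have hN' : (0:ℝ) < N := by exact_mod_cast (by omega : 0 < N)
  have hk' : (0:ℝ) < k := by exact_mod_cast (by omega : 0 < k)
  have hπ := Real.pi_pos
  by_cases h : a * k ≤ N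
  · have hc : 0 < a * k / N := by positivity
    have hc1 : a * k / N ≤ 1 := by rw [div_le_one hN']; exact h
    have hcπ : a * k / N ≤ π := by linarith [Real.pi_gt_three]
    rw [M1_nu, integral_smul_measure]
    have h1 : ∫ θ in Icc 0 π, M1_g a N k θ ^ 2 = ∫ θ in Icc (a * k / N) π, (4 * a ^ 2 / N ^ 2) * (1 / θ ^ 2) := by
      rw [← integral_indicator measurableSet_Icc, ← integral_indicator measurableSet_Icc]
      congr 1
      funext θ
      by_cases hθ : θ ∈ Icc (a * k / N) π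
      · have h0 : θ ∈ Icc 0 π := ⟨hc.le.trans hθ.1, hθ.2⟩
        rw [indicator_of_mem h0, indicator_of_mem hθ]
        have hθ0 : 0 < θ := lt_of_lt_of_le hc hθ.1
        simp only [M1_g, if_pos (show a * k ≤ N ∧ a * k / N ≤ θ from ⟨h, hθ.1⟩)]
        field_simp
        ring
      · rw [indicator_of_notMem hθ]
        by_cases h0 : θ ∈ Icc 0 π
        · rw [indicator_of_mem h0]
          have : ¬ (a * k ≤ N ∧ a * k / N ≤ θ) := fun hh => hθ ⟨hh.2, h0.2⟩
          simp [M1_g, this]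
        · rw [indicator_of_notMem h0]
    have h2 : ∫ θ in Icc (a * k / N) π, (4 * a ^ 2 / N ^ 2) * (1 / θ ^ 2)
        = (4 * a ^ 2 / N ^ 2) * (1 / (a * k / N) - 1 / π) := by
      rw [integral_Icc_eq_integral_Ioc, ← intervalIntegral.integral_of_le hcπ]
      have hd : ∀ x ∈ uIcc (a * k / N) π,
          HasDerivAt (fun x : ℝ => (4 * a ^ 2 / N ^ 2) * (-(x⁻¹))) ((4 * a ^ 2 / N ^ 2) * (1 / x ^ 2)) x := by
        intro x hx
        rw [uIcc_of_le hcπ] at hx
        have hx0 : x ≠ 0 := (lt_of_lt_of_le hc hx.1).ne'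
        have h7 : HasDerivAt (fun x : ℝ => -(x⁻¹)) (-(-(x ^ 2)⁻¹)) x := (hasDerivAt_inv hx0).neg
        have h8 := h7.const_mul (4 * a ^ 2 / (N:ℝ) ^ 2)
        have e : (4 * a ^ 2 / (N:ℝ) ^ 2) * (1 / x ^ 2) = 4 * a ^ 2 / (N:ℝ) ^ 2 * (-(-(x ^ 2)⁻¹)) := by
          rw [neg_neg, one_div]
        rw [e]; exact h8
      have hcont : ContinuousOn (fun x : ℝ => (4 * a ^ 2 / (N:ℝ) ^ 2) * (1 / x ^ 2)) (uIcc (a * k / N) π) := by
        rw [uIcc_of_le hcπ]
        apply ContinuousOn.mul continuousOn_const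
        apply ContinuousOn.div continuousOn_const (by fun_prop)
        intro x hx
        have : 0 < x := lt_of_lt_of_le hc hx.1
        positivity
      rw [intervalIntegral.integral_eq_sub_of_hasDerivAt hd hcont.intervalIntegrable]
      rw [one_div, one_div]; ring
    have h5 : ((ENNReal.ofReal π)⁻¹).toReal = π⁻¹ := by
      rw [ENNReal.toReal_inv, ENNReal.toReal_ofReal hπ.le]
    rw [h5, smul_eq_mul, h1, h2]
    have h6 : (4 * a ^ 2 / (N:ℝ) ^ 2) * (1 / (a * k / N) - 1 / π) ≤ (4 * a ^ 2 / (N:ℝ) ^ 2) * (1 / (a * k / N)) := by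
      apply mul_le_mul_of_nonneg_left _ (by positivity)
      have : 0 < 1 / π := by positivity
      linarith
    calc π⁻¹ * ((4 * a ^ 2 / (N:ℝ) ^ 2) * (1 / (a * k / N) - 1 / π))
        ≤ π⁻¹ * ((4 * a ^ 2 / (N:ℝ) ^ 2) * (1 / (a * k / N))) :=
          mul_le_mul_of_nonneg_left h6 (by positivity)
      _ = 4 * a / (π * N * k) := by field_simp
  · have h0 : ∫ θ, M1_g a N k θ ^ 2 ∂M1_nu = 0 := by
      have : (fun θ => M1_g a N k θ ^ 2) = fun _ => 0 := by
        funext θ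
        simp [M1_g, h]
      rw [this, integral_zero]
    rw [h0]
    positivity

theorem t_M2b (hP : S_PM) (hL : S_POL) (hM : S_MOM) : S_M2 := by
  intro ζ α hA
  have hζ := hA.z0
  have hα := hA.a0
  have hπ := Real.pi_pos
  have hgap : 0 < α - ζ / 2 := by
    have := hA.h2
    rw [div_lt_iff₀ hα] at this
    linarith
  obtain ⟨C2, hC2, hmom⟩ := hM ζ α hA (ζ / 2) (by positivity) (by linarith)
  refine ⟨4 / π * C2, by positivity, ?_⟩
  intro N hN k hk hkN u hu
  have hN' : (0:ℝ) < N := by exact_mod_cast (by omega : 0 < N)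
  have hk' : (0:ℝ) < k := by exact_mod_cast (by omega : 0 < k)
  obtain ⟨hPr, _, _⟩ := hP ζ α hA N hN
  have hPn := M1_nu_prob
  have hwtpos : ∀ r, 0 < wt ζ N r := fun r => Real.exp_pos _
  have hut : u.2 ∈ Ioc (0:ℝ) (2 * π) := hu.2
  have hφ : Measurable (fun v : ℝ × ℝ => (v.1, rel u.2 v.2)) := by
    refine measurable_fst.prodMk ?_
    unfold rel
    fun_prop
  have hmeas : Measurable (fun w : ℝ × ℝ => M1_g (wt ζ N w.1) N k w.2 ^ 2) :=
    (M1_g_meas ζ N k).pow_const 2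
  have e1 : ∫ v, ff ζ N k u v ^ 2 ∂(pt ζ α N)
      = ∫ w, M1_g (wt ζ N w.1) N k w.2 ^ 2 ∂((radial ζ α N).prod M1_nu) := by
    have := hL ζ α hA N hN u.2 hut
    rw [M1_nu, ← this, integral_map hφ.aemeasurable hmeas.aestronglyMeasurable]
    refine integral_congr_ae (Filter.Eventually.of_forall fun v => ?_)
    simp only [M1_ff ζ N k u v]
  have hintF : Integrable (fun w : ℝ × ℝ => M1_g (wt ζ N w.1) N k w.2 ^ 2)
      ((radial ζ α N).prod M1_nu) := by
    refine Integrable.of_bound hmeas.aestronglyMeasurable 4 ?_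
    refine Filter.Eventually.of_forall fun w => ?_
    have h0 := M1_g_nonneg (hwtpos w.1) hN hk w.2
    have h1 := M1_g_le (hwtpos w.1) hN hk w.2
    rw [Real.norm_eq_abs, abs_of_nonneg (by positivity)]
    nlinarith
  rw [e1, integral_prod _ hintF]
  have hwt : ∀ r, wt ζ N r = Real.exp (ζ / 2 * (Rad ζ N - r)) := by
    intro r; unfold wt; congr 1; ring
  have hi := (hmom N hN).1
  have hmono : ∫ r, ∫ θ, M1_g (wt ζ N r) N k θ ^ 2 ∂M1_nu ∂(radial ζ α N)
      ≤ ∫ r, 4 / (π * N * k) * Real.exp (ζ / 2 * (Rad ζ N - r)) ∂(radial ζ α N) := by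
    refine integral_mono hintF.integral_prod_left (hi.const_mul _) ?_
    intro r
    refine le_trans (M2b_inner (hwtpos r) hN hk) ?_
    rw [hwt r]
    apply le_of_eq
    ring
  refine le_trans hmono ?_
  rw [integral_const_mul]
  calc 4 / (π * N * k) * ∫ r, Real.exp (ζ / 2 * (Rad ζ N - r)) ∂(radial ζ α N)
      ≤ 4 / (π * N * k) * C2 := mul_le_mul_of_nonneg_left (hmom N hN).2 (by positivity)
    _ = 4 / π * C2 / (N * k) := by field_simp

end HG
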