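import Pool.Agent.R985.HG.Defs

open MeasureTheory Set Filter
open scoped ENNReal Topology BigOperators Real

namespace HG

noncomputable section

theorem MEAN_rho_cont (ζ α : ℝ) (N : ℕ) : Continuous (fun r => rho ζ α N r) := by
  unfold rho
  fun_prop

theorem MEAN_wt_cont (ζ : ℝ) (N : ℕ) : Continuous (fun r => wt ζ N r) := by
  unfold wt
  fun_prop

theorem MEAN_rho_nonneg (ζ α : ℝ) (hα : 0 < α) (N : ℕ) (r : ℝ) (hr : 0 ≤ r) :
    0 ≤ rho ζ α N r := by
  unfold rho
  apply div_nonneg
  · exact mul_nonneg hα.le (Real.sinh_nonneg_iff.2 (mul_nonneg hα.le hr))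
  · linarith [Real.one_le_cosh (α * Rad ζ N)]

theorem MEAN_eq (ζ α : ℝ) (hα : 0 < α) (N : ℕ) (hR : 0 ≤ Rad ζ N) :
    ∫ r, wt ζ N r ∂(radial ζ α N) = ∫ r in (0:ℝ)..(Rad ζ N), rho ζ α N r * wt ζ N r := by
  unfold radial
  rw [integral_withDensity_eq_integral_toReal_smul
    (MEAN_rho_cont ζ α N).measurable.ennreal_ofReal
    (Filter.Eventually.of_forall fun _ => ENNReal.ofReal_lt_top)]
  rw [intervalIntegral.integral_of_le hR, ← integral_Icc_eq_integral_Ioc]
  apply setIntegral_congr_fun measurableSet_Icc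
  intro r hr
  simp only [smul_eq_mul]
  rw [ENNReal.toReal_ofReal (MEAN_rho_nonneg ζ α hα N r hr.1)]

theorem MEAN_exp (k R : ℝ) (hk : k ≠ 0) :
    ∫ r in (0:ℝ)..R, Real.exp (k * (R - r)) = (Real.exp (k * R) - 1) / k := by
  rw [intervalIntegral.integral_comp_sub_left (fun y => Real.exp (k * y)) R]
  rw [intervalIntegral.integral_comp_mul_left (fun y => Real.exp y) hk]
  rw [integral_exp]
  simp
  field_simp

theorem MEAN_inv (x : ℝ) (hx : 0 < x) : Real.exp (-x) ≤ 1 / x := by
  rw [Real.exp_neg, ← one_div]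
  exact one_div_le_one_div_of_le hx (by linarith [Real.add_one_le_exp x])

theorem MEAN_up (ζ α : ℝ) (hα : 0 < α) (N : ℕ) (hR : 0 < Rad ζ N) (r : ℝ) :
    rho ζ α N r ≤ α * Real.exp (-(α * (Rad ζ N - r))) /
      (1 - Real.exp (-(α * Rad ζ N))) ^ 2 := by
  unfold rho
  set R := Rad ζ N with hRd
  have h0 : 0 < α * R := mul_pos hα hR
  have h1 : Real.exp (-(α * R)) < 1 := by
    rw [Real.exp_lt_one_iff]
    linarith
  have hE : Real.exp (α * R) * Real.exp (-(α * R)) = 1 := by
    rw [← Real.exp_add]; simp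
  have h2 : Real.cosh (α * R) - 1 = Real.exp (α * R) * (1 - Real.exp (-(α * R))) ^ 2 / 2 := by
    rw [Real.cosh_eq]
    have : Real.exp (α * R) * (1 - Real.exp (-(α * R))) ^ 2 =
      Real.exp (α * R) - 2 * (Real.exp (α * R) * Real.exp (-(α * R))) +
        (Real.exp (α * R) * Real.exp (-(α * R))) * Real.exp (-(α * R)) := by ring
    rw [this, hE]
    ring
  have h3 : Real.sinh (α * r) ≤ Real.exp (α * r) / 2 := by
    rw [Real.sinh_eq]
    linarith [Real.exp_pos (-(α * r))]
  have h4 : 0 < (1 - Real.exp (-(α * R))) ^ 2 := by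
    apply pow_pos
    linarith
  have h5 : Real.exp (-(α * (R - r))) = Real.exp (α * r) / Real.exp (α * R) := by
    rw [← Real.exp_sub]
    congr 1
    ring
  rw [h2, h5]
  have h6 := Real.exp_pos (α * R)
  calc α * Real.sinh (α * r) / (Real.exp (α * R) * (1 - Real.exp (-(α * R))) ^ 2 / 2)
      ≤ α * (Real.exp (α * r) / 2) / (Real.exp (α * R) * (1 - Real.exp (-(α * R))) ^ 2 / 2) := by
        gcongr
    _ = α * (Real.exp (α * r) / Real.exp (α * R)) / (1 - Real.exp (-(α * R))) ^ 2 := by
        field_simp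

theorem t_MEAN (_hP : S_PM) (hR : S_RHO) : S_MEAN := by
  intro ζ α h
  obtain ⟨C0, _, hRho⟩ := hR ζ α h
  have hz := h.z0
  have ha := h.a0
  have hza : ζ < 2 * α := by
    have := h.h2
    rwa [div_lt_iff₀ ha] at this
  set c := α - ζ / 2 with hc
  have hc0 : 0 < c := by rw [hc]; linarith
  set t0 : ℝ := Real.exp (-(α * Rad ζ 2)) with ht0
  have hlog2 : 0 < Real.log (2:ℕ) := Real.log_pos (by norm_num)
  have hR2 : 0 < Rad ζ 2 := by
    unfold Rad
    positivity
  have ht01 : t0 < 1 := by
    rw [ht0, Real.exp_lt_one_iff]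
    have := mul_pos ha hR2
    linarith
  have h1t : 0 < (1 - t0) ^ 2 := pow_pos (by linarith) _
  -- constants
  set C1 : ℝ := (α / c + α / (α + ζ / 2)) * (ζ / (2 * c)) with hC1
  set C2 : ℝ := (α / c) * (2 / (1 - t0) ^ 2 * (ζ / (2 * α))) with hC2
  have hC1p : 0 < C1 := by rw [hC1]; positivity
  have hC2p : 0 < C2 := by rw [hC2]; positivity
  refine ⟨C1 + C2, by positivity, ?_⟩
  intro N hN
  have hN2 : (2:ℝ) ≤ N := by exact_mod_cast hN
  have hlogN : 0 < Real.log N := Real.log_pos (by linarith)
  have hRN : 0 < Rad ζ N := by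
    unfold Rad
    positivity
  have hRad : Rad ζ N = 2 * Real.log N / ζ := rfl
  rw [MEAN_eq ζ α ha N hRN.le]
  set R := Rad ζ N with hRdef
  have hcont : Continuous (fun r => rho ζ α N r * wt ζ N r) :=
    (MEAN_rho_cont ζ α N).mul (MEAN_wt_cont ζ N)
  have hwt : ∀ r, wt ζ N r = Real.exp (ζ / 2 * (R - r)) := by
    intro r
    unfold wt
    congr 1
    ring
  constructor
  · -- lower bound
    have hmono : ∫ r in (0:ℝ)..R, (α * Real.exp (-c * (R - r)) -
        α * Real.exp (-(2 * α * R)) * Real.exp ((α + ζ / 2) * (R - r))) ≤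
        ∫ r in (0:ℝ)..R, rho ζ α N r * wt ζ N r := by
      apply intervalIntegral.integral_mono_on hRN.le
      · exact Continuous.intervalIntegrable (by fun_prop) _ _
      · exact hcont.intervalIntegrable _ _
      · intro r hr
        have h1 := (hRho N hN r hr).2
        rw [hwt r]
        have h2 := mul_le_mul_of_nonneg_right h1 (Real.exp_pos (ζ / 2 * (R - r))).le
        refine le_trans (le_of_eq ?_) h2
        rw [← hRdef]
        have a1 : Real.exp (-c * (R - r)) =
            Real.exp (-(α * (R - r))) * Real.exp (ζ / 2 * (R - r)) := by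
          rw [← Real.exp_add]
          congr 1
          rw [hc]
          ring
        have a2 : Real.exp (-(2 * α * R)) * Real.exp ((α + ζ / 2) * (R - r)) =
            Real.exp (-(2 * α * R) + α * (R - r)) * Real.exp (ζ / 2 * (R - r)) := by
          rw [← Real.exp_add, ← Real.exp_add]
          congr 1
          ring
        rw [a1, mul_assoc α (Real.exp (-(2 * α * R))), a2]
        ring
    refine le_trans ?_ hmono
    rw [intervalIntegral.integral_sub (Continuous.intervalIntegrable (by fun_prop) _ _)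
      (Continuous.intervalIntegrable (by fun_prop) _ _),
      intervalIntegral.integral_const_mul, intervalIntegral.integral_const_mul,
      MEAN_exp _ _ (by linarith : -c ≠ 0), MEAN_exp _ _ (by positivity : α + ζ / 2 ≠ 0)]
    have e1 : Real.exp (-c * R) ≤ ζ / (2 * c) / Real.log N := by
      have := MEAN_inv (c * R) (by positivity)
      rw [show -(c * R) = -c * R by ring] at this
      refine this.trans (le_of_eq ?_)
      rw [hRad]
      field_simp
    have e2 : Real.exp (-(2 * α * R)) * Real.exp ((α + ζ / 2) * R) = Real.exp (-c * R) := by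
      rw [← Real.exp_add]
      congr 1
      rw [hc]
      ring
    have e3 : α * Real.exp (-(2 * α * R)) * ((Real.exp ((α + ζ / 2) * R) - 1) / (α + ζ / 2)) ≤
        α / (α + ζ / 2) * Real.exp (-c * R) := by
      rw [← e2]
      have h5 : 0 < α + ζ / 2 := by positivity
      have h6 := Real.exp_pos (-(2 * α * R))
      have h7 : α * Real.exp (-(2 * α * R)) * ((Real.exp ((α + ζ / 2) * R) - 1) / (α + ζ / 2)) =
        α / (α + ζ / 2) * (Real.exp (-(2 * α * R)) * Real.exp ((α + ζ / 2) * R)) -
        α / (α + ζ / 2) * Real.exp (-(2 * α * R)) := by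
        field_simp
      rw [h7]
      have h8 : 0 < α / (α + ζ / 2) * Real.exp (-(2 * α * R)) := by positivity
      linarith
    have e4 : α * ((Real.exp (-c * R) - 1) / -c) = α / c - α / c * Real.exp (-c * R) := by
      field_simp
      ring
    rw [e4]
    have e5 : (α / c + α / (α + ζ / 2)) * Real.exp (-c * R) ≤ C1 / Real.log N := by
      have h9 : 0 ≤ α / c + α / (α + ζ / 2) := by positivity
      refine (mul_le_mul_of_nonneg_left e1 h9).trans (le_of_eq ?_)
      rw [hC1]
      ring
    have e6 : C1 / Real.log N ≤ (C1 + C2) / Real.log N := by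
      gcongr
      linarith
    have e7 : (α / c + α / (α + ζ / 2)) * Real.exp (-c * R) =
      α / c * Real.exp (-c * R) + α / (α + ζ / 2) * Real.exp (-c * R) := by ring
    linarith
  · -- upper bound
    set t : ℝ := Real.exp (-(α * R)) with ht
    have htt0 : t ≤ t0 := by
      rw [ht, ht0]
      apply Real.exp_le_exp.2
      have : Rad ζ 2 ≤ R := by
        rw [hRad]
        unfold Rad
        gcongr
      have := mul_le_mul_of_nonneg_left this ha.le
      linarith
    have htpos : 0 < t := Real.exp_pos _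
    have ht1 : 0 < 1 - t := by linarith
    have hmono : ∫ r in (0:ℝ)..R, rho ζ α N r * wt ζ N r ≤
        ∫ r in (0:ℝ)..R, (α / (1 - t) ^ 2) * Real.exp (-c * (R - r)) := by
      apply intervalIntegral.integral_mono_on hRN.le
      · exact hcont.intervalIntegrable _ _
      · exact Continuous.intervalIntegrable (by fun_prop) _ _
      · intro r hr
        have h1 := MEAN_up ζ α ha N hRN r
        rw [hwt r]
        have h2 := mul_le_mul_of_nonneg_right h1 (Real.exp_pos (ζ / 2 * (R - r))).le
        refine h2.trans (le_of_eq ?_)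
        rw [← hRdef]
        have a1 : Real.exp (-c * (R - r)) =
            Real.exp (-(α * (R - r))) * Real.exp (ζ / 2 * (R - r)) := by
          rw [← Real.exp_add]
          congr 1
          rw [hc]
          ring
        rw [a1]
        ring
    refine hmono.trans ?_
    rw [intervalIntegral.integral_const_mul, MEAN_exp _ _ (by linarith : -c ≠ 0)]
    have e1 : (Real.exp (-c * R) - 1) / -c ≤ 1 / c := by
      rw [div_neg, ← neg_div, div_le_div_iff_of_pos_right hc0]
      linarith [Real.exp_pos (-c * R)]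
    have e2 : t ≤ ζ / (2 * α) / Real.log N := by
      have := MEAN_inv (α * R) (by positivity)
      refine this.trans (le_of_eq ?_)
      rw [hRad]
      field_simp
    have e3 : 1 / (1 - t) ^ 2 ≤ 1 + 2 / (1 - t0) ^ 2 * t := by
      have h4 : (1 - t0) ^ 2 ≤ (1 - t) ^ 2 := by
        apply pow_le_pow_left₀ (by linarith)
        linarith
      have h5 : 1 / (1 - t) ^ 2 = 1 + (2 * t - t ^ 2) / (1 - t) ^ 2 := by
        field_simp
        ring
      rw [h5]
      have h6 : (2 * t - t ^ 2) / (1 - t) ^ 2 ≤ (2 * t) / (1 - t0) ^ 2 := by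
        apply div_le_div₀ (by positivity) (by nlinarith) h1t h4
      have h7 : 2 / (1 - t0) ^ 2 * t = (2 * t) / (1 - t0) ^ 2 := by ring
      linarith
    have e4 : α / (1 - t) ^ 2 * ((Real.exp (-c * R) - 1) / -c) ≤
        α / (1 - t) ^ 2 * (1 / c) := mul_le_mul_of_nonneg_left e1 (by positivity)
    have e5 : α / (1 - t) ^ 2 * (1 / c) = α / c * (1 / (1 - t) ^ 2) := by ring
    have e6 : α / c * (1 / (1 - t) ^ 2) ≤ α / c * (1 + 2 / (1 - t0) ^ 2 * t) :=
      mul_le_mul_of_nonneg_left e3 (by positivity)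
    have e7 : α / c * (2 / (1 - t0) ^ 2 * t) ≤ C2 / Real.log N := by
      have h8 : 0 ≤ α / c * (2 / (1 - t0) ^ 2) := by positivity
      have h9 := mul_le_mul_of_nonneg_left e2 h8
      refine le_trans (le_of_eq (by ring)) (h9.trans (le_of_eq ?_))
      rw [hC2]
      ring
    have e8 : C2 / Real.log N ≤ (C1 + C2) / Real.log N := by
      gcongr
      linarith
    have e9 : α / c * (1 + 2 / (1 - t0) ^ 2 * t) =
      α / c + α / c * (2 / (1 - t0) ^ 2 * t) := by ring
    linarith

end

end HG
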