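import Pool.Agent.R985.HG.Defs

open MeasureTheory Set Filter
open scoped ENNReal Topology BigOperators Real

namespace HG

theorem MOM_meas (ζ α : ℝ) (N : ℕ) : Measurable (rho ζ α N) := by
  unfold rho
  fun_prop

theorem MOM_Rpos {ζ : ℝ} (hζ : 0 < ζ) {N : ℕ} (hN : 2 ≤ N) : 0 < Rad ζ N := by
  unfold Rad
  have : 0 < Real.log N := Real.log_pos (by exact_mod_cast hN)
  positivity

theorem MOM_mem (ζ α : ℝ) (N : ℕ) : ∀ᵐ r ∂(radial ζ α N), r ∈ Icc 0 (Rad ζ N) := by
  unfold radial
  exact (withDensity_absolutelyContinuous _ _).ae_le (ae_restrict_mem measurableSet_Icc)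

theorem MOM_base {c R : ℝ} (hc : 0 < c) (hR : 0 ≤ R) :
    ∫ r in Icc 0 R, Real.exp (-(c * (R - r))) ≤ 1 / c := by
  rw [integral_Icc_eq_integral_Ioc, ← intervalIntegral.integral_of_le hR]
  have hd : ∀ r ∈ uIcc 0 R, HasDerivAt (fun r => Real.exp (-(c * (R - r))) / c)
      (Real.exp (-(c * (R - r)))) r := by
    intro r _
    have h0 : (fun r : ℝ => -(c * (R - r))) = fun r => c * r - c * R := by
      funext r; ring
    have h1 : HasDerivAt (fun r => -(c * (R - r))) c r := by
      rw [h0]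
      simpa using ((hasDerivAt_id r).const_mul c).sub_const (c * R)
    have h2 := h1.exp.div_const c
    have h3 : Real.exp (-(c * (R - r))) * c / c = Real.exp (-(c * (R - r))) :=
      mul_div_cancel_right₀ _ hc.ne'
    rw [h3] at h2
    exact h2
  rw [intervalIntegral.integral_eq_sub_of_hasDerivAt hd
    (Continuous.intervalIntegrable (by fun_prop) _ _)]
  have : 0 < Real.exp (-(c * (R - 0))) / c := by positivity
  simp only [sub_self, mul_zero, neg_zero, Real.exp_zero]
  linarith

theorem MOM_gen (hP : S_PM) (hR : S_RHO) {ζ α : ℝ} (hA : Adm ζ α) : ∃ C : ℝ, 0 < C ∧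
    ∀ N : ℕ, 2 ≤ N → ∀ t : ℝ, t < α →
      Integrable (fun r => Real.exp (t * (Rad ζ N - r))) (radial ζ α N) ∧
      ∫ r, Real.exp (t * (Rad ζ N - r)) ∂(radial ζ α N) ≤ C / (α - t) := by
  obtain ⟨C, hC, hρ⟩ := hR ζ α hA
  refine ⟨C, hC, fun N hN t ht => ?_⟩
  have hRp := MOM_Rpos hA.z0 hN
  haveI := (hP ζ α hA N hN).1
  constructor
  · refine Integrable.of_bound (by fun_prop) (Real.exp (|t| * Rad ζ N)) ?_
    filter_upwards [MOM_mem ζ α N] with r hr
    rw [Real.norm_eq_abs, abs_of_pos (Real.exp_pos _)]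
    apply Real.exp_le_exp.mpr
    calc t * (Rad ζ N - r) ≤ |t| * (Rad ζ N - r) :=
          mul_le_mul_of_nonneg_right (le_abs_self t) (by linarith [hr.2])
      _ ≤ |t| * Rad ζ N := mul_le_mul_of_nonneg_left (by linarith [hr.1]) (abs_nonneg t)
  · unfold radial
    rw [integral_withDensity_eq_integral_toReal_smul
      ((MOM_meas ζ α N).ennreal_ofReal) (Filter.Eventually.of_forall fun _ => ENNReal.ofReal_lt_top)]
    have hb : ∫ r in Icc 0 (Rad ζ N), (ENNReal.ofReal (rho ζ α N r)).toReal •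
        Real.exp (t * (Rad ζ N - r)) ≤
        ∫ r in Icc 0 (Rad ζ N), C * Real.exp (-((α - t) * (Rad ζ N - r))) := by
      refine integral_mono_of_nonneg (Filter.Eventually.of_forall fun r => ?_) ?_ ?_
      · simp only [Pi.zero_apply, smul_eq_mul]
        positivity
      · exact (Continuous.integrableOn_Icc (by fun_prop))
      · filter_upwards [ae_restrict_mem measurableSet_Icc] with r hr
        simp only [smul_eq_mul]
        have h1 : (ENNReal.ofReal (rho ζ α N r)).toReal ≤
            C * Real.exp (-(α * (Rad ζ N - r))) := by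
          rw [ENNReal.toReal_ofReal']
          exact max_le (hρ N hN r hr).1 (by positivity)
        calc _ ≤ C * Real.exp (-(α * (Rad ζ N - r))) * Real.exp (t * (Rad ζ N - r)) :=
              mul_le_mul_of_nonneg_right h1 (Real.exp_pos _).le
          _ = C * Real.exp (-((α - t) * (Rad ζ N - r))) := by
              rw [mul_assoc, ← Real.exp_add]; congr 2; ring
    refine hb.trans ?_
    rw [integral_const_mul]
    have := MOM_base (c := α - t) (by linarith) hRp.le
    calc C * _ ≤ C * (1 / (α - t)) := mul_le_mul_of_nonneg_left this hC.le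
      _ = C / (α - t) := by ring

theorem t_MOM (hP : S_PM) (hR : S_RHO) : S_MOM := by
  intro ζ α hA s _ hs
  obtain ⟨C, hC, h⟩ := MOM_gen hP hR hA
  exact ⟨C / (α - s), div_pos hC (by linarith), fun N hN => h N hN s hs⟩

theorem MOM_pt {ζ N B r : ℝ} (hζ : 0 < ζ) (hB : 1 ≤ B) (hr : 0 ≤ N - r) :
    Real.exp (-(min (Real.exp (ζ * (N - r) / 2)) 2 * B)) ≤
      Real.exp (-B) * (Real.exp (-(B * ζ / 2) * (N - r)) + Real.exp (-B)) := by
  have hw : 1 + ζ * (N - r) / 2 ≤ Real.exp (ζ * (N - r) / 2) := by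
    have := Real.add_one_le_exp (ζ * (N - r) / 2); linarith
  rcases le_total (Real.exp (ζ * (N - r) / 2)) 2 with h | h
  · rw [min_eq_left h]
    have h1 : Real.exp (-(Real.exp (ζ * (N - r) / 2) * B)) ≤
        Real.exp (-B) * Real.exp (-(B * ζ / 2) * (N - r)) := by
      rw [← Real.exp_add]
      apply Real.exp_le_exp.mpr
      nlinarith
    nlinarith [Real.exp_pos (-B), h1, mul_pos (Real.exp_pos (-B)) (Real.exp_pos (-B))]
  · rw [min_eq_right h]
    have h1 : Real.exp (-(2 * B)) = Real.exp (-B) * Real.exp (-B) := by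
      rw [← Real.exp_add]; congr 1; ring
    rw [h1]
    apply mul_le_mul_of_nonneg_left _ (Real.exp_pos _).le
    linarith [Real.exp_pos (-(B * ζ / 2) * (N - r))]

theorem t_LAP (hP : S_PM) (hR : S_RHO) : S_LAP := by
  intro ζ α hA
  obtain ⟨C, hC, h⟩ := MOM_gen hP hR hA
  have hζ := hA.z0
  refine ⟨2 * C / ζ + 1, by positivity, fun N hN B hB => ?_⟩
  haveI := (hP ζ α hA N hN).1
  haveI := (hP ζ α hA N hN).2.1
  have hB0 : 0 < B := by linarith
  unfold pt
  rw [integral_fun_fst (μ := radial ζ α N) (ν := angular)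
    (fun r => Real.exp (-(min (wt ζ N r) 2 * B)))]
  rw [probReal_univ, one_smul]
  have ht : -(B * ζ / 2) < α := by
    have : 0 < B * ζ / 2 := by positivity
    linarith [hA.a0]
  obtain ⟨hi, hle⟩ := h N hN (-(B * ζ / 2)) ht
  have hmono : ∫ r, Real.exp (-(min (wt ζ N r) 2 * B)) ∂(radial ζ α N) ≤
      ∫ r, Real.exp (-B) * (Real.exp (-(B * ζ / 2) * (Rad ζ N - r)) + Real.exp (-B))
        ∂(radial ζ α N) := by
    refine integral_mono_of_nonneg (Filter.Eventually.of_forall fun r => (Real.exp_pos _).le) ?_ ?_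
    · exact (hi.add (integrable_const _)).const_mul _
    · filter_upwards [MOM_mem ζ α N] with r hr
      exact MOM_pt hζ hB (by linarith [hr.2])
  refine hmono.trans ?_
  rw [integral_const_mul, integral_add hi (integrable_const _), integral_const,
    probReal_univ, one_smul]
  have h2 : C / (α - -(B * ζ / 2)) ≤ 2 * C / ζ / B := by
    rw [div_div, div_le_div_iff₀ (by linarith) (by positivity)]
    have : 0 < α := hA.a0
    nlinarith [mul_pos hC this]
  have h3 : Real.exp (-B) ≤ 1 / B := by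
    rw [Real.exp_neg, ← one_div]
    apply one_div_le_one_div_of_le hB0
    linarith [Real.add_one_le_exp B]
  calc _ ≤ Real.exp (-B) * (2 * C / ζ / B + 1 / B) :=
        mul_le_mul_of_nonneg_left (add_le_add (hle.trans h2) h3) (Real.exp_pos _).le
    _ = (2 * C / ζ + 1) * Real.exp (-B) / B := by ring

end HG
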