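import Pool.Agent.R985.HG.Defs

open MeasureTheory Set Filter
open scoped ENNReal Topology BigOperators Real

namespace HG

theorem NEG_prob_nonneg (ζ β : ℝ) (N : ℕ) (u v : ℝ × ℝ) : 0 ≤ prob ζ β N u v := by
  unfold prob
  positivity

theorem NEG_prob_le_one (ζ β : ℝ) (N : ℕ) (u v : ℝ × ℝ) : prob ζ β N u v ≤ 1 := by
  unfold prob
  rw [div_le_one (by positivity)]
  have := Real.exp_pos (β * (ζ / 2) * (hdist ζ u v - Rad ζ N))
  linarith

theorem NEG_e2f_nonneg (ζ α δ : ℝ) (N : ℕ) : 0 ≤ e2f ζ α δ N := by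
  unfold e2f
  refine integral_nonneg fun u => integral_nonneg fun v => ?_
  dsimp only
  split_ifs with h
  · refine pow_nonneg (integral_nonneg fun y => ?_) _
    dsimp only
    exact mul_nonneg (sub_nonneg.2 (NEG_prob_le_one _ _ _ _ _))
      (sub_nonneg.2 (NEG_prob_le_one _ _ _ _ _))
  · exact le_rfl

theorem NEG_thr_prob (N : ℕ) : IsProbabilityMeasure (thr N) := by
  unfold thr
  have : IsProbabilityMeasure ((volume : Measure ℝ).restrict (Icc (0:ℝ) 1)) := by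
    constructor
    simp
  infer_instance

theorem NEG_model_prob (hP : S_PM) (ζ α : ℝ) (ha : Adm ζ α) (N : ℕ) (hN : 2 ≤ N) :
    IsProbabilityMeasure (model ζ α N) := by
  unfold model
  have h1 := (hP ζ α ha N hN).2.2
  have h2 := NEG_thr_prob N
  infer_instance

theorem NEG_meas (hG : S_GM) (ζ : ℝ) (N : ℕ) (δ : ℝ) (i : Fin N) :
    MeasurableSet (IsoB ζ N δ i) := by
  have h := hG N 0 1 ζ {G | ∀ j, ¬ G.Adj i j}
  have hset : IsoB ζ N δ i = {ω | Rad ζ N - δ ≤ (ω.1 i).1} ∩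
      {ω : (Fin N → ℝ × ℝ) × (Sym2 (Fin N) → ℝ) |
        gr (fun e => (eprob ζ 1 N ω.1 e - 0) / 1) ω.2 ∈ {G | ∀ j, ¬ G.Adj i j}} := by
    ext ω
    simp only [IsoB, rgraph, sub_zero, div_one, mem_inter_iff, mem_setOf_eq]
  rw [hset]
  refine MeasurableSet.inter ?_ h
  exact measurableSet_le measurable_const
    (((measurable_pi_apply i).comp measurable_fst).fst)

theorem NEG_conn (ζ : ℝ) (N : ℕ) (hN : 2 ≤ N) (δ : ℝ)
    (ω : (Fin N → ℝ × ℝ) × (Sym2 (Fin N) → ℝ)) (h : (rgraph ζ 1 N ω).Connected) (i : Fin N) :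
    ω ∉ IsoB ζ N δ i := by
  rintro ⟨-, hi⟩
  have : Nontrivial (Fin N) := Fin.nontrivial_iff_two_le.2 hN
  obtain ⟨j, hj⟩ := exists_ne i
  obtain ⟨w⟩ := h.preconnected i j
  cases w with
  | nil => exact hj rfl
  | cons hadj p => exact hi _ hadj

theorem t_NEG (hP : S_PM) (hG : S_GM) (hS : S_SM) (h1 : S_E1) (h2 : S_E2) (hl : S_E1LB)
    (hu : S_E2UB) : S_NEG := by
  intro ζ α ha hlt
  obtain ⟨δ, η, hδ, hδ1, hη, hη1, hlb, hdeg⟩ := hl ζ α ha hlt
  have hub := hu ζ α ha δ η hδ hδ1 hη hη1 hlb hdeg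
  rw [ENNReal.tendsto_nhds_zero]
  intro ε hε
  obtain ⟨r, hr0, hrε⟩ := ENNReal.lt_iff_exists_nnreal_btwn.1 hε
  have hr0' : (0:ℝ) < (r:ℝ) := by exact_mod_cast hr0
  have hpow : Tendsto (fun N : ℕ => (N:ℝ) ^ (-(2 * η))) atTop (𝓝 0) :=
    (tendsto_rpow_neg_atTop (by positivity)).comp tendsto_natCast_atTop_atTop
  have hpow' : ∀ᶠ N : ℕ in atTop, (N:ℝ) ^ (-(2 * η)) < r / 2 :=
    hpow.eventually_lt_const (by positivity)
  filter_upwards [hlb, hub (r / 2) (by positivity), hpow', eventually_ge_atTop 2]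
    with N hN1 hN2 hN3 hN4
  have hNpos : (0:ℝ) < N := by
    have : 0 < N := by omega
    exact_mod_cast this
  have hprob : IsProbabilityMeasure (model ζ α N) := NEG_model_prob hP ζ α ha N hN4
  have he1pos : 0 < e1f ζ α δ N := lt_of_lt_of_le (Real.rpow_pos_of_pos hNpos _) hN1
  have hsm := hS _ _ (model ζ α N) hprob N (by omega) (fun i => IsoB ζ N δ i)
    (fun i => NEG_meas hG ζ N δ i) (e1f ζ α δ N) (e2f ζ α δ N) he1pos
    (NEG_e2f_nonneg ζ α δ N) (fun i => h1 ζ α ha δ N hN4 i)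
    (fun i j hij => h2 ζ α ha δ N hN4 i j hij)
  have hsub : {ω | (rgraph ζ 1 N ω).Connected} ⊆
      {ω : (Fin N → ℝ × ℝ) × (Sym2 (Fin N) → ℝ) | ∀ i, ω ∉ IsoB ζ N δ i} :=
    fun ω hω i => NEG_conn ζ N hN4 δ ω hω i
  have hb1 : 1 / (N * e1f ζ α δ N) ≤ (N:ℝ) ^ (-(2 * η)) := by
    rw [Real.rpow_neg hNpos.le, ← one_div]
    apply one_div_le_one_div_of_le (Real.rpow_pos_of_pos hNpos _)
    calc (N:ℝ) ^ (2 * η) = N * (N:ℝ) ^ (2 * η - 1) := by
          rw [Real.rpow_sub hNpos, Real.rpow_one]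
          field_simp
      _ ≤ N * e1f ζ α δ N := by
          exact mul_le_mul_of_nonneg_left hN1 hNpos.le
  have hb2 : e2f ζ α δ N / e1f ζ α δ N ^ 2 - 1 ≤ r / 2 := by
    have : e2f ζ α δ N / e1f ζ α δ N ^ 2 ≤ 1 + r / 2 := by
      rw [div_le_iff₀ (by positivity)]
      exact hN2
    linarith
  have hfin : (model ζ α N {ω | ∀ i, ω ∉ IsoB ζ N δ i}).toReal ≤ r := by
    have := hsm
    linarith
  calc model ζ α N {ω | (rgraph ζ 1 N ω).Connected}
      ≤ model ζ α N {ω | ∀ i, ω ∉ IsoB ζ N δ i} := measure_mono hsub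
    _ = ENNReal.ofReal (model ζ α N {ω | ∀ i, ω ∉ IsoB ζ N δ i}).toReal :=
        (ENNReal.ofReal_toReal (measure_ne_top _ _)).symm
    _ ≤ ENNReal.ofReal r := ENNReal.ofReal_le_ofReal hfin
    _ = r := ENNReal.ofReal_coe_nnreal
    _ ≤ ε := hrε.le

end HG
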