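import Pool.Agent.R985.HG.Defs

open MeasureTheory Set Filter
open scoped ENNReal Topology BigOperators Real

namespace HG

theorem PLB_cr (ζ : ℝ) (u v : ℝ × ℝ) : cr ζ u v = Real.cosh (ζ * u.1 - ζ * v.1) +
    2 * (Real.sinh (ζ * u.1) * Real.sinh (ζ * v.1)) * Real.sin (rel u.2 v.2 / 2) ^ 2 := by
  have h1 : Real.cos (rel u.2 v.2) = 1 - 2 * Real.sin (rel u.2 v.2 / 2) ^ 2 := by
    have h2 : rel u.2 v.2 = 2 * (rel u.2 v.2 / 2) := by ring
    conv_lhs => rw [h2]
    rw [Real.cos_two_mul]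
    have := Real.sin_sq_add_cos_sq (rel u.2 v.2 / 2)
    linarith
  unfold cr
  rw [h1, Real.cosh_sub]
  ring

theorem PLB_rel_le (s t : ℝ) : rel s t ≤ π := by
  unfold rel
  have := abs_nonneg (π - |s - t|)
  linarith

theorem PLB_rel_nonneg {s t : ℝ} (hs : s ∈ Ioc (0:ℝ) (2 * π)) (ht : t ∈ Ioc (0:ℝ) (2 * π)) :
    0 ≤ rel s t := by
  unfold rel
  obtain ⟨h1, h2⟩ := hs
  obtain ⟨h3, h4⟩ := ht
  have h5 : |s - t| ≤ 2 * π := abs_le.2 ⟨by linarith, by linarith⟩
  have h6 := abs_nonneg (s - t)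
  have h7 : |π - (|s - t|)| ≤ π := abs_le.2 ⟨by linarith, by linarith⟩
  linarith

/-- `prob` in terms of `E = c + √(c²-1)` -/
theorem PLB_prob {ζ : ℝ} (hζ : 0 < ζ) {N : ℕ} (hN : 2 ≤ N) (u v : ℝ × ℝ)
    (hE : 0 < cr ζ u v + √(cr ζ u v ^ 2 - 1)) :
    prob ζ 1 N u v = 1 / (√(cr ζ u v + √(cr ζ u v ^ 2 - 1)) / N + 1) := by
  have hN0 : (0:ℝ) < N := by exact_mod_cast (by omega : 0 < N)
  unfold prob hdist Rad
  have h1 : 1 * (ζ / 2) * (Real.log (cr ζ u v + √(cr ζ u v ^ 2 - 1)) / ζ - 2 * Real.log N / ζ)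
      = Real.log (√(cr ζ u v + √(cr ζ u v ^ 2 - 1))) - Real.log N := by
    rw [Real.log_sqrt hE.le]
    field_simp
  rw [h1, Real.exp_sub, Real.exp_log hN0, Real.exp_log (Real.sqrt_pos.2 hE)]

theorem PLB_wt {ζ : ℝ} (hζ : 0 < ζ) {N : ℕ} (hN : 2 ≤ N) (a b : ℝ) :
    wt ζ N a * wt ζ N b = (N:ℝ) ^ 2 * Real.exp (-((ζ * a + ζ * b) / 2)) := by
  have hN0 : (0:ℝ) < N := by exact_mod_cast (by omega : 0 < N)
  unfold wt Rad
  rw [← Real.exp_add]
  have h1 : ζ * (2 * Real.log N / ζ - a) / 2 + ζ * (2 * Real.log N / ζ - b) / 2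
      = Real.log N + Real.log N + -((ζ * a + ζ * b) / 2) := by
    field_simp
    ring
  rw [h1, Real.exp_add, Real.exp_add, Real.exp_log hN0]
  ring

theorem PLB_sinh (x y : ℝ) : 4 * (Real.sinh x * Real.sinh y) =
    Real.exp ((x + y) / 2) ^ 2 * ((1 - Real.exp (-(2 * x))) * (1 - Real.exp (-(2 * y)))) := by
  rw [Real.sinh_eq, Real.sinh_eq]
  have h1 : Real.exp ((x + y) / 2) ^ 2 = Real.exp x * Real.exp y := by
    rw [← Real.exp_nat_mul, ← Real.exp_add]
    congr 1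
    push_cast
    ring
  have h2 : Real.exp (-(2 * x)) = Real.exp (-x) * Real.exp (-x) := by
    rw [← Real.exp_add]; congr 1; ring
  have h3 : Real.exp (-(2 * y)) = Real.exp (-y) * Real.exp (-y) := by
    rw [← Real.exp_add]; congr 1; ring
  have h4 : Real.exp x * Real.exp (-x) = 1 := by rw [← Real.exp_add]; simp
  have h5 : Real.exp y * Real.exp (-y) = 1 := by rw [← Real.exp_add]; simp
  rw [h1, h2, h3]
  have e1 : Real.exp x * (1 - Real.exp (-x) * Real.exp (-x)) = Real.exp x - Real.exp (-x) := by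
    linear_combination (-Real.exp (-x)) * h4
  have e2 : Real.exp y * (1 - Real.exp (-y) * Real.exp (-y)) = Real.exp y - Real.exp (-y) := by
    linear_combination (-Real.exp (-y)) * h5
  calc 4 * ((Real.exp x - Real.exp (-x)) / 2 * ((Real.exp y - Real.exp (-y)) / 2))
      = (Real.exp x - Real.exp (-x)) * (Real.exp y - Real.exp (-y)) := by ring
    _ = (Real.exp x * (1 - Real.exp (-x) * Real.exp (-x))) *
        (Real.exp y * (1 - Real.exp (-y) * Real.exp (-y))) := by rw [e1, e2]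
    _ = _ := by ring

theorem t_PLB : S_PLB := by
  intro ζ hζ N hN u hu v hv
  obtain ⟨hu1, hu2⟩ := hu
  obtain ⟨hv1, hv2⟩ := hv
  have hN0 : (0:ℝ) < N := by exact_mod_cast (by omega : 0 < N)
  have hN2 : (2:ℝ) ≤ N := by exact_mod_cast hN
  have hrel0 := PLB_rel_nonneg hu2 hv2
  have hrelπ := PLB_rel_le u.2 v.2
  set s := Real.sin (rel u.2 v.2 / 2) with hs
  have hs0 : 0 ≤ s := Real.sin_nonneg_of_nonneg_of_le_pi (by linarith) (by linarith)
  have hs1 : s ≤ rel u.2 v.2 / 2 := Real.sin_le (by linarith)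
  have hcr := PLB_cr ζ u v
  rw [← hs] at hcr
  set x := ζ * u.1 with hx
  set y := ζ * v.1 with hy
  have hx0 : 0 ≤ x := mul_nonneg hζ.le hu1.1
  have hy0 : 0 ≤ y := mul_nonneg hζ.le hv1.1
  have hR : ζ * Rad ζ N = 2 * Real.log N := by
    unfold Rad; field_simp
  have hxR : x ≤ 2 * Real.log N := by
    rw [← hR]; exact mul_le_mul_of_nonneg_left hu1.2 hζ.le
  have hyR : y ≤ 2 * Real.log N := by
    rw [← hR]; exact mul_le_mul_of_nonneg_left hv1.2 hζ.le
  have hsx : 0 ≤ Real.sinh x := Real.sinh_nonneg_iff.2 hx0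
  have hsy : 0 ≤ Real.sinh y := Real.sinh_nonneg_iff.2 hy0
  set c := cr ζ u v with hc
  have hc1 : 1 ≤ c := by
    rw [hcr]
    have h1 := Real.one_le_cosh (x - y)
    have h2 : 0 ≤ 2 * (Real.sinh x * Real.sinh y) * s ^ 2 := by positivity
    linarith
  have hsq : √(c ^ 2 - 1) ≤ c := by
    rw [show c = √(c ^ 2) from (Real.sqrt_sq (by linarith)).symm]
    apply Real.sqrt_le_sqrt
    rw [Real.sqrt_sq (by linarith)]
    linarith
  have hE0 : 0 < c + √(c ^ 2 - 1) := by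
    have := Real.sqrt_nonneg (c ^ 2 - 1)
    linarith
  rw [PLB_prob hζ hN u v hE0]
  -- bound the square root
  have hg := PLB_wt hζ hN u.1 v.1
  rw [← hx, ← hy] at hg
  set g := Real.exp ((x + y) / 2) with hgdef
  have hg0 : 0 < g := Real.exp_pos _
  have hgi : Real.exp (-((x + y) / 2)) = g⁻¹ := Real.exp_neg _
  have h4s : 4 * (Real.sinh x * Real.sinh y) ≤ g ^ 2 := by
    rw [PLB_sinh]
    have e1 : Real.exp (-(2 * x)) ≤ 1 := Real.exp_le_one_iff.2 (by linarith)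
    have e2 : Real.exp (-(2 * y)) ≤ 1 := Real.exp_le_one_iff.2 (by linarith)
    have e3 := Real.exp_pos (-(2 * x))
    have e4 := Real.exp_pos (-(2 * y))
    have e5 : (1 - Real.exp (-(2 * x))) * (1 - Real.exp (-(2 * y))) ≤ 1 := by nlinarith
    calc g ^ 2 * ((1 - Real.exp (-(2 * x))) * (1 - Real.exp (-(2 * y)))) ≤ g ^ 2 * 1 :=
          mul_le_mul_of_nonneg_left e5 (by positivity)
      _ = g ^ 2 := mul_one _
  have hcosh : 2 * Real.cosh (x - y) ≤ (N + 1) ^ 2 := by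
    have hab : |x - y| ≤ 2 * Real.log N := abs_le.2 ⟨by linarith, by linarith⟩
    rw [← Real.cosh_abs, Real.cosh_eq]
    have e1 : Real.exp |x - y| ≤ (N:ℝ) ^ 2 := by
      calc Real.exp |x - y| ≤ Real.exp (2 * Real.log N) := Real.exp_le_exp.2 hab
        _ = (N:ℝ) ^ 2 := by
          rw [show 2 * Real.log N = Real.log N + Real.log N by ring, Real.exp_add,
            Real.exp_log hN0]
          ring
    have e2 : Real.exp (-|x - y|) ≤ 1 := Real.exp_le_one_iff.2 (by have := abs_nonneg (x - y); linarith)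
    nlinarith
  have hX : √(c + √(c ^ 2 - 1)) ≤ (N + 1) + g * s := by
    apply Real.sqrt_le_iff.2
    refine ⟨by positivity, ?_⟩
    have e1 : c + √(c ^ 2 - 1) ≤ 2 * c := by linarith
    have e2 : 2 * c ≤ (N + 1) ^ 2 + g ^ 2 * s ^ 2 := by
      rw [hcr]
      have e3 : 4 * (Real.sinh x * Real.sinh y) * s ^ 2 ≤ g ^ 2 * s ^ 2 :=
        mul_le_mul_of_nonneg_right h4s (sq_nonneg s)
      linarith
    have e4 : 0 ≤ 2 * (((N:ℝ) + 1) * (g * s)) := by positivity
    nlinarith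
  rw [hg, hgi]
  apply one_div_le_one_div_of_le (by positivity)
  have hX2 : √(c + √(c ^ 2 - 1)) / N ≤ ((N + 1) + g * s) / N :=
    div_le_div_of_nonneg_right hX hN0.le
  have hX3 : (((N:ℝ) + 1) + g * s) / N ≤ N * rel u.2 v.2 / (2 * ((N:ℝ) ^ 2 * g⁻¹)) + 2 := by
    have e1 : N * rel u.2 v.2 / (2 * ((N:ℝ) ^ 2 * g⁻¹)) = g * (rel u.2 v.2 / 2) / N := by
      field_simp
    rw [e1]
    have e2 : ((N:ℝ) + 1 + g * s) / N ≤ (2 * N + g * (rel u.2 v.2 / 2)) / N := by
      apply div_le_div_of_nonneg_right _ hN0.le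
      have := mul_le_mul_of_nonneg_left hs1 hg0.le
      linarith
    have e3 : (2 * N + g * (rel u.2 v.2 / 2)) / (N:ℝ) = g * (rel u.2 v.2 / 2) / N + 2 := by
      field_simp
      ring
    linarith
  linarith

theorem t_PEL (h : S_PLB) : S_PEL := by
  intro ζ hζ N hN
  have hN0 : (0:ℝ) < N := by exact_mod_cast (by omega : 0 < N)
  have hN2 : (2:ℝ) ≤ N := by exact_mod_cast hN
  refine ⟨fun u v => ?_, fun u hu v hv => ?_⟩
  · unfold prob
    have := Real.exp_pos (1 * (ζ / 2) * (hdist ζ u v - Rad ζ N))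
    refine ⟨by positivity, ?_⟩
    rw [div_le_one (by positivity)]
    linarith
  · refine le_trans ?_ (h ζ hζ N hN u hu v hv)
    obtain ⟨hu1, hu2⟩ := hu
    obtain ⟨hv1, hv2⟩ := hv
    have hrel0 := PLB_rel_nonneg hu2 hv2
    have hrelπ := PLB_rel_le u.2 v.2
    have hwu : 1 ≤ wt ζ N u.1 := by
      unfold wt
      apply Real.one_le_exp
      have : 0 ≤ ζ * (Rad ζ N - u.1) := mul_nonneg hζ.le (by linarith [hu1.2])
      linarith
    have hwv : 1 ≤ wt ζ N v.1 := by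
      unfold wt
      apply Real.one_le_exp
      have : 0 ≤ ζ * (Rad ζ N - v.1) := mul_nonneg hζ.le (by linarith [hv1.2])
      linarith
    have hw : 1 ≤ wt ζ N u.1 * wt ζ N v.1 := by nlinarith
    unfold qq
    apply one_div_le_one_div_of_le
    · have : 0 ≤ N * rel u.2 v.2 / (2 * (wt ζ N u.1 * wt ζ N v.1)) := by positivity
      linarith
    · have e1 : N * rel u.2 v.2 / (2 * (wt ζ N u.1 * wt ζ N v.1)) ≤ N * rel u.2 v.2 / 2 := by
        apply div_le_div_of_nonneg_left (by positivity) (by norm_num) (by linarith)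
      have e2 : N * rel u.2 v.2 ≤ N * π := mul_le_mul_of_nonneg_left hrelπ hN0.le
      have e3 := Real.pi_lt_d2
      nlinarith

end HG
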