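import Pool.Agent.R985.HG.Defs

/-!
Project HG, part PM: the laws are probability measures on the disc (helper209).
-/

open MeasureTheory Set Filter
open scoped ENNReal Topology BigOperators Real

namespace HG

theorem PM_Rad_pos {ζ : ℝ} (hζ : 0 < ζ) {N : ℕ} (hN : 2 ≤ N) : 0 < Rad ζ N := by
  unfold Rad
  have h : 0 < Real.log N := Real.log_pos (by exact_mod_cast hN)
  positivity

theorem PM_den_pos {ζ α : ℝ} (hζ : 0 < ζ) (hα : 0 < α) {N : ℕ} (hN : 2 ≤ N) :
    0 < Real.cosh (α * Rad ζ N) - 1 :=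
  sub_pos.2 (Real.one_lt_cosh.2 (mul_pos hα (PM_Rad_pos hζ hN)).ne')

theorem PM_rho_cont (ζ α : ℝ) (N : ℕ) : Continuous (rho ζ α N) := by
  unfold rho
  exact (continuous_const.mul (Real.continuous_sinh.comp (continuous_const.mul
    continuous_id))).div_const _

theorem PM_rho_nonneg {ζ α : ℝ} (hζ : 0 < ζ) (hα : 0 < α) {N : ℕ} (hN : 2 ≤ N) {r : ℝ}
    (hr : 0 ≤ r) : 0 ≤ rho ζ α N r := by
  unfold rho
  have h1 := PM_den_pos hζ hα hN
  have h2 : 0 ≤ Real.sinh (α * r) := Real.sinh_nonneg_iff.2 (mul_nonneg hα.le hr)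
  positivity

theorem PM_rho_int {ζ α : ℝ} (hζ : 0 < ζ) (hα : 0 < α) {N : ℕ} (hN : 2 ≤ N) :
    ∫ r in Icc 0 (Rad ζ N), rho ζ α N r = 1 := by
  have h1 := PM_den_pos hζ hα hN
  rw [integral_Icc_eq_integral_Ioc, ← intervalIntegral.integral_of_le (PM_Rad_pos hζ hN).le]
  have h2 : ∀ r ∈ uIcc 0 (Rad ζ N), HasDerivAt
      (fun r => Real.cosh (α * r) / (Real.cosh (α * Rad ζ N) - 1)) (rho ζ α N r) r := by
    intro r _
    have h3 : HasDerivAt (fun r : ℝ => α * r) α r := by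
      simpa using (hasDerivAt_id r).const_mul α
    have h4 := (h3.cosh).div_const (Real.cosh (α * Rad ζ N) - 1)
    unfold rho
    rw [mul_comm α (Real.sinh (α * r))]
    exact h4
  rw [intervalIntegral.integral_eq_sub_of_hasDerivAt h2
    ((PM_rho_cont ζ α N).intervalIntegrable _ _), ← sub_div, mul_zero, Real.cosh_zero,
    div_self h1.ne']

theorem PM_radial {ζ α : ℝ} (hζ : 0 < ζ) (hα : 0 < α) {N : ℕ} (hN : 2 ≤ N) :
    IsProbabilityMeasure (radial ζ α N) := by
  constructor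
  unfold radial
  rw [withDensity_apply _ MeasurableSet.univ, Measure.restrict_univ,
    ← ofReal_integral_eq_lintegral_ofReal, PM_rho_int hζ hα hN, ENNReal.ofReal_one]
  · exact (PM_rho_cont ζ α N).integrableOn_Icc
  · filter_upwards [ae_restrict_mem measurableSet_Icc] with r hr
    exact PM_rho_nonneg hζ hα hN hr.1

theorem PM_angular : IsProbabilityMeasure angular := by
  constructor
  unfold angular
  have h : ENNReal.ofReal (2 * π) ≠ 0 := (ENNReal.ofReal_pos.2 Real.two_pi_pos).ne'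
  rw [Measure.smul_apply, Measure.restrict_apply_univ, Real.volume_Ioc, sub_zero, smul_eq_mul,
    ENNReal.inv_mul_cancel h ENNReal.ofReal_ne_top]

theorem t_PM : S_PM := by
  intro ζ α h N hN
  have h1 := PM_radial h.z0 h.a0 hN
  have h2 := PM_angular
  refine ⟨h1, h2, ?_⟩
  unfold pt
  infer_instance

theorem t_AE : S_AE := by
  intro ζ α h N hN
  have h1 := PM_radial h.z0 h.a0 hN
  have h2 := PM_angular
  have h3 : ∀ᵐ r ∂(radial ζ α N), r ∈ Icc 0 (Rad ζ N) :=
    (withDensity_absolutelyContinuous _ _).ae_le (ae_restrict_mem measurableSet_Icc)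
  have h4 : ∀ᵐ s ∂angular, s ∈ Ioc 0 (2 * π) :=
    (Measure.smul_absolutelyContinuous).ae_le (ae_restrict_mem measurableSet_Ioc)
  have h5 : ∀ᵐ u ∂(pt ζ α N), u.1 ∈ Icc 0 (Rad ζ N) :=
    Measure.quasiMeasurePreserving_fst.ae h3
  have h6 : ∀ᵐ u ∂(pt ζ α N), u.2 ∈ Ioc 0 (2 * π) :=
    Measure.quasiMeasurePreserving_snd.ae h4
  filter_upwards [h5, h6] with u hu1 hu2
  exact ⟨hu1, hu2⟩

end HG
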