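import Pool.Agent.R985.HG.Defs

/-!
# Polar coordinates around a fixed direction (MP_bbc1a5_pr)
-/

open MeasureTheory Set Filter
open scoped ENNReal Topology BigOperators Real

namespace HG

theorem POL_rel_measurable (t : ℝ) : Measurable (rel t) := by
  have h : Continuous (rel t) := by
    unfold rel
    fun_prop
  exact h.measurable

theorem t_POL (hP : S_PM) (hR : S_ROT) : S_POL := by
  intro ζ α hA N hN t ht
  obtain ⟨h1, h2, _⟩ := hP ζ α hA N hN
  have hm : Measurable (rel t) := POL_rel_measurable t
  have e : (fun v : ℝ × ℝ => (v.1, rel t v.2)) = Prod.map id (rel t) := rfl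
  have hR' : Measure.map (rel t) angular = (ENNReal.ofReal π)⁻¹ • volume.restrict (Icc 0 π) :=
    hR t ht
  have h3 : IsProbabilityMeasure (Measure.map (rel t) angular) :=
    Measure.isProbabilityMeasure_map hm.aemeasurable
  rw [e, pt, ← Measure.map_prod_map _ _ measurable_id hm, Measure.map_id, hR']

end HG
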