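import Pool.Agent.R985.HG.Defs

open MeasureTheory Set Filter
open scoped ENNReal Topology BigOperators Real

namespace HG

instance POS_unit : IsProbabilityMeasure ((volume : Measure ℝ).restrict (Icc (0:ℝ) 1)) :=
  ⟨by simp⟩

instance POS_thr (N : ℕ) : IsProbabilityMeasure (thr N) := by
  unfold thr; infer_instance

theorem POS_decay (δ : ℝ) (hδ : 0 < δ) :
    Tendsto (fun N : ℕ => (N:ℝ) ^ 2 * (1 - qq N) ^ (⌊δ * N⌋₊ ^ 2)) atTop (𝓝 0) := by
  set c : ℝ := δ ^ 2 / 16 with hc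
  have hc0 : 0 < c := by positivity
  have h1 : Tendsto (fun N : ℕ => c * (N:ℝ)) atTop atTop :=
    Tendsto.const_mul_atTop hc0 tendsto_natCast_atTop_atTop
  have h2 := (Real.tendsto_pow_mul_exp_neg_atTop_nhds_zero 2).comp h1
  have h3 : Tendsto (fun N : ℕ => (1 / c ^ 2) * ((c * (N:ℝ)) ^ 2 * Real.exp (-(c * (N:ℝ)))))
      atTop (𝓝 0) := by
    have := h2.const_mul (1 / c ^ 2)
    simpa [Function.comp_def] using this
  have hlow : ∀ᶠ N : ℕ in atTop, 0 ≤ (N:ℝ) ^ 2 * (1 - qq N) ^ (⌊δ * N⌋₊ ^ 2) := by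
    filter_upwards [eventually_ge_atTop 1] with N hN
    have hN' : (1:ℝ) ≤ N := by exact_mod_cast hN
    have : 0 ≤ 1 - qq N := by
      unfold qq
      rw [sub_nonneg, div_le_one (by positivity)]
      linarith
    positivity
  have hup : ∀ᶠ N : ℕ in atTop, (N:ℝ) ^ 2 * (1 - qq N) ^ (⌊δ * N⌋₊ ^ 2) ≤
      (1 / c ^ 2) * ((c * (N:ℝ)) ^ 2 * Real.exp (-(c * (N:ℝ)))) := by
    have hbig : ∀ᶠ N : ℕ in atTop, 2 / δ ≤ (N:ℝ) :=
      tendsto_natCast_atTop_atTop.eventually_ge_atTop _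
    filter_upwards [eventually_ge_atTop 1, hbig] with N hN hN2
    have hN' : (1:ℝ) ≤ N := by exact_mod_cast hN
    have hq0 : 0 ≤ 1 - qq N := by
      unfold qq
      rw [sub_nonneg, div_le_one (by positivity)]
      linarith
    have hm : δ * N / 2 ≤ (⌊δ * N⌋₊ : ℝ) := by
      have h5 := Nat.sub_one_lt_floor (δ * N)
      have h6 : 2 ≤ δ * N := by
        rw [div_le_iff₀ hδ] at hN2
        linarith
      linarith
    have hexp : 1 - qq N ≤ Real.exp (-(qq N)) := by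
      have := Real.add_one_le_exp (-(qq N))
      linarith
    have h7 : (1 - qq N) ^ (⌊δ * N⌋₊ ^ 2) ≤ Real.exp (-(c * N)) := by
      calc (1 - qq N) ^ (⌊δ * N⌋₊ ^ 2) ≤ (Real.exp (-(qq N))) ^ (⌊δ * N⌋₊ ^ 2) :=
            pow_le_pow_left₀ hq0 hexp _
        _ = Real.exp (((⌊δ * N⌋₊ ^ 2 : ℕ) : ℝ) * (-(qq N))) := by
            rw [Real.exp_nat_mul]
        _ ≤ Real.exp (-(c * N)) := by
            apply Real.exp_le_exp.mpr
            have h8 : (δ * N / 2) ^ 2 ≤ (⌊δ * N⌋₊ : ℝ) ^ 2 :=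
              pow_le_pow_left₀ (by positivity) hm 2
            have h9 : c * N = (δ * N / 2) ^ 2 * qq N := by
              unfold qq
              rw [hc]
              field_simp
              ring
            have hqn : 0 ≤ qq N := by unfold qq; positivity
            push_cast
            rw [h9]
            nlinarith [mul_le_mul_of_nonneg_right h8 hqn]
    calc (N:ℝ) ^ 2 * (1 - qq N) ^ (⌊δ * N⌋₊ ^ 2) ≤ (N:ℝ) ^ 2 * Real.exp (-(c * N)) := by
          apply mul_le_mul_of_nonneg_left h7 (by positivity)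
      _ = (1 / c ^ 2) * ((c * (N:ℝ)) ^ 2 * Real.exp (-(c * (N:ℝ)))) := by
          field_simp
  exact tendsto_of_tendsto_of_tendsto_of_le_of_le' tendsto_const_nhds h3 hlow hup

theorem t_POS (hP : S_PM) (hA : S_AE) (hG : S_GM) (hE : S_PEL) (hM : S_SMALL) (hR : S_SPR) :
    S_POS := by
  intro ζ α had hza
  obtain ⟨δ, hδ, hT⟩ := hM ζ α had hza
  -- measurability
  have hmeas : ∀ (N : ℕ) (T : Set (SimpleGraph (Fin N))),
      MeasurableSet {ω : (Fin N → ℝ × ℝ) × (Sym2 (Fin N) → ℝ) | rgraph ζ 1 N ω ∈ T} := by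
    intro N T
    have h := hG N 0 1 ζ T
    have he : ∀ ω : (Fin N → ℝ × ℝ) × (Sym2 (Fin N) → ℝ),
        gr (fun e => (eprob ζ 1 N ω.1 e - 0) / 1) ω.2 = rgraph ζ 1 N ω := by
      intro ω
      unfold rgraph
      congr 1
      funext e
      simp
    simp only [he] at h
    exact h
  have hmeas2 : ∀ (N : ℕ), MeasurableSet {ω : (Fin N → ℝ × ℝ) × (Sym2 (Fin N) → ℝ) |
      ∃ S : Finset (Fin N), S.Nonempty ∧ S.card ≤ ⌊δ * N⌋₊ ∧
      IsCut (gr (fun e => (eprob ζ 1 N ω.1 e - qq N) / (1 - qq N)) ω.2) S} := by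
    intro N
    exact hG N (qq N) (1 - qq N) ζ {G | ∃ S : Finset (Fin N), S.Nonempty ∧ S.card ≤ ⌊δ * N⌋₊ ∧
      IsCut G S}
  -- main bound
  have hbound : ∀ᶠ N : ℕ in atTop, model ζ α N {ω | ¬ (rgraph ζ 1 N ω).Connected} ≤
      model ζ α N {ω | ∃ S : Finset (Fin N), S.Nonempty ∧ S.card ≤ ⌊δ * N⌋₊ ∧
        IsCut (gr (fun e => (eprob ζ 1 N ω.1 e - qq N) / (1 - qq N)) ω.2) S}
      + ENNReal.ofReal ((N:ℝ) ^ 2 * (1 - qq N) ^ (⌊δ * N⌋₊ ^ 2)) := by
    filter_upwards [eventually_ge_atTop 2] with N hN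
    haveI := (hP ζ α had N hN).2.2
    have hN' : (2:ℝ) ≤ N := by exact_mod_cast hN
    have hq0 : 0 ≤ qq N := by unfold qq; positivity
    have hq1 : qq N < 1 := by
      unfold qq
      rw [div_lt_one (by positivity)]
      linarith
    have hae : ∀ᵐ x ∂(Measure.pi fun _ : Fin N => pt ζ α N), ∀ i, x i ∈ disc ζ N := by
      rw [ae_all_iff]
      intro i
      exact (Measure.tendsto_eval_ae_ae (μ := fun _ : Fin N => pt ζ α N) (i := i)).eventually
        (hA ζ α had N hN)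
    have hm0 : MeasurableSet {ω : (Fin N → ℝ × ℝ) × (Sym2 (Fin N) → ℝ) |
        ¬ (rgraph ζ 1 N ω).Connected} := hmeas N {G | ¬ G.Connected}
    unfold model
    rw [Measure.prod_apply hm0, Measure.prod_apply (hmeas2 N)]
    calc ∫⁻ x, thr N (Prod.mk x ⁻¹' {ω | ¬ (rgraph ζ 1 N ω).Connected})
          ∂(Measure.pi fun _ : Fin N => pt ζ α N)
        ≤ ∫⁻ x, (thr N (Prod.mk x ⁻¹' {ω | ∃ S : Finset (Fin N), S.Nonempty ∧
            S.card ≤ ⌊δ * N⌋₊ ∧
            IsCut (gr (fun e => (eprob ζ 1 N ω.1 e - qq N) / (1 - qq N)) ω.2) S})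
            + ENNReal.ofReal ((N:ℝ) ^ 2 * (1 - qq N) ^ (⌊δ * N⌋₊ ^ 2)))
          ∂(Measure.pi fun _ : Fin N => pt ζ α N) := by
          apply lintegral_mono_ae
          filter_upwards [hae] with x hx
          refine hR N (by omega) (eprob ζ 1 N x) (qq N) hq0 hq1 ?_ ⌊δ * N⌋₊
          intro e
          induction e with
          | _ i j =>
            refine ⟨(hE ζ had.z0 N hN).2 (x i) (hx i) (x j) (hx j),
              ((hE ζ had.z0 N hN).1 (x i) (x j)).2⟩
      _ = _ := by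
          rw [lintegral_add_right _ measurable_const, lintegral_const, measure_univ, mul_one]
  have hlim : Tendsto (fun N : ℕ => model ζ α N {ω | ¬ (rgraph ζ 1 N ω).Connected})
      atTop (𝓝 0) := by
    have hd := ENNReal.tendsto_ofReal (POS_decay δ hδ)
    rw [ENNReal.ofReal_zero] at hd
    have hs := hT.add hd
    rw [add_zero] at hs
    exact tendsto_of_tendsto_of_tendsto_of_le_of_le' tendsto_const_nhds hs
      (Eventually.of_forall fun _ => zero_le) hbound
  have hsub : Tendsto (fun N : ℕ => 1 - model ζ α N {ω | ¬ (rgraph ζ 1 N ω).Connected})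
      atTop (𝓝 1) := by
    have := ENNReal.Tendsto.sub (tendsto_const_nhds (x := (1:ℝ≥0∞)) (f := (atTop : Filter ℕ)))
      hlim (Or.inl ENNReal.one_ne_top)
    simpa using this
  refine hsub.congr' ?_
  filter_upwards [eventually_ge_atTop 2] with N hN
  haveI := (hP ζ α had N hN).2.2
  haveI : IsProbabilityMeasure (model ζ α N) := by unfold model; infer_instance
  have hm1 : MeasurableSet {ω : (Fin N → ℝ × ℝ) × (Sym2 (Fin N) → ℝ) |
      ¬ (rgraph ζ 1 N ω).Connected} := hmeas N {G | ¬ G.Connected}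
  rw [← prob_compl_eq_one_sub hm1]
  congr 1
  ext ω
  simp

end HG
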