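import Pool.Agent.R985.HG.Defs

open MeasureTheory Set Filter
open scoped ENNReal Topology BigOperators Real

namespace HG

theorem PUB_cr (ζ : ℝ) (u v : ℝ × ℝ) : cr ζ u v = Real.cosh (ζ * u.1 - ζ * v.1) +
    2 * (Real.sinh (ζ * u.1) * Real.sinh (ζ * v.1)) * Real.sin (rel u.2 v.2 / 2) ^ 2 := by
  have h1 : Real.cos (rel u.2 v.2) = 1 - 2 * Real.sin (rel u.2 v.2 / 2) ^ 2 := by
    have h2 : rel u.2 v.2 = 2 * (rel u.2 v.2 / 2) := by ring
    conv_lhs => rw [h2]
    rw [Real.cos_two_mul]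
    have := Real.sin_sq_add_cos_sq (rel u.2 v.2 / 2)
    linarith
  unfold cr
  rw [h1, Real.cosh_sub]
  ring

theorem PUB_rel_le (s t : ℝ) : rel s t ≤ π := by
  unfold rel
  have := abs_nonneg (π - |s - t|)
  linarith

/-- `prob` in terms of `E = c + √(c²-1)` -/
theorem PUB_prob {ζ : ℝ} (hζ : 0 < ζ) {N : ℕ} (hN : 2 ≤ N) (u v : ℝ × ℝ)
    (hE : 0 < cr ζ u v + √(cr ζ u v ^ 2 - 1)) :
    prob ζ 1 N u v = 1 / (√(cr ζ u v + √(cr ζ u v ^ 2 - 1)) / N + 1) := by
  have hN0 : (0:ℝ) < N := by exact_mod_cast (by omega : 0 < N)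
  unfold prob hdist Rad
  have h1 : 1 * (ζ / 2) * (Real.log (cr ζ u v + √(cr ζ u v ^ 2 - 1)) / ζ - 2 * Real.log N / ζ)
      = Real.log (√(cr ζ u v + √(cr ζ u v ^ 2 - 1))) - Real.log N := by
    rw [Real.log_sqrt hE.le]
    field_simp
  rw [h1, Real.exp_sub, Real.exp_log hN0, Real.exp_log (Real.sqrt_pos.2 hE)]

theorem PUB_wt {ζ : ℝ} (hζ : 0 < ζ) {N : ℕ} (hN : 2 ≤ N) (a b : ℝ) :
    wt ζ N a * wt ζ N b = (N:ℝ) ^ 2 * Real.exp (-((ζ * a + ζ * b) / 2)) := by
  have hN0 : (0:ℝ) < N := by exact_mod_cast (by omega : 0 < N)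
  unfold wt Rad
  rw [← Real.exp_add]
  have h1 : ζ * (2 * Real.log N / ζ - a) / 2 + ζ * (2 * Real.log N / ζ - b) / 2
      = Real.log N + Real.log N + -((ζ * a + ζ * b) / 2) := by
    field_simp
    ring
  rw [h1, Real.exp_add, Real.exp_add, Real.exp_log hN0]
  ring

theorem PUB_sinh (x y : ℝ) : 4 * (Real.sinh x * Real.sinh y) =
    Real.exp ((x + y) / 2) ^ 2 * ((1 - Real.exp (-(2 * x))) * (1 - Real.exp (-(2 * y)))) := by
  rw [Real.sinh_eq, Real.sinh_eq]
  have h1 : Real.exp ((x + y) / 2) ^ 2 = Real.exp x * Real.exp y := by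
    rw [← Real.exp_nat_mul, ← Real.exp_add]
    congr 1
    push_cast
    ring
  have h2 : Real.exp (-(2 * x)) = Real.exp (-x) * Real.exp (-x) := by
    rw [← Real.exp_add]; congr 1; ring
  have h3 : Real.exp (-(2 * y)) = Real.exp (-y) * Real.exp (-y) := by
    rw [← Real.exp_add]; congr 1; ring
  have h4 : Real.exp x * Real.exp (-x) = 1 := by rw [← Real.exp_add]; simp
  have h5 : Real.exp y * Real.exp (-y) = 1 := by rw [← Real.exp_add]; simp
  rw [h1, h2, h3]
  have e1 : Real.exp x * (1 - Real.exp (-x) * Real.exp (-x)) = Real.exp x - Real.exp (-x) := by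
    linear_combination (-Real.exp (-x)) * h4
  have e2 : Real.exp y * (1 - Real.exp (-y) * Real.exp (-y)) = Real.exp y - Real.exp (-y) := by
    linear_combination (-Real.exp (-y)) * h5
  calc 4 * ((Real.exp x - Real.exp (-x)) / 2 * ((Real.exp y - Real.exp (-y)) / 2))
      = (Real.exp x - Real.exp (-x)) * (Real.exp y - Real.exp (-y)) := by ring
    _ = (Real.exp x * (1 - Real.exp (-x) * Real.exp (-x))) *
        (Real.exp y * (1 - Real.exp (-y) * Real.exp (-y))) := by rw [e1, e2]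
    _ = _ := by ring

theorem t_PUB : S_PUB := by
  intro ζ hζ N hN r0 hr0 u v hu hv hrel
  have hN0 : (0:ℝ) < N := by exact_mod_cast (by omega : 0 < N)
  have hrelπ := PUB_rel_le u.2 v.2
  set s := Real.sin (rel u.2 v.2 / 2) with hs
  have hs0 : 0 < s := Real.sin_pos_of_pos_of_lt_pi (by linarith) (by linarith [Real.pi_pos])
  have hcr := PUB_cr ζ u v
  rw [← hs] at hcr
  set x := ζ * u.1 with hx
  set y := ζ * v.1 with hy
  have hx0 : ζ * r0 ≤ x := mul_le_mul_of_nonneg_left hu hζ.le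
  have hy0 : ζ * r0 ≤ y := mul_le_mul_of_nonneg_left hv hζ.le
  have hzr : 0 < ζ * r0 := mul_pos hζ hr0
  have hsx : 0 ≤ Real.sinh x := Real.sinh_nonneg_iff.2 (by linarith)
  have hsy : 0 ≤ Real.sinh y := Real.sinh_nonneg_iff.2 (by linarith)
  set c := cr ζ u v with hc
  have hc1 : 1 + 2 * (Real.sinh x * Real.sinh y) * s ^ 2 ≤ c := by
    rw [hcr]
    have h1 := Real.one_le_cosh (x - y)
    linarith
  have hp : 0 ≤ 2 * (Real.sinh x * Real.sinh y) * s ^ 2 := by positivity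
  have hsq : c - 1 ≤ √(c ^ 2 - 1) := by
    apply Real.le_sqrt_of_sq_le
    nlinarith
  have hE0 : 0 < c + √(c ^ 2 - 1) := by
    have := Real.sqrt_nonneg (c ^ 2 - 1)
    linarith
  rw [PUB_prob hζ hN u v hE0]
  have hg := PUB_wt hζ hN u.1 v.1
  rw [← hx, ← hy] at hg
  set g := Real.exp ((x + y) / 2) with hgdef
  have hg0 : 0 < g := Real.exp_pos _
  have hgi : Real.exp (-((x + y) / 2)) = g⁻¹ := Real.exp_neg _
  set k := 1 - Real.exp (-(2 * ζ * r0)) with hk
  have hk0 : 0 < k := by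
    rw [hk]
    have : Real.exp (-(2 * ζ * r0)) < 1 := Real.exp_lt_one_iff.2 (by linarith)
    linarith
  have h4s : g ^ 2 * (k * k) ≤ 4 * (Real.sinh x * Real.sinh y) := by
    rw [PUB_sinh]
    have e1 : Real.exp (-(2 * x)) ≤ Real.exp (-(2 * ζ * r0)) := Real.exp_le_exp.2 (by linarith)
    have e2 : Real.exp (-(2 * y)) ≤ Real.exp (-(2 * ζ * r0)) := Real.exp_le_exp.2 (by linarith)
    apply mul_le_mul_of_nonneg_left _ (by positivity)
    apply mul_le_mul (by linarith) (by linarith) hk0.le (by linarith)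
  have hX : g * k * s ≤ √(c + √(c ^ 2 - 1)) := by
    apply Real.le_sqrt_of_sq_le
    have e1 : 2 * (c - 1) + 1 ≤ c + √(c ^ 2 - 1) := by linarith
    have e2 : (g * k * s) ^ 2 ≤ 4 * (Real.sinh x * Real.sinh y) * s ^ 2 := by
      calc (g * k * s) ^ 2 = g ^ 2 * (k * k) * s ^ 2 := by ring
        _ ≤ _ := mul_le_mul_of_nonneg_right h4s (sq_nonneg s)
    linarith
  rw [hg, hgi]
  have hgks : 0 < g * k * s := by positivity
  have e1 : (N:ℝ) ^ 2 * g⁻¹ / (k * (N * s)) = 1 / ((g * k * s) / N) := by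
    field_simp
  rw [e1]
  apply one_div_le_one_div_of_le (by positivity)
  have e2 : g * k * s / N ≤ √(c + √(c ^ 2 - 1)) / N := div_le_div_of_nonneg_right hX hN0.le
  linarith

end HG
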