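import Pool.Agent.R985.HG.Defs

open Finset

namespace HG

theorem PW_exp (y : ℝ) (hy : 0 ≤ y) : Real.exp (-y) ≤ 1 - y + y ^ 2 / 2 := by
  have h1 : 1 + y + y ^ 2 / 2 ≤ Real.exp y := Real.quadratic_le_exp_of_nonneg hy
  rw [Real.exp_neg]
  have hpos : 0 < Real.exp y := Real.exp_pos y
  rw [inv_le_iff_one_le_mul₀ hpos]
  have h2 : 0 ≤ 1 - y + y ^ 2 / 2 := by nlinarith [sq_nonneg (y - 1)]
  have h3 : (1 - y + y ^ 2 / 2) * (1 + y + y ^ 2 / 2) ≤ (1 - y + y ^ 2 / 2) * Real.exp y :=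
    mul_le_mul_of_nonneg_left h1 h2
  have h4 : (1 - y + y ^ 2 / 2) * (1 + y + y ^ 2 / 2) = 1 + y ^ 4 / 4 := by ring
  have h5 : 0 ≤ y ^ 4 := by positivity
  linarith

theorem PW_prod {ι : Type} (S : Finset ι) (x : ι → ℝ) (hx : ∀ i ∈ S, 0 ≤ x i ∧ x i ≤ 1) :
    ∏ i ∈ S, (1 - x i) ≤ Real.exp (-(∑ i ∈ S, x i)) := by
  rw [← Finset.sum_neg_distrib, Real.exp_sum]
  apply Finset.prod_le_prod
  · intro i hi
    linarith [(hx i hi).2]
  · intro i hi
    have := Real.add_one_le_exp (-(x i))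
    linarith

theorem t_PW : S_PW := by
  intro N S h x q hq hh hx hhx
  set H := ∑ i ∈ S, h i with hH
  set X := ∑ i ∈ S, x i with hX
  have hH0 : 0 ≤ H := Finset.sum_nonneg hh
  have hX0 : 0 ≤ X := Finset.sum_nonneg (fun i hi => (hx i hi).1)
  have hsq : ∑ i ∈ S, h i ^ 2 ≤ H ^ 2 := by
    have : ∀ i ∈ S, h i ^ 2 ≤ h i * H := by
      intro i hi
      have h1 : h i ≤ H := Finset.single_le_sum (f := h) hh hi
      have h2 := hh i hi
      nlinarith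
    calc ∑ i ∈ S, h i ^ 2 ≤ ∑ i ∈ S, h i * H := Finset.sum_le_sum this
      _ = H ^ 2 := by rw [← Finset.sum_mul]; ring
  have hXlb : H - 3 * H ^ 2 - S.card * q ≤ X := by
    have h1 : ∑ i ∈ S, (h i - 3 * h i ^ 2 - q) ≤ X := Finset.sum_le_sum hhx
    rw [Finset.sum_sub_distrib, Finset.sum_sub_distrib, ← Finset.mul_sum, Finset.sum_const,
      nsmul_eq_mul] at h1
    linarith
  have hP : ∏ i ∈ S, (1 - x i) ≤ Real.exp (-X) := PW_prod S x hx
  have hP1 : ∏ i ∈ S, (1 - x i) ≤ 1 := by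
    apply Finset.prod_le_one
    · intro i hi; linarith [(hx i hi).2]
    · intro i hi; linarith [(hx i hi).1]
  have hc : (0:ℝ) ≤ S.card * q := by positivity
  set Y := H - 3 * H ^ 2 - S.card * q with hY
  by_cases hY0 : 0 ≤ Y
  · have h1 : Real.exp (-X) ≤ Real.exp (-Y) := Real.exp_le_exp.2 (by linarith)
    have h2 := PW_exp Y hY0
    have h3 : Y ≤ H := by nlinarith [sq_nonneg H]
    have h4 : Y ^ 2 ≤ H ^ 2 := by nlinarith
    nlinarith [sq_nonneg H]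
  · rw [not_le] at hY0
    nlinarith [sq_nonneg H]

end HG
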