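import Pool.Agent.R985.HG.Defs

open MeasureTheory Set Filter
open scoped ENNReal Topology BigOperators Real

namespace HG

theorem Q2_rel_le (s t : ℝ) : rel s t ≤ π := by
  unfold rel; linarith [abs_nonneg (π - |s - t|)]

theorem Q2_rel_cases (s t : ℝ) : (rel s t = |s - t| ∧ |s - t| ≤ π) ∨
    (rel s t = 2 * π - |s - t| ∧ π ≤ |s - t|) := by
  unfold rel
  rcases le_total (|s - t|) π with h | h
  · left
    rw [abs_of_nonneg (by linarith : 0 ≤ π - |s - t|)]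
    exact ⟨by ring, h⟩
  · right
    rw [abs_of_nonpos (by linarith : π - |s - t| ≤ 0)]
    exact ⟨by ring, h⟩

theorem Q2_rel_tri {s t w : ℝ} (hs : s ∈ Ioc (0:ℝ) (2 * π)) (ht : t ∈ Ioc (0:ℝ) (2 * π))
    (hw : w ∈ Ioc (0:ℝ) (2 * π)) : rel s t ≤ rel s w + rel t w := by
  obtain ⟨hs1, hs2⟩ := hs
  obtain ⟨ht1, ht2⟩ := ht
  obtain ⟨hw1, hw2⟩ := hw
  have hA : |s - t| ≤ |s - w| + |t - w| ∧ |s - w| ≤ |s - t| + |t - w| ∧
      |t - w| ≤ |s - t| + |s - w| ∧ |s - t| + |s - w| + |t - w| ≤ 4 * π := by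
    rcases abs_cases (s - t) with ⟨h1, _⟩ | ⟨h1, _⟩ <;>
    rcases abs_cases (s - w) with ⟨h2, _⟩ | ⟨h2, _⟩ <;>
    rcases abs_cases (t - w) with ⟨h3, _⟩ | ⟨h3, _⟩ <;>
    rw [h1, h2, h3] <;> refine ⟨?_, ?_, ?_, ?_⟩ <;> linarith
  obtain ⟨a1, a2, a3, a4⟩ := hA
  rcases Q2_rel_cases s t with ⟨h1, g1⟩ | ⟨h1, g1⟩ <;>
  rcases Q2_rel_cases s w with ⟨h2, g2⟩ | ⟨h2, g2⟩ <;>
  rcases Q2_rel_cases t w with ⟨h3, g3⟩ | ⟨h3, g3⟩ <;>
  rw [h1, h2, h3] <;> linarith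

theorem Q2_min {A z κ : ℝ} (hA0 : 0 ≤ A) (hA1 : A ≤ 1) (hz : A ≤ z) (hκ0 : 0 < κ)
    (hκ1 : κ ≤ 1) : A ≤ z ^ κ := by
  rcases hA0.eq_or_lt with h | h
  · rw [← h]; exact Real.rpow_nonneg (hA0.trans hz) _
  · rcases le_or_gt 1 z with h1 | h1
    · exact hA1.trans (Real.one_le_rpow h1 hκ0.le)
    · calc A ≤ z := hz
        _ = z ^ (1:ℝ) := (Real.rpow_one z).symm
        _ ≤ z ^ κ := Real.rpow_le_rpow_of_exponent_ge (h.trans_le hz) h1.le hκ1

theorem Q2_half {A B a n C xu xv κ l η : ℝ} (hA0 : 0 ≤ A) (hA1 : A ≤ 1) (hB0 : 0 ≤ B)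
    (hB1 : B ≤ 1) (ha : 0 < a) (hn : 0 < n) (hC : 0 < C) (hxu : 0 < xu) (hxv : 0 < xv)
    (hA : A ≤ C * a / (n * xu)) (hB : B ≤ C * a / (n * xv)) (hκ0 : 0 < κ) (hκ1 : κ ≤ 1)
    (hl0 : 0 < l) (hl1 : l < 1) (hT : n ^ (η - 1) / 2 ≤ xu) :
    A * B ≤ (2 * C) ^ κ * C ^ (1 - l) * n ^ (-(η * κ + (1 - l))) *
      (a ^ (κ + (1 - l)) * xv ^ (l - 1)) := by
  have hnη : 0 < n ^ η := Real.rpow_pos_of_pos hn _
  have h1 : A ≤ 2 * C * a * n ^ (-η) := by
    refine hA.trans ?_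
    rw [Real.rpow_neg hn.le, ← div_eq_mul_inv, div_le_div_iff₀ (by positivity) hnη]
    have h2 : n ^ (η - 1) = n ^ η / n := Real.rpow_sub_one hn.ne' η
    rw [h2] at hT
    have h3 : n ^ η ≤ 2 * (n * xu) := by
      rw [div_div, div_le_iff₀ (by positivity)] at hT
      linarith
    calc C * a * n ^ η ≤ C * a * (2 * (n * xu)) := by gcongr
      _ = 2 * C * a * (n * xu) := by ring
  have h2 := Q2_min hA0 hA1 h1 hκ0 hκ1
  have h3 := Q2_min hB0 hB1 hB (by linarith : 0 < 1 - l) (by linarith)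
  have h4 : (2 * C * a * n ^ (-η)) ^ κ = (2 * C) ^ κ * a ^ κ * n ^ (-(η * κ)) := by
    rw [Real.mul_rpow (by positivity) (Real.rpow_nonneg hn.le _),
      Real.mul_rpow (by positivity) ha.le, ← Real.rpow_mul hn.le]
    congr 2
    ring
  have h5 : (C * a / (n * xv)) ^ (1 - l) =
      C ^ (1 - l) * a ^ (1 - l) * (n ^ (-(1 - l)) * xv ^ (l - 1)) := by
    rw [Real.div_rpow (by positivity) (by positivity), Real.mul_rpow hC.le ha.le,
      Real.mul_rpow hn.le hxv.le, div_eq_mul_inv, mul_inv, ← Real.rpow_neg hn.le,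
      ← Real.rpow_neg hxv.le]
    congr 4
    ring
  calc A * B ≤ (2 * C * a * n ^ (-η)) ^ κ * (C * a / (n * xv)) ^ (1 - l) := by
        apply mul_le_mul h2 h3 hB0 (Real.rpow_nonneg (by positivity) _)
    _ = (2 * C) ^ κ * C ^ (1 - l) * (n ^ (-(η * κ)) * n ^ (-(1 - l))) *
      ((a ^ κ * a ^ (1 - l)) * xv ^ (l - 1)) := by rw [h4, h5]; ring
    _ = _ := by
        rw [← Real.rpow_add hn, ← Real.rpow_add ha]
        congr 3
        ring

theorem Q2_pt {A B a n C xu xv κ l η : ℝ} (hA0 : 0 ≤ A) (hA1 : A ≤ 1) (hB0 : 0 ≤ B)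
    (hB1 : B ≤ 1) (ha : 0 < a) (hn : 0 < n) (hC : 0 < C) (hxu : 0 < xu) (hxv : 0 < xv)
    (hA : A ≤ C * a / (n * xu)) (hB : B ≤ C * a / (n * xv)) (hκ0 : 0 < κ) (hκ1 : κ ≤ 1)
    (hl0 : 0 < l) (hl1 : l < 1) (hT : n ^ (η - 1) ≤ xu + xv) :
    A * B ≤ (2 * C) ^ κ * C ^ (1 - l) * n ^ (-(η * κ + (1 - l))) *
      (a ^ (κ + (1 - l)) * xu ^ (l - 1)) +
      (2 * C) ^ κ * C ^ (1 - l) * n ^ (-(η * κ + (1 - l))) *
      (a ^ (κ + (1 - l)) * xv ^ (l - 1)) := by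
  have hp1 : 0 ≤ (2 * C) ^ κ * C ^ (1 - l) * n ^ (-(η * κ + (1 - l))) *
      (a ^ (κ + (1 - l)) * xu ^ (l - 1)) := by positivity
  have hp2 : 0 ≤ (2 * C) ^ κ * C ^ (1 - l) * n ^ (-(η * κ + (1 - l))) *
      (a ^ (κ + (1 - l)) * xv ^ (l - 1)) := by positivity
  rcases le_or_gt (n ^ (η - 1) / 2) xu with h | h
  · have := Q2_half hA0 hA1 hB0 hB1 ha hn hC hxu hxv hA hB hκ0 hκ1 hl0 hl1 h
    linarith
  · have h' : n ^ (η - 1) / 2 ≤ xv := by linarith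
    have := Q2_half hB0 hB1 hA0 hA1 ha hn hC hxv hxu hB hA hκ0 hκ1 hl0 hl1 h'
    rw [mul_comm B A] at this
    linarith

theorem Q2_rel_meas (t : ℝ) : Measurable (fun v : ℝ × ℝ => (v.1, rel t v.2)) := by
  unfold rel
  fun_prop

theorem Q2_nu_int {l : ℝ} (hl0 : 0 < l) :
    Integrable (fun x : ℝ => x ^ (l - 1)) ((ENNReal.ofReal π)⁻¹ • volume.restrict (Icc 0 π)) := by
  apply Integrable.smul_measure
  · have h1 : IntervalIntegrable (fun x : ℝ => x ^ (l - 1)) volume 0 π :=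
      intervalIntegral.intervalIntegrable_rpow' (by linarith)
    rw [intervalIntegrable_iff_integrableOn_Icc_of_le Real.pi_pos.le] at h1
    exact h1
  · simp [Real.pi_pos]

/-- the pushed integral -/
theorem Q2_push (hL : S_POL) {ζ α : ℝ} (hadm : Adm ζ α) {N : ℕ} (hN : 2 ≤ N) {t : ℝ}
    (ht : t ∈ Ioc (0:ℝ) (2 * π)) {s l : ℝ} (hl0 : 0 < l) [SFinite (radial ζ α N)]
    (hint : Integrable (fun r => Real.exp (s * (Rad ζ N - r))) (radial ζ α N)) :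
    Integrable (fun y : ℝ × ℝ => Real.exp (s * (Rad ζ N - y.1)) * rel t y.2 ^ (l - 1))
      (pt ζ α N) ∧
    ∫ y, Real.exp (s * (Rad ζ N - y.1)) * rel t y.2 ^ (l - 1) ∂(pt ζ α N) =
      (∫ r, Real.exp (s * (Rad ζ N - r)) ∂(radial ζ α N)) *
      ∫ x, x ^ (l - 1) ∂((ENNReal.ofReal π)⁻¹ • volume.restrict (Icc 0 π)) := by
  have hmap := hL ζ α hadm N hN t ht
  set ν : Measure ℝ := (ENNReal.ofReal π)⁻¹ • volume.restrict (Icc 0 π) with hν
  have : SFinite ν := by rw [hν]; infer_instance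
  have hprod : Integrable (fun p : ℝ × ℝ => Real.exp (s * (Rad ζ N - p.1)) * p.2 ^ (l - 1))
      ((radial ζ α N).prod ν) := hint.mul_prod (Q2_nu_int hl0)
  rw [← hmap] at hprod
  have hmeas := Q2_rel_meas t
  refine ⟨?_, ?_⟩
  · have := (integrable_map_measure hprod.aestronglyMeasurable hmeas.aemeasurable).mp hprod
    exact this
  · have h1 := integral_map (μ := pt ζ α N) hmeas.aemeasurable hprod.aestronglyMeasurable
    have h2 : ∫ p : ℝ × ℝ, Real.exp (s * (Rad ζ N - p.1)) * p.2 ^ (l - 1)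
        ∂((radial ζ α N).prod ν) = (∫ r, Real.exp (s * (Rad ζ N - r)) ∂(radial ζ α N)) *
        ∫ x, x ^ (l - 1) ∂ν :=
      integral_prod_mul (μ := radial ζ α N) (ν := ν) (fun r => Real.exp (s * (Rad ζ N - r)))
        (fun x => x ^ (l - 1))
    rw [← h2, ← hmap, h1]

/-- almost surely the relative angle is positive -/
theorem Q2_ae_pos (hL : S_POL) {ζ α : ℝ} (hadm : Adm ζ α) {N : ℕ} (hN : 2 ≤ N) {t : ℝ}
    (ht : t ∈ Ioc (0:ℝ) (2 * π)) [SFinite (radial ζ α N)] :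
    ∀ᵐ y ∂(pt ζ α N), 0 < rel t y.2 := by
  have hmap := hL ζ α hadm N hN t ht
  set ν : Measure ℝ := (ENNReal.ofReal π)⁻¹ • volume.restrict (Icc 0 π) with hν
  have : SFinite ν := by rw [hν]; infer_instance
  have h1 : ∀ᵐ x ∂ν, 0 < x := by
    rw [hν]
    apply Measure.ae_smul_measure
    rw [ae_restrict_iff' measurableSet_Icc]
    have h0 : ∀ᵐ x : ℝ ∂volume, x ≠ 0 := by
      rw [ae_iff]; simp
    filter_upwards [h0] with x hx hx2
    exact lt_of_le_of_ne hx2.1 (Ne.symm hx)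
  have h2 : ∀ᵐ p ∂((radial ζ α N).prod ν), 0 < p.2 :=
    Measure.quasiMeasurePreserving_snd.ae h1
  rw [← hmap] at h2
  exact ae_of_ae_map (Q2_rel_meas t).aemeasurable h2

theorem t_Q2 (hP : S_PM) (hA : S_AE) (hME : S_MEAS) (hE : S_PEL) (hL : S_POL) (hU : S_PUB)
    (hS : S_RSM) (hM : S_MOM) : S_Q2 := by
  intro ζ α hadm η hη ε hε
  have hζ := hadm.z0
  have hα := hadm.a0
  have hr : ζ / 2 < α := by
    have := hadm.h2
    rw [div_lt_iff₀ hα] at this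
    linarith
  obtain ⟨κ, hκ0, hκ1, hκs⟩ : ∃ κ : ℝ, 0 < κ ∧ κ ≤ 1 ∧ (κ + 1) * ζ / 2 < α := by
    have hpos : 0 < (α - ζ / 2) / ζ := div_pos (by linarith) hζ
    refine ⟨min 1 ((α - ζ / 2) / ζ), lt_min one_pos hpos, min_le_left _ _, ?_⟩
    have h1 : min 1 ((α - ζ / 2) / ζ) ≤ (α - ζ / 2) / ζ := min_le_right _ _
    have h2 : min 1 ((α - ζ / 2) / ζ) * ζ ≤ α - ζ / 2 := by
      rwa [le_div_iff₀ hζ] at h1
    nlinarith
  obtain ⟨l, hl0, hl1, hlη⟩ : ∃ l : ℝ, 0 < l ∧ l < 1 ∧ l < η * κ := by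
    have hp : 0 < η * κ := mul_pos hη hκ0
    refine ⟨min (1 / 2) (η * κ / 2), lt_min (by norm_num) (by linarith), ?_, ?_⟩
    · exact lt_of_le_of_lt (min_le_left _ _) (by norm_num)
    · exact lt_of_le_of_lt (min_le_right _ _) (by linarith)
  set m : ℝ := κ + (1 - l) with hm
  set s : ℝ := m * ζ / 2 with hs
  have hs0 : 0 ≤ s := by rw [hs, hm]; have : 0 < κ + (1 - l) := by linarith
                         positivity
  have hsα : s < α := by
    rw [hs, hm]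
    nlinarith
  obtain ⟨Cs, hCs, hmom⟩ := hM ζ α hadm s hs0 hsα
  set K : ℝ := Real.exp (ζ / 2) with hK
  have hden : 0 < 1 - Real.exp (-(2 * ζ * 1)) := by
    have : Real.exp (-(2 * ζ * 1)) < 1 := by rw [Real.exp_lt_one_iff]; linarith
    linarith
  set C : ℝ := K * π / (1 - Real.exp (-(2 * ζ * 1))) with hC
  have hCpos : 0 < C := by rw [hC, hK]; positivity
  set I0 : ℝ := ∫ x, x ^ (l - 1) ∂((ENNReal.ofReal π)⁻¹ • volume.restrict (Icc 0 π)) with hI0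
  have hI0n : 0 ≤ I0 := by
    rw [hI0]
    rw [integral_smul_measure]
    apply smul_nonneg ENNReal.toReal_nonneg
    apply setIntegral_nonneg measurableSet_Icc
    intro x hx
    exact Real.rpow_nonneg hx.1 _
  set D0 : ℝ := (2 * C) ^ κ * C ^ (1 - l) with hD0
  have hD0n : 0 ≤ D0 := by rw [hD0]; positivity
  -- limits
  have hlim1 : ∀ᶠ N : ℕ in atTop, (N:ℝ) * Real.log N * (radial ζ α N (Iic 1)).toReal < ε / 2 :=
    (hS ζ α hadm 1).eventually (gt_mem_nhds (by linarith : (0:ℝ) < ε / 2))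
  have hlim2 : ∀ᶠ N : ℕ in atTop, D0 * (N:ℝ) ^ (-(η * κ - l)) * (2 * (Cs * I0)) < ε / 2 := by
    have h1 : Tendsto (fun N : ℕ => (N:ℝ) ^ (-(η * κ - l))) atTop (𝓝 0) :=
      (tendsto_rpow_neg_atTop (by linarith : 0 < η * κ - l)).comp tendsto_natCast_atTop_atTop
    have h2 : Tendsto (fun N : ℕ => D0 * (N:ℝ) ^ (-(η * κ - l)) * (2 * (Cs * I0))) atTop
        (𝓝 (D0 * 0 * (2 * (Cs * I0)))) := (h1.const_mul D0).mul_const _
    rw [mul_zero, zero_mul] at h2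
    exact h2.eventually (gt_mem_nhds (by linarith : (0:ℝ) < ε / 2))
  have hlim3 : ∀ᶠ N : ℕ in atTop, ζ ≤ Real.log N :=
    (Real.tendsto_log_atTop.comp tendsto_natCast_atTop_atTop).eventually_ge_atTop ζ
  filter_upwards [hlim1, hlim2, hlim3, eventually_ge_atTop 3] with N h1 h2 h3 hN3
  intro u hu v hv hu1 hv1 hrel
  have hN2 : 2 ≤ N := by omega
  have hNpos : (0:ℝ) < N := by positivity
  have hRad : 2 ≤ Rad ζ N := by
    unfold Rad
    rw [le_div_iff₀ hζ]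
    linarith
  obtain ⟨hPr, hPa, hPp⟩ := hP ζ α hadm N hN2
  have hAd := hA ζ α hadm N hN2
  obtain ⟨hmi, hmb⟩ := hmom N hN2
  have hu2 : u.2 ∈ Ioc (0:ℝ) (2 * π) := hu.2
  have hv2 : v.2 ∈ Ioc (0:ℝ) (2 * π) := hv.2
  obtain ⟨hGu, hGue⟩ := Q2_push hL hadm hN2 hu2 hl0 hmi
  obtain ⟨hGv, hGve⟩ := Q2_push hL hadm hN2 hv2 hl0 hmi
  have hpu := Q2_ae_pos hL hadm hN2 hu2
  have hpv := Q2_ae_pos hL hadm hN2 hv2
  set μ := pt ζ α N with hμ
  set D : ℝ := D0 * (N:ℝ) ^ (-(η * κ + (1 - l))) with hD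
  have hDn : 0 ≤ D := by rw [hD]; positivity
  -- weights
  have hwt : ∀ w : ℝ × ℝ, Rad ζ N - 1 ≤ w.1 → wt ζ N w.1 ≤ K := by
    intro w hw
    unfold wt
    rw [hK]
    apply Real.exp_le_exp.mpr
    have : ζ * (Rad ζ N - w.1) ≤ ζ * 1 := mul_le_mul_of_nonneg_left (by linarith) hζ.le
    linarith
  -- pointwise bound of the probabilities
  have hprob : ∀ w y : ℝ × ℝ, Rad ζ N - 1 ≤ w.1 → 1 ≤ y.1 → 0 < rel w.2 y.2 →
      prob ζ 1 N w y ≤ C * wt ζ N y.1 / (N * rel w.2 y.2) := by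
    intro w y hw hy hrp
    have hb := hU ζ hζ N hN2 1 one_pos w y (by linarith) hy hrp
    refine hb.trans ?_
    have hsin : rel w.2 y.2 / π ≤ Real.sin (rel w.2 y.2 / 2) := by
      have := Real.mul_le_sin (x := rel w.2 y.2 / 2) (by linarith)
        (by linarith [Q2_rel_le w.2 y.2])
      calc rel w.2 y.2 / π = 2 / π * (rel w.2 y.2 / 2) := by ring
        _ ≤ _ := this
    have hwy : 0 < wt ζ N y.1 := Real.exp_pos _
    have hKp : 0 < K := Real.exp_pos _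
    calc wt ζ N w.1 * wt ζ N y.1 /
          ((1 - Real.exp (-(2 * ζ * 1))) * (N * Real.sin (rel w.2 y.2 / 2)))
        ≤ K * wt ζ N y.1 /
          ((1 - Real.exp (-(2 * ζ * 1))) * (N * (rel w.2 y.2 / π))) := by
          apply div_le_div₀ (by positivity)
          · exact mul_le_mul_of_nonneg_right (hwt w hw) hwy.le
          · have := Real.pi_pos
            positivity
          · apply mul_le_mul_of_nonneg_left _ hden.le
            exact mul_le_mul_of_nonneg_left hsin hNpos.le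
      _ = C * wt ζ N y.1 / (N * rel w.2 y.2) := by
          rw [hC]
          have := Real.pi_pos
          field_simp
  -- the majorant
  have hset : MeasurableSet {y : ℝ × ℝ | y.1 ≤ 1} := measurableSet_le measurable_fst measurable_const
  have hle : (fun y => prob ζ 1 N u y * prob ζ 1 N v y) ≤ᵐ[μ]
      fun y => {y : ℝ × ℝ | y.1 ≤ 1}.indicator (fun _ => (1:ℝ)) y +
        (D * (Real.exp (s * (Rad ζ N - y.1)) * rel u.2 y.2 ^ (l - 1)) +
          D * (Real.exp (s * (Rad ζ N - y.1)) * rel v.2 y.2 ^ (l - 1))) := by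
    filter_upwards [hAd, hpu, hpv] with y hy hyu hyv
    have e1 := (hE ζ hζ N hN2).1 u y
    have e2 := (hE ζ hζ N hN2).1 v y
    have hg1 : 0 ≤ D * (Real.exp (s * (Rad ζ N - y.1)) * rel u.2 y.2 ^ (l - 1)) := by positivity
    have hg2 : 0 ≤ D * (Real.exp (s * (Rad ζ N - y.1)) * rel v.2 y.2 ^ (l - 1)) := by positivity
    by_cases hy1 : y.1 ≤ 1
    · have : {y : ℝ × ℝ | y.1 ≤ 1}.indicator (fun _ => (1:ℝ)) y = 1 :=
        indicator_of_mem (s := {y : ℝ × ℝ | y.1 ≤ 1}) hy1 _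
      rw [this]
      have : prob ζ 1 N u y * prob ζ 1 N v y ≤ 1 := mul_le_one₀ e1.2 e2.1 e2.2
      linarith
    · have : {y : ℝ × ℝ | y.1 ≤ 1}.indicator (fun _ => (1:ℝ)) y = 0 :=
        indicator_of_notMem (s := {y : ℝ × ℝ | y.1 ≤ 1}) hy1 _
      rw [this, zero_add]
      push Not at hy1
      have hw : 0 < wt ζ N y.1 := Real.exp_pos _
      have htri := Q2_rel_tri hu2 hv2 (hy.2 : y.2 ∈ Ioc (0:ℝ) (2 * π))
      have hmain := Q2_pt (κ := κ) (l := l) (η := η) e1.1 e1.2 e2.1 e2.2 hw hNpos hCpos hyu hyv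
        (hprob u y hu1 hy1.le hyu) (hprob v y hv1 hy1.le hyv) hκ0 hκ1 hl0 hl1
        (by linarith)
      have hexp : wt ζ N y.1 ^ (κ + (1 - l)) = Real.exp (s * (Rad ζ N - y.1)) := by
        unfold wt
        rw [← Real.exp_mul, hs, hm]
        congr 1
        ring
      rw [hexp] at hmain
      exact hmain
  have hnn : 0 ≤ᵐ[μ] fun y => prob ζ 1 N u y * prob ζ 1 N v y := by
    filter_upwards with y
    exact mul_nonneg ((hE ζ hζ N hN2).1 u y).1 ((hE ζ hζ N hN2).1 v y).1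
  have hind : Integrable ({y : ℝ × ℝ | y.1 ≤ 1}.indicator (fun _ => (1:ℝ))) μ :=
    (integrable_const (1:ℝ)).indicator hset
  have hint : Integrable (fun y => {y : ℝ × ℝ | y.1 ≤ 1}.indicator (fun _ => (1:ℝ)) y +
        (D * (Real.exp (s * (Rad ζ N - y.1)) * rel u.2 y.2 ^ (l - 1)) +
          D * (Real.exp (s * (Rad ζ N - y.1)) * rel v.2 y.2 ^ (l - 1)))) μ :=
    hind.add ((hGu.const_mul D).add (hGv.const_mul D))
  have hI := integral_mono_of_nonneg hnn hint hle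
  have hval : ∫ y, ({y : ℝ × ℝ | y.1 ≤ 1}.indicator (fun _ => (1:ℝ)) y +
        (D * (Real.exp (s * (Rad ζ N - y.1)) * rel u.2 y.2 ^ (l - 1)) +
          D * (Real.exp (s * (Rad ζ N - y.1)) * rel v.2 y.2 ^ (l - 1)))) ∂μ =
      (radial ζ α N (Iic 1)).toReal + D * (2 * ((∫ r, Real.exp (s * (Rad ζ N - r))
        ∂(radial ζ α N)) * I0)) := by
    have hint2 : Integrable (fun y : ℝ × ℝ =>
        D * (Real.exp (s * (Rad ζ N - y.1)) * rel u.2 y.2 ^ (l - 1)) +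
          D * (Real.exp (s * (Rad ζ N - y.1)) * rel v.2 y.2 ^ (l - 1))) μ :=
      (hGu.const_mul D).add (hGv.const_mul D)
    rw [integral_add hind hint2,
      integral_add (hGu.const_mul D) (hGv.const_mul D), integral_const_mul, integral_const_mul,
      hGue, hGve, integral_indicator_const _ hset]
    have hm1 : μ.real {y : ℝ × ℝ | y.1 ≤ 1} = (radial ζ α N (Iic 1)).toReal := by
      have hs1 : {y : ℝ × ℝ | y.1 ≤ 1} = Iic (1:ℝ) ×ˢ univ := by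
        ext y; simp
      rw [Measure.real, hs1, hμ, pt, Measure.prod_prod, measure_univ, mul_one]
    rw [hm1]
    simp only [smul_eq_mul, mul_one]
    ring
  rw [hval] at hI
  have hlog1 : 1 ≤ Real.log N := by
    rw [Real.le_log_iff_exp_le hNpos]
    have : (3:ℝ) ≤ N := by exact_mod_cast hN3
    linarith [Real.exp_one_lt_d9]
  have hterm1 : (N:ℝ) * (radial ζ α N (Iic 1)).toReal ≤
      (N:ℝ) * Real.log N * (radial ζ α N (Iic 1)).toReal := by
    apply mul_le_mul_of_nonneg_right _ ENNReal.toReal_nonneg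
    nlinarith
  have hterm2 : (N:ℝ) * (D * (2 * ((∫ r, Real.exp (s * (Rad ζ N - r))
        ∂(radial ζ α N)) * I0))) ≤ D0 * (N:ℝ) ^ (-(η * κ - l)) * (2 * (Cs * I0)) := by
    have e1 : (N:ℝ) * D = D0 * (N:ℝ) ^ (-(η * κ - l)) := by
      rw [hD]
      have : (N:ℝ) ^ (-(η * κ - l)) = (N:ℝ) ^ (1:ℝ) * (N:ℝ) ^ (-(η * κ + (1 - l))) := by
        rw [← Real.rpow_add hNpos]
        congr 1
        ring
      rw [this, Real.rpow_one]
      ring
    rw [← mul_assoc, e1]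
    gcongr
  calc (N:ℝ) * ∫ y, prob ζ 1 N u y * prob ζ 1 N v y ∂μ
      ≤ N * ((radial ζ α N (Iic 1)).toReal + D * (2 * ((∫ r, Real.exp (s * (Rad ζ N - r))
        ∂(radial ζ α N)) * I0))) := mul_le_mul_of_nonneg_left hI hNpos.le
    _ = (N:ℝ) * (radial ζ α N (Iic 1)).toReal + (N:ℝ) * (D * (2 * ((∫ r, Real.exp (s *
        (Rad ζ N - r)) ∂(radial ζ α N)) * I0))) := by ring
    _ ≤ ε := by linarith

end HG
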