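import Pool.Agent.R985.HG.Defs

open MeasureTheory Set Filter
open scoped ENNReal Topology BigOperators Real

namespace HG

lemma RHO_Rad_mono {ζ : ℝ} (hζ : 0 < ζ) {N : ℕ} (hN : 2 ≤ N) : Rad ζ 2 ≤ Rad ζ N := by
  unfold Rad
  have h1 : Real.log ((2 : ℕ) : ℝ) ≤ Real.log (N : ℝ) :=
    Real.log_le_log (by norm_num) (by exact_mod_cast hN)
  exact div_le_div_of_nonneg_right (mul_le_mul_of_nonneg_left h1 (by norm_num)) hζ.le

lemma RHO_Rad_pos {ζ : ℝ} (hζ : 0 < ζ) : 0 < Rad ζ 2 := by
  unfold Rad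
  have h1 : 0 < Real.log ((2 : ℕ) : ℝ) := Real.log_pos (by norm_num)
  positivity

lemma RHO_cosh (x : ℝ) : Real.cosh x - 1 = Real.exp x / 2 * (1 - Real.exp (-x)) ^ 2 := by
  rw [Real.cosh_eq]
  have h : Real.exp x * Real.exp (-x) = 1 := by rw [← Real.exp_add]; simp
  linear_combination (-(Real.exp (-x)) / 2 + 1) * h

theorem t_RHO : S_RHO := by
  intro ζ α hA
  obtain ⟨hζ, -, hα, -⟩ := hA
  set x2 : ℝ := α * Rad ζ 2 with hx2
  have hx2p : 0 < x2 := mul_pos hα (RHO_Rad_pos hζ)
  have hk : 0 < 1 - Real.exp (-x2) := by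
    have : Real.exp (-x2) < 1 := by
      have h0 := Real.exp_lt_exp.2 (show -x2 < 0 by linarith)
      rwa [Real.exp_zero] at h0
    linarith
  set κ : ℝ := (1 - Real.exp (-x2)) ^ 2 with hκ
  have hκp : 0 < κ := by positivity
  refine ⟨α / κ, div_pos hα hκp, ?_⟩
  intro N hN r hr
  obtain ⟨hr0, hr1⟩ := hr
  set R := Rad ζ N with hR
  have hRx : x2 ≤ α * R := mul_le_mul_of_nonneg_left (RHO_Rad_mono hζ hN) hα.le
  have hD := RHO_cosh (α * R)
  have he : 0 < Real.exp (α * R) := Real.exp_pos _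
  have h1 : Real.exp (-(α * R)) ≤ Real.exp (-x2) := Real.exp_le_exp.2 (by linarith)
  have h2 : 0 < Real.exp (-(α * R)) := Real.exp_pos _
  have hD1 : Real.exp (α * R) / 2 * κ ≤ Real.cosh (α * R) - 1 := by
    rw [hD, hκ]
    refine mul_le_mul_of_nonneg_left ?_ (by positivity)
    exact pow_le_pow_left₀ hk.le (by linarith) 2
  have hD2 : Real.cosh (α * R) - 1 ≤ Real.exp (α * R) / 2 := by
    rw [Real.cosh_eq]
    have : Real.exp (-(α * R)) ≤ 1 := Real.exp_le_one_iff.2 (by linarith)
    linarith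
  have hDp : 0 < Real.cosh (α * R) - 1 := lt_of_lt_of_le (by positivity) hD1
  have hs0 : 0 ≤ Real.sinh (α * r) := Real.sinh_nonneg_iff.2 (mul_nonneg hα.le hr0)
  have hs1 : Real.sinh (α * r) ≤ Real.exp (α * r) / 2 := by
    rw [Real.sinh_eq]
    have := Real.exp_pos (-(α * r))
    linarith
  refine ⟨?_, ?_⟩
  · unfold rho
    rw [← hR, div_le_iff₀ hDp]
    have e1 : Real.exp (-(α * (R - r))) = Real.exp (α * r) / Real.exp (α * R) := by
      rw [← Real.exp_sub]
      congr 1
      ring
    calc α * Real.sinh (α * r) ≤ α * (Real.exp (α * r) / 2) :=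
          mul_le_mul_of_nonneg_left hs1 hα.le
      _ = α / κ * Real.exp (-(α * (R - r))) * (Real.exp (α * R) / 2 * κ) := by
          rw [e1]
          field_simp
      _ ≤ α / κ * Real.exp (-(α * (R - r))) * (Real.cosh (α * R) - 1) :=
          mul_le_mul_of_nonneg_left hD1 (by positivity)
  · unfold rho
    rw [← hR, le_div_iff₀ hDp]
    have e1 : Real.exp (-(α * (R - r))) = Real.exp (α * r) / Real.exp (α * R) := by
      rw [← Real.exp_sub]
      congr 1
      ring
    have e2 : Real.exp (-(2 * α * R) + α * (R - r)) = Real.exp (-(α * r)) / Real.exp (α * R) := by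
      rw [← Real.exp_sub]
      congr 1
      ring
    have e3 : α * Real.exp (-(α * (R - r))) - α * Real.exp (-(2 * α * R) + α * (R - r)) =
        2 * α * Real.sinh (α * r) / Real.exp (α * R) := by
      rw [e1, e2, Real.sinh_eq]
      ring
    rw [e3]
    have h3 : 0 ≤ 2 * α * Real.sinh (α * r) / Real.exp (α * R) := by positivity
    calc 2 * α * Real.sinh (α * r) / Real.exp (α * R) * (Real.cosh (α * R) - 1) ≤
        2 * α * Real.sinh (α * r) / Real.exp (α * R) * (Real.exp (α * R) / 2) :=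
          mul_le_mul_of_nonneg_left hD2 h3
      _ = α * Real.sinh (α * r) := by field_simp

theorem t_RSM : S_RSM := by
  intro ζ α hA r0
  obtain ⟨C, hC, hb⟩ := t_RHO ζ α hA
  obtain ⟨hζ, -, hα, hz⟩ := hA
  set m : ℝ := max r0 0 with hm
  have hm0 : 0 ≤ m := le_max_right _ _
  set p : ℝ := 2 * α / ζ with hp
  have hp1 : 0 < p - 1 := by
    rw [div_lt_iff₀ hα] at hz
    have : 1 < 2 * α / ζ := by rw [lt_div_iff₀ hζ]; linarith
    linarith
  have key : ∀ N : ℕ, 2 ≤ N → (radial ζ α N (Iic r0)).toReal ≤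
      C * Real.exp (α * m) * m * Real.exp (-(α * Rad ζ N)) := by
    intro N hN
    refine ENNReal.toReal_le_of_le_ofReal (by positivity) ?_
    rw [radial, withDensity_apply _ measurableSet_Iic, Measure.restrict_restrict measurableSet_Iic]
    calc ∫⁻ r in Iic r0 ∩ Icc 0 (Rad ζ N), ENNReal.ofReal (rho ζ α N r)
        ≤ ∫⁻ r in Iic r0 ∩ Icc 0 (Rad ζ N),
            ENNReal.ofReal (C * Real.exp (α * m) * Real.exp (-(α * Rad ζ N))) := by
          refine setLIntegral_mono' (measurableSet_Iic.inter measurableSet_Icc) fun r hr => ?_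
          refine ENNReal.ofReal_le_ofReal (((hb N hN r hr.2).1).trans ?_)
          rw [mul_assoc, ← Real.exp_add]
          refine mul_le_mul_of_nonneg_left (Real.exp_le_exp.2 ?_) hC.le
          have h1 : r ≤ m := le_trans hr.1 (le_max_left _ _)
          nlinarith
      _ = ENNReal.ofReal (C * Real.exp (α * m) * Real.exp (-(α * Rad ζ N))) *
            volume (Iic r0 ∩ Icc 0 (Rad ζ N)) := setLIntegral_const _ _
      _ ≤ ENNReal.ofReal (C * Real.exp (α * m) * Real.exp (-(α * Rad ζ N))) *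
            volume (Icc 0 m) := by
          refine mul_le_mul_right (measure_mono ?_) _
          intro r hr
          exact ⟨hr.2.1, le_trans hr.1 (le_max_left _ _)⟩
      _ = ENNReal.ofReal (C * Real.exp (α * m) * m * Real.exp (-(α * Rad ζ N))) := by
          rw [Real.volume_Icc, ← ENNReal.ofReal_mul (by positivity)]
          congr 1
          ring
  have hlim : Tendsto (fun N : ℕ => (C * Real.exp (α * m) * m) *
      (Real.log N / (N : ℝ) ^ (p - 1))) atTop (𝓝 0) := by
    have h1 := (isLittleO_log_rpow_atTop hp1).tendsto_div_nhds_zero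
    have h2 := (h1.comp tendsto_natCast_atTop_atTop).const_mul (C * Real.exp (α * m) * m)
    rw [mul_zero] at h2
    exact h2
  refine tendsto_of_tendsto_of_tendsto_of_le_of_le' tendsto_const_nhds hlim ?_ ?_
  · filter_upwards [eventually_ge_atTop 2] with N hN
    have : 0 ≤ Real.log N := Real.log_nonneg (by
      have : (2 : ℝ) ≤ N := by exact_mod_cast hN
      linarith)
    positivity
  · filter_upwards [eventually_ge_atTop 2] with N hN
    have hN2 : (2 : ℝ) ≤ N := by exact_mod_cast hN
    have hN0 : (0 : ℝ) < N := by linarith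
    have hlog : 0 ≤ Real.log N := Real.log_nonneg (by linarith)
    have e1 : Real.exp (-(α * Rad ζ N)) = (N : ℝ) ^ (-p) := by
      rw [Real.rpow_def_of_pos hN0]
      congr 1
      unfold Rad
      rw [hp]
      field_simp
    have e2 : (N : ℝ) * (N : ℝ) ^ (-p) = 1 / (N : ℝ) ^ (p - 1) := by
      rw [one_div, ← Real.rpow_neg hN0.le]
      conv_lhs => rw [← Real.rpow_one (N : ℝ)]
      rw [Real.rpow_one, ← Real.rpow_one_add' hN0.le]
      · congr 1
        ring
      · intro h
        linarith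
    calc (N : ℝ) * Real.log N * (radial ζ α N (Iic r0)).toReal
        ≤ (N : ℝ) * Real.log N * (C * Real.exp (α * m) * m * Real.exp (-(α * Rad ζ N))) :=
          mul_le_mul_of_nonneg_left (key N hN) (by positivity)
      _ = (C * Real.exp (α * m) * m) * (Real.log N * ((N : ℝ) * (N : ℝ) ^ (-p))) := by
          rw [e1]; ring
      _ = (C * Real.exp (α * m) * m) * (Real.log N / (N : ℝ) ^ (p - 1)) := by
          rw [e2]; ring

end HG
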