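import Pool.Agent.R985.HG.Defs

open MeasureTheory Set Filter
open scoped ENNReal Topology BigOperators Real

namespace HG

theorem ROT_meas (t : ℝ) : Measurable (fun s => rel t s) := by
  unfold rel
  fun_prop

theorem ROT_vol (t c : ℝ) (ht : t ∈ Ioc (0:ℝ) (2 * π)) (hc : 0 ≤ c) (hc' : c < π) :
    volume ({s | rel t s ≤ c} ∩ Ioc 0 (2 * π)) = ENNReal.ofReal (2 * c) := by
  obtain ⟨ht0, ht1⟩ := ht
  have hpi := Real.pi_pos
  by_cases h1 : t - c ≤ 0
  · have hset : {s | rel t s ≤ c} ∩ Ioc 0 (2 * π) = Ioc 0 (t + c) ∪ Icc (t + 2 * π - c) (2 * π) := by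
      ext s
      simp only [mem_inter_iff, mem_setOf_eq, mem_Ioc, mem_union, mem_Icc, rel]
      constructor
      · rintro ⟨h, hs0, hs1⟩
        rcases abs_cases (t - s) with ⟨e1, e2⟩ | ⟨e1, e2⟩ <;> rw [e1] at h
        · rcases abs_cases (π - (t - s)) with ⟨e3, e4⟩ | ⟨e3, e4⟩ <;> rw [e3] at h
          · left; constructor <;> linarith
          · left; constructor <;> linarith
        · rcases abs_cases (π - -(t - s)) with ⟨e3, e4⟩ | ⟨e3, e4⟩ <;> rw [e3] at h
          · left; constructor <;> linarith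
          · right; constructor <;> linarith
      · rintro (⟨h2, h3⟩ | ⟨h2, h3⟩)
        · refine ⟨?_, by linarith, by linarith⟩
          rcases abs_cases (t - s) with ⟨e1, e2⟩ | ⟨e1, e2⟩ <;> rw [e1]
          · rcases abs_cases (π - (t - s)) with ⟨e3, e4⟩ | ⟨e3, e4⟩ <;> rw [e3] <;> linarith
          · rcases abs_cases (π - -(t - s)) with ⟨e3, e4⟩ | ⟨e3, e4⟩ <;> rw [e3] <;> linarith
        · refine ⟨?_, by linarith, by linarith⟩
          rcases abs_cases (t - s) with ⟨e1, e2⟩ | ⟨e1, e2⟩ <;> rw [e1]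
          · rcases abs_cases (π - (t - s)) with ⟨e3, e4⟩ | ⟨e3, e4⟩ <;> rw [e3] <;> linarith
          · rcases abs_cases (π - -(t - s)) with ⟨e3, e4⟩ | ⟨e3, e4⟩ <;> rw [e3] <;> linarith
    rw [hset, measure_union _ measurableSet_Icc, Real.volume_Ioc, Real.volume_Icc,
      ← ENNReal.ofReal_add (by linarith) (by linarith)]
    · congr 1; ring
    · rw [Set.disjoint_left]
      intro s h2 h3
      simp only [mem_Ioc, mem_Icc] at h2 h3
      linarith [h2.2, h3.1]
  · push Not at h1
    by_cases h2 : t + c ≤ 2 * π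
    · have hset : {s | rel t s ≤ c} ∩ Ioc 0 (2 * π) = Icc (t - c) (t + c) := by
        ext s
        simp only [mem_inter_iff, mem_setOf_eq, mem_Ioc, mem_Icc, rel]
        constructor
        · rintro ⟨h, hs0, hs1⟩
          rcases abs_cases (t - s) with ⟨e1, e2⟩ | ⟨e1, e2⟩ <;> rw [e1] at h
          · rcases abs_cases (π - (t - s)) with ⟨e3, e4⟩ | ⟨e3, e4⟩ <;> rw [e3] at h
            · constructor <;> linarith
            · constructor <;> linarith
          · rcases abs_cases (π - -(t - s)) with ⟨e3, e4⟩ | ⟨e3, e4⟩ <;> rw [e3] at h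
            · constructor <;> linarith
            · constructor <;> linarith
        · rintro ⟨h2, h3⟩
          refine ⟨?_, by linarith, by linarith⟩
          rcases abs_cases (t - s) with ⟨e1, e2⟩ | ⟨e1, e2⟩ <;> rw [e1]
          · rcases abs_cases (π - (t - s)) with ⟨e3, e4⟩ | ⟨e3, e4⟩ <;> rw [e3] <;> linarith
          · rcases abs_cases (π - -(t - s)) with ⟨e3, e4⟩ | ⟨e3, e4⟩ <;> rw [e3] <;> linarith
      rw [hset, Real.volume_Icc]
      congr 1; ring
    · push Not at h2
      have hset : {s | rel t s ≤ c} ∩ Ioc 0 (2 * π) = Ioc 0 (t + c - 2 * π) ∪ Icc (t - c) (2 * π) := by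
        ext s
        simp only [mem_inter_iff, mem_setOf_eq, mem_Ioc, mem_union, mem_Icc, rel]
        constructor
        · rintro ⟨h, hs0, hs1⟩
          rcases abs_cases (t - s) with ⟨e1, e2⟩ | ⟨e1, e2⟩ <;> rw [e1] at h
          · rcases abs_cases (π - (t - s)) with ⟨e3, e4⟩ | ⟨e3, e4⟩ <;> rw [e3] at h
            · right; constructor <;> linarith
            · left; constructor <;> linarith
          · rcases abs_cases (π - -(t - s)) with ⟨e3, e4⟩ | ⟨e3, e4⟩ <;> rw [e3] at h
            · right; constructor <;> linarith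
            · right; constructor <;> linarith
        · rintro (⟨h2, h3⟩ | ⟨h2, h3⟩)
          · refine ⟨?_, by linarith, by linarith⟩
            rcases abs_cases (t - s) with ⟨e1, e2⟩ | ⟨e1, e2⟩ <;> rw [e1]
            · rcases abs_cases (π - (t - s)) with ⟨e3, e4⟩ | ⟨e3, e4⟩ <;> rw [e3] <;> linarith
            · rcases abs_cases (π - -(t - s)) with ⟨e3, e4⟩ | ⟨e3, e4⟩ <;> rw [e3] <;> linarith
          · refine ⟨?_, by linarith, by linarith⟩
            rcases abs_cases (t - s) with ⟨e1, e2⟩ | ⟨e1, e2⟩ <;> rw [e1]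
            · rcases abs_cases (π - (t - s)) with ⟨e3, e4⟩ | ⟨e3, e4⟩ <;> rw [e3] <;> linarith
            · rcases abs_cases (π - -(t - s)) with ⟨e3, e4⟩ | ⟨e3, e4⟩ <;> rw [e3] <;> linarith
      rw [hset, measure_union _ measurableSet_Icc, Real.volume_Ioc, Real.volume_Icc,
        ← ENNReal.ofReal_add (by linarith) (by linarith)]
      · congr 1; ring
      · rw [Set.disjoint_left]
        intro s h2 h3
        simp only [mem_Ioc, mem_Icc] at h2 h3
        linarith [h2.2, h3.1]

theorem ROT_bounds (t s : ℝ) (ht : t ∈ Ioc (0:ℝ) (2 * π)) (hs : s ∈ Ioc (0:ℝ) (2 * π)) :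
    0 ≤ rel t s ∧ rel t s ≤ π := by
  obtain ⟨ht0, ht1⟩ := ht
  obtain ⟨hs0, hs1⟩ := hs
  unfold rel
  constructor
  · rcases abs_cases (t - s) with ⟨e1, e2⟩ | ⟨e1, e2⟩ <;> rw [e1]
    · rcases abs_cases (π - (t - s)) with ⟨e3, e4⟩ | ⟨e3, e4⟩ <;> rw [e3] <;> linarith
    · rcases abs_cases (π - -(t - s)) with ⟨e3, e4⟩ | ⟨e3, e4⟩ <;> rw [e3] <;> linarith
  · linarith [abs_nonneg (π - |t - s|)]

theorem t_ROT : S_ROT := by
  intro t ht
  have hpi := Real.pi_pos
  have h2pi : (0:ℝ) < 2 * π := by linarith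
  haveI : IsFiniteMeasure (Measure.map (fun s => rel t s) angular) := by
    constructor
    rw [Measure.map_apply (ROT_meas t) MeasurableSet.univ, preimage_univ]
    unfold angular
    rw [Measure.smul_apply, Measure.restrict_apply MeasurableSet.univ, univ_inter, Real.volume_Ioc,
      smul_eq_mul]
    refine ENNReal.mul_lt_top ?_ ENNReal.ofReal_lt_top
    rw [ENNReal.inv_lt_top]
    exact ENNReal.ofReal_pos.2 h2pi
  refine Measure.ext_of_Iic _ _ fun c => ?_
  rw [Measure.map_apply (ROT_meas t) measurableSet_Iic]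
  unfold angular
  rw [Measure.smul_apply, Measure.smul_apply,
    Measure.restrict_apply ((ROT_meas t) measurableSet_Iic),
    Measure.restrict_apply measurableSet_Iic, smul_eq_mul, smul_eq_mul]
  have hpre : (fun s => rel t s) ⁻¹' Iic c = {s | rel t s ≤ c} := rfl
  rw [hpre]
  rcases lt_or_ge c 0 with hc | hc
  · have e1 : {s | rel t s ≤ c} ∩ Ioc 0 (2 * π) = ∅ := by
      ext s
      simp only [mem_inter_iff, mem_setOf_eq, mem_empty_iff_false, iff_false, not_and]
      intro h hs
      linarith [(ROT_bounds t s ht hs).1]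
    have e2 : Iic c ∩ Icc 0 π = ∅ := by
      ext s
      simp only [mem_inter_iff, mem_Iic, mem_Icc, mem_empty_iff_false, iff_false, not_and]
      intro h hs
      linarith
    rw [e1, e2]; simp
  · rcases lt_or_ge c π with hc' | hc'
    · rw [ROT_vol t c ht hc hc']
      have e2 : Iic c ∩ Icc 0 π = Icc 0 c := by
        ext s
        simp only [mem_inter_iff, mem_Iic, mem_Icc]
        constructor
        · rintro ⟨h1, h2, h3⟩; exact ⟨h2, h1⟩
        · rintro ⟨h1, h2⟩; exact ⟨h2, h1, by linarith⟩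
      rw [e2, Real.volume_Icc, ← ENNReal.ofReal_inv_of_pos h2pi, ← ENNReal.ofReal_inv_of_pos hpi,
        ← ENNReal.ofReal_mul (by positivity), ← ENNReal.ofReal_mul (by positivity)]
      congr 1
      field_simp
      ring
    · have e1 : {s | rel t s ≤ c} ∩ Ioc 0 (2 * π) = Ioc 0 (2 * π) := by
        ext s
        simp only [mem_inter_iff, mem_setOf_eq, and_iff_right_iff_imp]
        intro hs
        linarith [(ROT_bounds t s ht hs).2]
      have e2 : Iic c ∩ Icc 0 π = Icc 0 π := by
        ext s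
        simp only [mem_inter_iff, mem_Iic, mem_Icc, and_iff_right_iff_imp]
        rintro ⟨h1, h2⟩; linarith
      rw [e1, e2, Real.volume_Icc, Real.volume_Ioc, ← ENNReal.ofReal_inv_of_pos h2pi,
        ← ENNReal.ofReal_inv_of_pos hpi,
        ← ENNReal.ofReal_mul (by positivity), ← ENNReal.ofReal_mul (by positivity)]
      congr 1
      field_simp
      ring

end HG
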