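import Pool.Agent.R985.HG.Defs

/-!
# HG-SM: the second moment method
-/

open MeasureTheory Set Filter

namespace HG

theorem t_SM : S_SM := by
  intro Ω _ μ _ N hN A hA e1 e2 he1 he2 h1 h2
  classical
  set c : ℝ := N * e1 with hc
  have hNpos : (0 : ℝ) < N := by exact_mod_cast hN
  have hcpos : 0 < c := by positivity
  set Z : Set Ω := {ω | ∀ i, ω ∉ A i} with hZ
  have hZm : MeasurableSet Z := by
    have : Z = ⋂ i, (A i)ᶜ := by
      ext ω
      simp [hZ]
    rw [this]
    exact MeasurableSet.iInter fun i => (hA i).compl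
  let I : Set Ω → Ω → ℝ := fun S => S.indicator fun _ => (1 : ℝ)
  have hint : ∀ S : Set Ω, MeasurableSet S → Integrable (I S) μ := fun S hS =>
    (integrable_const (1 : ℝ)).indicator hS
  have hI : ∀ S : Set Ω, MeasurableSet S → ∫ ω, I S ω ∂μ = (μ S).toReal := fun S hS => by
    have := integral_indicator_one (μ := μ) hS
    exact this
  -- the pointwise inequality
  have hpt : ∀ ω, c ^ 2 * I Z ω ≤
      (∑ i, ∑ j, I (A i ∩ A j) ω) - 2 * c * (∑ i, I (A i) ω) + c ^ 2 := by
    intro ω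
    have e : ∑ i, ∑ j, I (A i ∩ A j) ω = (∑ i, I (A i) ω) ^ 2 := by
      rw [sq, Finset.sum_mul_sum]
      refine Finset.sum_congr rfl fun i _ => Finset.sum_congr rfl fun j _ => ?_
      show (A i ∩ A j).indicator (fun _ => (1 : ℝ)) ω =
        (A i).indicator (fun _ => (1 : ℝ)) ω * (A j).indicator (fun _ => (1 : ℝ)) ω
      by_cases hi : ω ∈ A i <;> by_cases hj : ω ∈ A j <;> simp [hi, hj]
    rw [e]
    by_cases hω : ω ∈ Z
    · have h0 : ∑ i, I (A i) ω = 0 := Finset.sum_eq_zero fun i _ =>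
        Set.indicator_of_notMem (hω i) _
      have h3 : I Z ω = 1 := Set.indicator_of_mem hω _
      rw [h0, h3]
      nlinarith
    · have h3 : I Z ω = 0 := Set.indicator_of_notMem hω _
      rw [h3]
      nlinarith [sq_nonneg ((∑ i, I (A i) ω) - c)]
  have i1 : Integrable (fun ω => ∑ i, I (A i) ω) μ :=
    integrable_finsetSum _ fun i _ => hint _ (hA i)
  have i2 : Integrable (fun ω => ∑ i, ∑ j, I (A i ∩ A j) ω) μ :=
    integrable_finsetSum _ fun i _ => integrable_finsetSum _ fun j _ =>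
      hint _ ((hA i).inter (hA j))
  have i3 : Integrable (fun ω => (∑ i, ∑ j, I (A i ∩ A j) ω) - 2 * c * (∑ i, I (A i) ω)) μ :=
    i2.sub (i1.const_mul _)
  have hle : ∫ ω, c ^ 2 * I Z ω ∂μ ≤
      ∫ ω, ((∑ i, ∑ j, I (A i ∩ A j) ω) - 2 * c * (∑ i, I (A i) ω) + c ^ 2) ∂μ :=
    integral_mono ((hint Z hZm).const_mul _) (i3.add (integrable_const _)) hpt
  rw [integral_const_mul, hI Z hZm, integral_add i3 (integrable_const _),
    integral_sub i2 (i1.const_mul _), integral_const_mul,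
    integral_finsetSum _ (fun i _ => hint _ (hA i)),
    integral_finsetSum _ (fun i _ => integrable_finsetSum _ fun j _ =>
      hint _ ((hA i).inter (hA j)))] at hle
  have s1 : ∑ i, ∫ ω, I (A i) ω ∂μ = c := by
    rw [Finset.sum_congr rfl fun i _ => (hI _ (hA i)).trans (h1 i)]
    simp [hc]
  have s2 : ∑ i, ∫ ω, ∑ j, I (A i ∩ A j) ω ∂μ ≤ N * e1 + N ^ 2 * e2 := by
    have hrow : ∀ i, ∫ ω, ∑ j, I (A i ∩ A j) ω ∂μ ≤ e1 + N * e2 := by
      intro i
      rw [integral_finsetSum _ (fun j _ => hint _ ((hA i).inter (hA j)))]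
      have hj : ∀ j ∈ (Finset.univ : Finset (Fin N)), ∫ ω, I (A i ∩ A j) ω ∂μ ≤
          (if j = i then e1 else 0) + e2 := by
        intro j _
        rw [hI _ ((hA i).inter (hA j))]
        by_cases hij : j = i
        · subst hij
          rw [if_pos rfl, inter_self, h1]
          linarith
        · rw [if_neg hij, zero_add]
          exact h2 i j (Ne.symm hij)
      refine (Finset.sum_le_sum hj).trans ?_
      rw [Finset.sum_add_distrib]
      simp
    refine (Finset.sum_le_sum fun i _ => hrow i).trans ?_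
    rw [Finset.sum_const, Finset.card_univ, Fintype.card_fin, nsmul_eq_mul]
    apply le_of_eq
    ring
  rw [s1] at hle
  have s3 : ∫ _ω : Ω, c ^ 2 ∂μ = c ^ 2 := by simp
  rw [s3] at hle
  have hfin : c ^ 2 * (μ Z).toReal ≤ N * e1 + N ^ 2 * e2 - c ^ 2 := by nlinarith
  have hgoal : 1 / (N * e1) + (e2 / e1 ^ 2 - 1) = (N * e1 + N ^ 2 * e2 - c ^ 2) / c ^ 2 := by
    rw [hc]
    field_simp
    ring
  rw [hgoal, le_div_iff₀ (by positivity)]
  linarith

end HG
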