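import Pool.Agent.R985.HG.Defs

open MeasureTheory Set Filter
open scoped ENNReal Topology BigOperators Real

namespace HG

theorem SMALL_qq (N : ℕ) (hN : 2 ≤ N) : 0 < qq N ∧ qq N ≤ 1 / 8 := by
  unfold qq
  have h : (2:ℝ) ≤ N := by exact_mod_cast hN
  constructor
  · positivity
  · rw [div_le_div_iff₀ (by positivity) (by norm_num)]; linarith

theorem SMALL_kap (hE : S_PEL) (ζ : ℝ) (hζ : 0 < ζ) (N : ℕ) (hN : 2 ≤ N) (u v : ℝ × ℝ) :
    0 ≤ 1 - prob1 ζ N u v ∧ 1 - prob1 ζ N u v ≤ 2 := by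
  obtain ⟨h1, h2⟩ := SMALL_qq N hN
  obtain ⟨h3, h4⟩ := (hE ζ hζ N hN).1 u v
  have h6 : 1 - qq N ≠ 0 := by linarith
  have h5 : 1 - prob1 ζ N u v = (1 - prob ζ 1 N u v) / (1 - qq N) := by
    unfold prob1; field_simp; ring
  rw [h5]
  constructor
  · apply div_nonneg <;> linarith
  · rw [div_le_iff₀ (by linarith)]; linarith

theorem SMALL_point (N k : ℕ) (hN : 2 ≤ N) (hk : 1 ≤ k) (hkN : k ≤ N) (A C1 I : ℝ) (hC1 : 0 < C1)
    (hA : 0 ≤ A) (hI0 : 0 ≤ I) (hI : I ≤ 1 - A / N * (Real.log (N / k) - C1)) :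
    I ^ (N - k) ≤ Real.exp (-(A * (Real.log (N / k) - C1 - 1))) := by
  have hNp : (0:ℝ) < N := by exact_mod_cast (by omega : 0 < N)
  have hkp : (0:ℝ) < k := by exact_mod_cast (by omega : 0 < k)
  have h1 : I ≤ Real.exp (-(A / N * (Real.log (N / k) - C1))) :=
    le_trans hI (Real.one_sub_le_exp_neg _)
  calc I ^ (N - k) ≤ (Real.exp (-(A / N * (Real.log (N / k) - C1)))) ^ (N - k) :=
        pow_le_pow_left₀ hI0 h1 _
    _ = Real.exp (((N - k : ℕ) : ℝ) * (-(A / N * (Real.log (N / k) - C1)))) := by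
        rw [← Real.exp_nat_mul]
    _ ≤ _ := by
        apply Real.exp_le_exp.2
        rw [Nat.cast_sub hkN]
        have h2 : Real.log (N / k) ≤ (N:ℝ) / k := by
          have := Real.log_le_sub_one_of_pos (by positivity : (0:ℝ) < (N:ℝ) / k)
          linarith
        have h3 : (k:ℝ) / N * Real.log (N / k) ≤ 1 := by
          calc (k:ℝ) / N * Real.log (N / k) ≤ (k:ℝ) / N * ((N:ℝ) / k) :=
                mul_le_mul_of_nonneg_left h2 (by positivity)
            _ = 1 := by field_simp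
        have h4 : ((N:ℝ) - k) * (-(A / N * (Real.log (N / k) - C1)))
            = -(A * ((1 - k / N) * (Real.log (N / k) - C1))) := by
          field_simp
        rw [h4]
        apply neg_le_neg
        apply mul_le_mul_of_nonneg_left _ hA
        have h5 : 0 ≤ (k:ℝ) / N * C1 := by positivity
        nlinarith

theorem SMALL_bound (hP : S_PM) (hA : S_AE) (hME : S_MEAS) (hG : S_GM) (hE : S_PEL)
    (hC : S_CUT) (hB : S_BOX) {ζ α : ℝ} (hAd : Adm ζ α) {N : ℕ} (hN : 2 ≤ N) {C1 : ℝ}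
    (hC1 : 0 < C1)
    (hI : ∀ S : Finset (Fin N), S.Nonempty → ∀ x : Fin N → ℝ × ℝ, (∀ i, x i ∈ disc ζ N) →
      ∫ y, ∏ i ∈ S, (1 - prob1 ζ N (x i) y) ∂(pt ζ α N)
        ≤ 1 - (∑ i ∈ S, min (wt ζ N (x i).1) 2) / N * (Real.log (N / S.card) - C1))
    (S : Finset (Fin N)) (hS : S.Nonempty) (hB1 : 1 ≤ Real.log (N / S.card) - C1 - 1) :
    model ζ α N {ω | IsCut (gr (fun e => (eprob ζ 1 N ω.1 e - qq N) / (1 - qq N)) ω.2) S} ≤
      ENNReal.ofReal ((∫ u, Real.exp (-(min (wt ζ N u.1) 2 *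
        (Real.log (N / S.card) - C1 - 1))) ∂(pt ζ α N)) ^ S.card) := by
  have hζ := hAd.z0
  have := (hP ζ α hAd N hN).2.2
  have hthr : SigmaFinite (thr N) := by unfold thr; infer_instance
  obtain ⟨hq0, hq1⟩ := SMALL_qq N hN
  obtain ⟨κ, hκ⟩ : ∃ κ : (ℝ × ℝ) → (ℝ × ℝ) → ℝ, κ = fun u v => 1 - prob1 ζ N u v := ⟨_, rfl⟩
  have hκm : Measurable (fun w : (ℝ × ℝ) × (ℝ × ℝ) => κ w.1 w.2) := by
    have := hME ζ N
    simp only [hκ, prob1]
    exact ((this.sub_const _).div_const _).const_sub _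
  have hκb : ∀ u v, 0 ≤ κ u v ∧ κ u v ≤ 2 := by
    intro u v; rw [hκ]; exact SMALL_kap hE ζ hζ N hN u v
  have hae : ∀ᵐ x ∂(Measure.pi fun _ : Fin N => pt ζ α N), ∀ i, x i ∈ disc ζ N := by
    rw [ae_all_iff]
    intro i
    exact (Measure.tendsto_eval_ae_ae (μ := fun _ : Fin N => pt ζ α N) (i := i)).eventually
      (hA ζ α hAd N hN)
  have hmeas := hG N (qq N) (1 - qq N) ζ {G | IsCut G S}
  have h1 : model ζ α N {ω | IsCut (gr (fun e => (eprob ζ 1 N ω.1 e - qq N) / (1 - qq N)) ω.2) S}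
      = ∫⁻ x, ENNReal.ofReal (∏ i ∈ S, ∏ j ∈ Sᶜ, κ (x i) (x j))
        ∂(Measure.pi fun _ : Fin N => pt ζ α N) := by
    unfold model
    refine (Measure.prod_apply hmeas).trans ?_
    refine lintegral_congr_ae ?_
    filter_upwards [hae] with x hx
    refine (hB N (fun e => (eprob ζ 1 N x e - qq N) / (1 - qq N)) ?_ S ?_).trans ?_
    · intro e
      induction e using Sym2.ind with
      | _ i j =>
        have h3 := (hE ζ hζ N hN).1 (x i) (x j)
        change (prob ζ 1 N (x i) (x j) - qq N) / (1 - qq N) ≤ 1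
        rw [div_le_one (by linarith)]
        linarith [h3.2]
    · intro i _ j _
      change 0 ≤ (prob ζ 1 N (x i) (x j) - qq N) / (1 - qq N)
      have h3 := (hE ζ hζ N hN).2 (x i) (hx i) (x j) (hx j)
      apply div_nonneg <;> linarith
    · rw [hκ]; rfl
  have hF : Measurable fun x : Fin N → ℝ × ℝ => ∏ i ∈ S, ∏ j ∈ Sᶜ, κ (x i) (x j) :=
    Finset.measurable_fun_prod _ fun i _ => Finset.measurable_fun_prod _ fun j _ =>
      Measurable.comp (g := fun w : (ℝ × ℝ) × (ℝ × ℝ) => κ w.1 w.2)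
        (f := fun x : Fin N → ℝ × ℝ => (x i, x j)) hκm
        ((measurable_pi_apply i).prodMk (measurable_pi_apply j))
  have hFn : ∀ x : Fin N → ℝ × ℝ, 0 ≤ ∏ i ∈ S, ∏ j ∈ Sᶜ, κ (x i) (x j) := fun x =>
    Finset.prod_nonneg fun i _ => Finset.prod_nonneg fun j _ => (hκb _ _).1
  have hFi : Integrable (fun x : Fin N → ℝ × ℝ => ∏ i ∈ S, ∏ j ∈ Sᶜ, κ (x i) (x j))
      (Measure.pi fun _ : Fin N => pt ζ α N) := by
    refine Integrable.of_bound hF.aestronglyMeasurable (∏ i ∈ S, ∏ j ∈ Sᶜ, (2:ℝ))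
      (ae_of_all _ fun x => ?_)
    rw [Real.norm_of_nonneg (hFn x)]
    exact Finset.prod_le_prod (fun i _ => Finset.prod_nonneg fun j _ => (hκb _ _).1)
      fun i _ => Finset.prod_le_prod (fun j _ => (hκb _ _).1) fun j _ => (hκb _ _).2
  rw [h1, ← ofReal_integral_eq_lintegral_ofReal hFi (ae_of_all _ hFn)]
  apply ENNReal.ofReal_le_ofReal
  have h2 := hC N (pt ζ α N) this κ hκm hκb (fun _ => 1) measurable_const
    (fun _ => ⟨zero_le_one, le_rfl⟩) S
  simp only [Finset.prod_const_one, one_mul] at h2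
  rw [h2]
  have hg : Measurable fun u : ℝ × ℝ => Real.exp (-(min (wt ζ N u.1) 2 *
        (Real.log (N / S.card) - C1 - 1))) := by
    unfold wt; fun_prop
  have hg1 : ∀ u : ℝ × ℝ, Real.exp (-(min (wt ζ N u.1) 2 *
        (Real.log (N / S.card) - C1 - 1))) ≤ 1 := by
    intro u
    rw [Real.exp_le_one_iff]
    have : 0 ≤ min (wt ζ N u.1) 2 := le_min (Real.exp_pos _).le (by norm_num)
    have := mul_nonneg this (by linarith : 0 ≤ Real.log (N / S.card) - C1 - 1)
    linarith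
  have hcard : S.card ≤ N := by simpa using S.card_le_univ
  have hk1 : 1 ≤ S.card := hS.card_pos
  have h3 : ∫ x, (∫ y, ∏ i ∈ S, κ (x i) y ∂(pt ζ α N)) ^ (N - S.card)
        ∂(Measure.pi fun _ : Fin N => pt ζ α N)
      ≤ ∫ x, ∏ i ∈ S, Real.exp (-(min (wt ζ N (x i).1) 2 *
        (Real.log (N / S.card) - C1 - 1))) ∂(Measure.pi fun _ : Fin N => pt ζ α N) := by
    refine integral_mono_of_nonneg (ae_of_all _ fun x => ?_) ?_ ?_
    · exact pow_nonneg (integral_nonneg fun y => Finset.prod_nonneg fun i _ => (hκb _ _).1) _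
    · refine Integrable.of_bound (Measurable.aestronglyMeasurable ?_) 1 (ae_of_all _ fun x => ?_)
      · exact Finset.measurable_fun_prod _ fun i _ => hg.comp (measurable_pi_apply i)
      · rw [Real.norm_of_nonneg (Finset.prod_nonneg fun i _ => (Real.exp_pos _).le)]
        exact Finset.prod_le_one (fun i _ => (Real.exp_pos _).le) fun i _ => hg1 (x i)
    · filter_upwards [hae] with x hx
      rw [← Real.exp_sum, Finset.sum_neg_distrib, ← Finset.sum_mul]
      exact SMALL_point N S.card hN hk1 hcard _ C1 _ hC1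
        (Finset.sum_nonneg fun i _ => le_min (Real.exp_pos _).le (by norm_num))
        (integral_nonneg fun y => Finset.prod_nonneg fun i _ => (hκb _ _).1)
        (by rw [hκ]; exact hI S hS x hx)
  refine h3.trans (le_of_eq ?_)
  have h4 := integral_fintype_prod_eq_prod (𝕜 := ℝ) (μ := fun _ : Fin N => pt ζ α N)
    (fun (i : Fin N) (u : ℝ × ℝ) => if i ∈ S then Real.exp (-(min (wt ζ N u.1) 2 *
        (Real.log (N / S.card) - C1 - 1))) else 1)
  have h5 : ∀ x : Fin N → ℝ × ℝ, (∏ i, if i ∈ S then Real.exp (-(min (wt ζ N (x i).1) 2 *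
        (Real.log (N / S.card) - C1 - 1))) else 1) = ∏ i ∈ S, Real.exp (-(min (wt ζ N (x i).1) 2 *
        (Real.log (N / S.card) - C1 - 1))) := by
    intro x
    rw [Finset.prod_ite_mem, Finset.univ_inter]
  simp only [h5] at h4
  rw [h4]
  have h6 : ∀ i : Fin N, ∫ u, (if i ∈ S then Real.exp (-(min (wt ζ N u.1) 2 *
        (Real.log (N / S.card) - C1 - 1))) else 1) ∂(pt ζ α N)
      = if i ∈ S then ∫ u, Real.exp (-(min (wt ζ N u.1) 2 *
        (Real.log (N / S.card) - C1 - 1))) ∂(pt ζ α N) else 1 := by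
    intro i
    split_ifs
    · rfl
    · simp
  rw [Finset.prod_congr rfl fun i _ => h6 i, Finset.prod_ite_mem, Finset.univ_inter,
    Finset.prod_const]

theorem SMALL_real (N k : ℕ) (hN : 2 ≤ N) (hk : 1 ≤ k) (C1 C2 C δ J : ℝ) (hC1 : 0 < C1)
    (hC2 : 0 < C2) (hCa : C2 * Real.exp (C1 + 1) ≤ C) (hCb : C1 + 1 ≤ C) (hδ : 0 < δ)
    (hδC : C + 1 ≤ Real.log (1 / δ)) (hk2 : k ≤ ⌊δ * N⌋₊)
    (hJ : 1 ≤ Real.log (N / k) - C1 - 1 → J ≤ C2 * Real.exp (-(Real.log (N / k) - C1 - 1)) /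
      (Real.log (N / k) - C1 - 1)) :
    1 ≤ Real.log (N / k) - C1 - 1 ∧ J ≤ C * (k / N) / (Real.log (N / k) - C) ∧
      0 ≤ C * (k / N) / (Real.log (N / k) - C) := by
  have hNp : (0:ℝ) < N := by exact_mod_cast (by omega : 0 < N)
  have hkp : (0:ℝ) < k := by exact_mod_cast (by omega : 0 < k)
  have h1 : (k:ℝ) ≤ δ * N := by
    have h2 : ((⌊δ * N⌋₊ : ℕ) : ℝ) ≤ δ * N := Nat.floor_le (by positivity)
    have h3 : (k:ℝ) ≤ ((⌊δ * N⌋₊ : ℕ) : ℝ) := by exact_mod_cast hk2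
    linarith
  have h2 : Real.log (1 / δ) ≤ Real.log (N / k) := by
    apply Real.log_le_log (by positivity)
    rw [div_le_div_iff₀ hδ hkp]; linarith
  have hCpos : 0 < C := by linarith
  have h3 : 1 ≤ Real.log (N / k) - C := by linarith
  have h4 : 1 ≤ Real.log (N / k) - C1 - 1 := by linarith
  refine ⟨h4, (hJ h4).trans ?_, ?_⟩
  · have h5 : Real.exp (-(Real.log (N / k) - C1 - 1)) = Real.exp (C1 + 1) * (k / N) := by
      have h6 : -(Real.log (N / k) - C1 - 1) = (C1 + 1) + (-Real.log (N / k)) := by ring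
      rw [h6, Real.exp_add, Real.exp_neg, Real.exp_log (by positivity), inv_div]
    rw [h5]
    apply div_le_div₀ (by positivity) _ (by linarith) (by linarith)
    rw [← mul_assoc]
    exact mul_le_mul_of_nonneg_right hCa (by positivity)
  · exact div_nonneg (by positivity) (by linarith)

theorem t_SMALL (hP : S_PM) (hA : S_AE) (hME : S_MEAS) (hG : S_GM) (hE : S_PEL) (hI : S_INNER)
    (hC : S_CUT) (hB : S_BOX) (hL : S_LAP) (hS : S_SUM) : S_SMALL := by
  intro ζ α hAd h2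
  obtain ⟨C1, hC1, hI1⟩ := hI ζ α hAd h2
  obtain ⟨C2, hC2, hL1⟩ := hL ζ α hAd
  obtain ⟨C, hCa, hCb⟩ : ∃ C : ℝ, C2 * Real.exp (C1 + 1) ≤ C ∧ C1 + 1 ≤ C :=
    ⟨max (C2 * Real.exp (C1 + 1)) (C1 + 1), le_max_left _ _, le_max_right _ _⟩
  obtain ⟨δ, hδ, hδ2, hδC, hT⟩ := hS C (by linarith)
  refine ⟨δ, hδ, ?_⟩
  have hT2 : Tendsto (fun N : ℕ => ENNReal.ofReal (∑ k ∈ Finset.Icc 1 ⌊δ * N⌋₊,
      (N.choose k : ℝ) * (C * (k / N) / (Real.log (N / k) - C)) ^ k)) atTop (𝓝 0) := by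
    have := ENNReal.tendsto_ofReal hT
    simpa using this
  refine tendsto_of_tendsto_of_tendsto_of_le_of_le' tendsto_const_nhds hT2
    (Eventually.of_forall fun _ => bot_le) ?_
  filter_upwards [eventually_ge_atTop 2] with N hN
  have hper : ∀ S : Finset (Fin N), S.Nonempty → S.card ≤ ⌊δ * N⌋₊ →
      model ζ α N {ω | IsCut (gr (fun e => (eprob ζ 1 N ω.1 e - qq N) / (1 - qq N)) ω.2) S} ≤
      ENNReal.ofReal ((C * (S.card / N) / (Real.log (N / S.card) - C)) ^ S.card) := by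
    intro S hSn hSc
    obtain ⟨h3, h4, h5⟩ := SMALL_real N S.card hN hSn.card_pos C1 C2 C δ
      (∫ u, Real.exp (-(min (wt ζ N u.1) 2 * (Real.log (N / S.card) - C1 - 1))) ∂(pt ζ α N))
      hC1 hC2 hCa hCb hδ hδC hSc (fun h => hL1 N hN _ h)
    refine (SMALL_bound hP hA hME hG hE hC hB hAd hN hC1 (hI1 N hN) S hSn h3).trans ?_
    apply ENNReal.ofReal_le_ofReal
    exact pow_le_pow_left₀ (integral_nonneg fun _ => (Real.exp_pos _).le) h4 _
  set Fs : Finset (Finset (Fin N)) :=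
    Finset.univ.filter (fun S => S.Nonempty ∧ S.card ≤ ⌊δ * N⌋₊) with hFs
  have hb0 : ∀ k ∈ Finset.Icc 1 ⌊δ * (N:ℝ)⌋₊,
      0 ≤ (C * (k / N) / (Real.log (N / k) - C)) ^ k := by
    intro k hk
    rw [Finset.mem_Icc] at hk
    obtain ⟨h3, h4, h5⟩ := SMALL_real N k hN hk.1 C1 C2 C δ (C2 * Real.exp (-(Real.log (N / k) - C1 - 1)) /
      (Real.log (N / k) - C1 - 1))
      hC1 hC2 hCa hCb hδ hδC hk.2 (fun h => le_rfl)
    exact pow_nonneg h5 _
  have hmaps : ∀ S ∈ Fs, S.card ∈ Finset.Icc 1 ⌊δ * (N:ℝ)⌋₊ := by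
    intro S hS'
    rw [hFs, Finset.mem_filter] at hS'
    exact Finset.mem_Icc.2 ⟨hS'.2.1.card_pos, hS'.2.2⟩
  calc model ζ α N {ω | ∃ S : Finset (Fin N), S.Nonempty ∧ S.card ≤ ⌊δ * N⌋₊ ∧
        IsCut (gr (fun e => (eprob ζ 1 N ω.1 e - qq N) / (1 - qq N)) ω.2) S}
      ≤ model ζ α N (⋃ S ∈ Fs,
        {ω | IsCut (gr (fun e => (eprob ζ 1 N ω.1 e - qq N) / (1 - qq N)) ω.2) S}) := by
        apply measure_mono
        rintro ω ⟨S, h3, h4, h5⟩
        simp only [mem_iUnion]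
        exact ⟨S, Finset.mem_filter.2 ⟨Finset.mem_univ _, h3, h4⟩, h5⟩
    _ ≤ ∑ S ∈ Fs, model ζ α N
        {ω | IsCut (gr (fun e => (eprob ζ 1 N ω.1 e - qq N) / (1 - qq N)) ω.2) S} :=
        measure_biUnion_finset_le _ _
    _ ≤ ∑ S ∈ Fs, ENNReal.ofReal ((C * (S.card / N) / (Real.log (N / S.card) - C)) ^ S.card) := by
        apply Finset.sum_le_sum
        intro S hS'
        rw [hFs, Finset.mem_filter] at hS'
        exact hper S hS'.2.1 hS'.2.2
    _ = ENNReal.ofReal (∑ S ∈ Fs, (C * (S.card / N) / (Real.log (N / S.card) - C)) ^ S.card) := by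
        rw [ENNReal.ofReal_sum_of_nonneg]
        intro S hS'
        exact hb0 _ (hmaps S hS')
    _ ≤ _ := by
        apply ENNReal.ofReal_le_ofReal
        rw [← Finset.sum_fiberwise_of_maps_to hmaps]
        apply Finset.sum_le_sum
        intro k hk
        have h3 : ∀ S ∈ Fs.filter (fun S => S.card = k),
            (C * (S.card / N) / (Real.log (N / S.card) - C)) ^ S.card
              = (C * (k / N) / (Real.log (N / k) - C)) ^ k := by
          intro S hS'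
          rw [Finset.mem_filter] at hS'
          rw [hS'.2]
        rw [Finset.sum_congr rfl h3, Finset.sum_const, nsmul_eq_mul]
        apply mul_le_mul_of_nonneg_right _ (hb0 k hk)
        have h4 : (Fs.filter (fun S => S.card = k)).card ≤
            (Finset.powersetCard k (Finset.univ : Finset (Fin N))).card := by
          apply Finset.card_le_card
          intro S hS'
          rw [Finset.mem_filter] at hS'
          exact Finset.mem_powersetCard.2 ⟨Finset.subset_univ _, hS'.2⟩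
        rw [Finset.card_powersetCard, Finset.card_univ, Fintype.card_fin] at h4
        exact_mod_cast h4

end HG
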