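import Pool.Agent.R985.HG.Defs

/-!
Piece SPR1 of project HG (helper731): coupling of Bernoulli edges.
-/

open MeasureTheory Set Filter
open scoped ENNReal Topology BigOperators Real

namespace HG

/-- the graph given by edge indicators -/
def SPR1_gb {V : Type} (b : Sym2 V → Bool) : SimpleGraph V where
  Adj i j := i ≠ j ∧ b s(i, j) = true
  symm := ⟨fun i j h => ⟨h.1.symm, by rw [Sym2.eq_swap]; exact h.2⟩⟩
  loopless := ⟨fun i h => h.1 rfl⟩

theorem SPR1_gr {V : Type} (P U : Sym2 V → ℝ) :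
    gr P U = SPR1_gb (fun e => decide (U e < P e)) := by
  ext i j
  simp [gr, SPR1_gb]

theorem SPR1_sup {V : Type} (P Q U W : Sym2 V → ℝ) :
    gr P U ⊔ gr Q W = SPR1_gb (fun e => decide (U e < P e ∨ W e < Q e)) := by
  ext i j
  simp only [SimpleGraph.sup_adj, gr, SPR1_gb, decide_eq_true_eq]
  tauto

instance SPR1_prob : IsProbabilityMeasure (volume.restrict (Icc (0:ℝ) 1)) := ⟨by simp⟩

theorem SPR1_ge (p : ℝ) (h0 : 0 ≤ p) :
    (volume.restrict (Icc (0:ℝ) 1)) (Ici p) = ENNReal.ofReal (1 - p) := by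
  rw [Measure.restrict_apply measurableSet_Ici]
  have : Ici p ∩ Icc 0 1 = Icc p 1 := by
    ext x
    simp only [mem_inter_iff, mem_Ici, mem_Icc]
    constructor
    · rintro ⟨h1, h2, h3⟩
      exact ⟨h1, h3⟩
    · rintro ⟨h1, h2⟩
      exact ⟨h1, h0.trans h1, h2⟩
  rw [this, Real.volume_Icc]

theorem SPR1_ext (μ ν : Measure Bool) [IsProbabilityMeasure μ] [IsProbabilityMeasure ν]
    (h : μ {false} = ν {false}) : μ = ν := by
  refine Measure.ext_iff_singleton.2 fun b => ?_
  cases b with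
  | false => exact h
  | true =>
    have e : ({true} : Set Bool) = {false}ᶜ := by
      ext b
      cases b <;> simp
    rw [e, prob_compl_eq_one_sub (measurableSet_singleton _),
      prob_compl_eq_one_sub (measurableSet_singleton _), h]

theorem SPR1_meas1 (p : ℝ) : Measurable (fun u : ℝ => decide (u < p)) := by
  refine measurable_to_bool ?_
  have : (fun u : ℝ => decide (u < p)) ⁻¹' {true} = Iio p := by
    ext u
    simp
  rw [this]
  exact measurableSet_Iio

theorem SPR1_meas2 (p q : ℝ) : Measurable (fun z : ℝ × ℝ => decide (z.1 < p ∨ z.2 < q)) := by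
  refine measurable_to_bool ?_
  have : (fun z : ℝ × ℝ => decide (z.1 < p ∨ z.2 < q)) ⁻¹' {true} =
      Prod.fst ⁻¹' (Iio p) ∪ Prod.snd ⁻¹' (Iio q) := by
    ext u
    simp
  rw [this]
  exact (measurable_fst measurableSet_Iio).union (measurable_snd measurableSet_Iio)

theorem SPR1_one (P q : ℝ) (hq : 0 ≤ q) (hq1 : q < 1) (hP : q ≤ P) (hP1 : P ≤ 1) :
    (volume.restrict (Icc (0:ℝ) 1)).map (fun u : ℝ => decide (u < P)) =
      ((volume.restrict (Icc (0:ℝ) 1)).prod (volume.restrict (Icc (0:ℝ) 1))).map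
        (fun z : ℝ × ℝ => decide (z.1 < (P - q) / (1 - q) ∨ z.2 < q)) := by
  have i1 : IsProbabilityMeasure
      ((volume.restrict (Icc (0:ℝ) 1)).map (fun u : ℝ => decide (u < P))) :=
    Measure.isProbabilityMeasure_map (SPR1_meas1 P).aemeasurable
  have i2 : IsProbabilityMeasure
      (((volume.restrict (Icc (0:ℝ) 1)).prod (volume.restrict (Icc (0:ℝ) 1))).map
        (fun z : ℝ × ℝ => decide (z.1 < (P - q) / (1 - q) ∨ z.2 < q))) :=
    Measure.isProbabilityMeasure_map (SPR1_meas2 _ q).aemeasurable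
  refine SPR1_ext _ _ ?_
  rw [Measure.map_apply (SPR1_meas1 P) (measurableSet_singleton _),
    Measure.map_apply (SPR1_meas2 _ q) (measurableSet_singleton _)]
  have e1 : (fun u : ℝ => decide (u < P)) ⁻¹' {false} = Ici P := by
    ext u
    simp
  have e2 : (fun z : ℝ × ℝ => decide (z.1 < (P - q) / (1 - q) ∨ z.2 < q)) ⁻¹' {false} =
      Ici ((P - q) / (1 - q)) ×ˢ Ici q := by
    ext z
    simp only [mem_preimage, mem_singleton_iff, decide_eq_false_iff_not, not_or, not_lt, mem_prod,
      mem_Ici]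
  have h1q : 0 < 1 - q := by linarith
  have hp1 : 0 ≤ (P - q) / (1 - q) := div_nonneg (by linarith) h1q.le
  have hp2 : (P - q) / (1 - q) ≤ 1 := by
    rw [div_le_one h1q]
    linarith
  rw [e1, e2, Measure.prod_prod, SPR1_ge P (by linarith), SPR1_ge _ hp1, SPR1_ge q hq,
    ← ENNReal.ofReal_mul (by linarith)]
  congr 1
  field_simp
  ring

theorem t_SPR1 : S_SPR1 := by
  intro N P q hq hq1 hP T
  set F : (Sym2 (Fin N) → ℝ) → (Sym2 (Fin N) → Bool) := fun U e => decide (U e < P e) with hF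
  set G : (Sym2 (Fin N) → ℝ × ℝ) → (Sym2 (Fin N) → Bool) :=
    fun z e => decide ((z e).1 < (P e - q) / (1 - q) ∨ (z e).2 < q) with hG
  set T' : Set (Sym2 (Fin N) → Bool) := {b | SPR1_gb b ∈ T} with hT'
  have hFm : Measurable F := measurable_pi_lambda _ fun e =>
    (SPR1_meas1 (P e)).comp (measurable_pi_apply e)
  have hGm : Measurable G := measurable_pi_lambda _ fun e =>
    (SPR1_meas2 ((P e - q) / (1 - q)) q).comp (measurable_pi_apply e)
  have hTm : MeasurableSet T' := (Set.toFinite T').measurableSet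
  have h1 : thr N {U | gr P U ∈ T} = ((thr N).map F) T' := by
    rw [Measure.map_apply hFm hTm]
    congr 1
    ext U
    simp only [mem_ofPred_eq, mem_preimage, hT', hF, SPR1_gr]
  have hmp := measurePreserving_arrowProdEquivProdArrow ℝ ℝ (Sym2 (Fin N))
    (fun _ => volume.restrict (Icc (0:ℝ) 1)) (fun _ => volume.restrict (Icc (0:ℝ) 1))
  have h2 : ((thr N).prod (thr N))
      {w | gr (fun e => (P e - q) / (1 - q)) w.1 ⊔ gr (fun _ => q) w.2 ∈ T} =
      ((Measure.pi fun _ : Sym2 (Fin N) =>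
        (volume.restrict (Icc (0:ℝ) 1)).prod (volume.restrict (Icc (0:ℝ) 1))).map G) T' := by
    rw [Measure.map_apply hGm hTm]
    have := hmp.measure_preimage_equiv
      {w | gr (fun e => (P e - q) / (1 - q)) w.1 ⊔ gr (fun _ => q) w.2 ∈ T}
    unfold thr
    rw [← this]
    congr 1
    ext z
    simp only [mem_ofPred_eq, mem_preimage, hT', hG, SPR1_sup]
    rfl
  rw [h1, h2]
  congr 1
  have i1 : ∀ e, IsProbabilityMeasure
      ((volume.restrict (Icc (0:ℝ) 1)).map (fun u : ℝ => decide (u < P e))) := fun e =>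
    Measure.isProbabilityMeasure_map (SPR1_meas1 (P e)).aemeasurable
  have i2 : ∀ e, IsProbabilityMeasure
      (((volume.restrict (Icc (0:ℝ) 1)).prod (volume.restrict (Icc (0:ℝ) 1))).map
        (fun z : ℝ × ℝ => decide (z.1 < (P e - q) / (1 - q) ∨ z.2 < q))) := fun e =>
    Measure.isProbabilityMeasure_map (SPR1_meas2 _ q).aemeasurable
  have e1 : (thr N).map F = Measure.pi fun e =>
      ((volume.restrict (Icc (0:ℝ) 1)).map (fun u : ℝ => decide (u < P e))) := by
    unfold thr
    exact Measure.pi_map_pi (fun e => (SPR1_meas1 (P e)).aemeasurable)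
  have e2 : (Measure.pi fun _ : Sym2 (Fin N) =>
        (volume.restrict (Icc (0:ℝ) 1)).prod (volume.restrict (Icc (0:ℝ) 1))).map G =
      Measure.pi fun e => (((volume.restrict (Icc (0:ℝ) 1)).prod
        (volume.restrict (Icc (0:ℝ) 1))).map
        (fun z : ℝ × ℝ => decide (z.1 < (P e - q) / (1 - q) ∨ z.2 < q))) :=
    Measure.pi_map_pi (fun e => (SPR1_meas2 _ q).aemeasurable)
  rw [e1, e2]
  congr 1
  funext e
  exact SPR1_one (P e) q hq hq1 (hP e).1 (hP e).2

end HG
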