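import Pool.Agent.R985.HG.Defs

/-!
# HG-SPR2: the second round of the sprinkling
-/

open MeasureTheory Set Filter
open scoped ENNReal Topology BigOperators Real

namespace HG

noncomputable section

instance SPR2_prob01 : IsProbabilityMeasure (volume.restrict (Icc (0 : ℝ) 1)) :=
  ⟨by simp⟩

instance SPR2_thr (N : ℕ) : IsProbabilityMeasure (thr N) := by
  unfold thr
  infer_instance

/-- the component of `u` in `G` -/
def SPR2_C {N : ℕ} (G : SimpleGraph (Fin N)) (u : Fin N) : Finset (Fin N) :=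
  by classical exact Finset.univ.filter (fun x => G.Reachable u x)

theorem SPR2_mem {N : ℕ} (G : SimpleGraph (Fin N)) (u x : Fin N) :
    x ∈ SPR2_C G u ↔ G.Reachable u x := by
  unfold SPR2_C
  simp

theorem SPR2_cut {N : ℕ} (G : SimpleGraph (Fin N)) (u : Fin N) :
    (SPR2_C G u).Nonempty ∧ IsCut G (SPR2_C G u) := by
  refine ⟨⟨u, (SPR2_mem G u u).mpr (SimpleGraph.Reachable.refl u)⟩, ?_⟩
  intro i hi j hj hij
  exact hj ((SPR2_mem G u j).mpr (((SPR2_mem G u i).mp hi).trans hij.reachable))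

/-- the box event -/
def SPR2_E {N : ℕ} (A B : Finset (Fin N)) (q : ℝ) : Set (Sym2 (Fin N) → ℝ) :=
  {W | ∀ i ∈ A, ∀ j ∈ B, q ≤ W s(i, j)}

theorem SPR2_box {N : ℕ} (A B : Finset (Fin N)) (hAB : Disjoint A B) (q : ℝ) (hq : 0 ≤ q)
    (hq1 : q < 1) :
    thr N (SPR2_E A B q) = ENNReal.ofReal ((1 - q) ^ (A.card * B.card)) := by
  classical
  set F : Finset (Sym2 (Fin N)) := (A ×ˢ B).image (fun p => s(p.1, p.2)) with hF
  have hcard : F.card = A.card * B.card := by
    rw [hF, Finset.card_image_of_injOn, Finset.card_product]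
    rintro ⟨a, b⟩ hab ⟨c, d⟩ hcd h
    rw [Finset.mem_coe, Finset.mem_product] at hab hcd
    simp only at hab hcd h
    rw [Sym2.eq_iff] at h
    rcases h with ⟨h1, h2⟩ | ⟨h1, h2⟩
    · rw [h1, h2]
    · exfalso
      exact (Finset.disjoint_left.mp hAB hab.1) (h1 ▸ hcd.2)
  have hset : SPR2_E A B q = Set.univ.pi (fun e : Sym2 (Fin N) => if e ∈ F then Ici q else univ) := by
    ext W
    unfold SPR2_E
    constructor
    · intro h e _
      show W e ∈ (if e ∈ F then Ici q else univ)
      by_cases he : e ∈ F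
      · rw [if_pos he]
        rw [hF, Finset.mem_image] at he
        obtain ⟨p, hp, rfl⟩ := he
        rw [Finset.mem_product] at hp
        exact h _ hp.1 _ hp.2
      · rw [if_neg he]
        exact mem_univ _
    · intro h i hi j hj
      have h1 : W s(i, j) ∈ (if s(i, j) ∈ F then Ici q else univ) := h s(i, j) (mem_univ _)
      have hmem : s(i, j) ∈ F := by
        rw [hF]
        exact Finset.mem_image.mpr ⟨(i, j), Finset.mem_product.mpr ⟨hi, hj⟩, rfl⟩
      rw [if_pos hmem] at h1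
      exact h1
  rw [hset]
  unfold thr
  rw [Measure.pi_pi]
  have h1 : ∀ e : Sym2 (Fin N), (volume.restrict (Icc (0 : ℝ) 1)) (if e ∈ F then Ici q else univ)
      = if e ∈ F then ENNReal.ofReal (1 - q) else 1 := by
    intro e
    split_ifs with he
    · rw [Measure.restrict_apply measurableSet_Ici]
      have : Ici q ∩ Icc (0 : ℝ) 1 = Icc q 1 := by
        ext x
        simp only [mem_inter_iff, mem_Ici, mem_Icc]
        constructor
        · rintro ⟨h1, h2, h3⟩; exact ⟨h1, h3⟩
        · rintro ⟨h1, h3⟩; exact ⟨h1, hq.trans h1, h3⟩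
      rw [this, Real.volume_Icc]
    · exact measure_univ
  rw [Finset.prod_congr rfl (fun e _ => h1 e), Finset.prod_ite_mem, Finset.univ_inter,
    Finset.prod_const, hcard, ENNReal.ofReal_pow (by linarith)]

theorem t_SPR2 : S_SPR2 := by
  classical
  intro N hN G q hq hq1 m hm
  -- the events
  set Ev : Fin N × Fin N → Set (Sym2 (Fin N) → ℝ) := fun p =>
    if G.Reachable p.1 p.2 then ∅ else SPR2_E (SPR2_C G p.1) (SPR2_C G p.2) q with hEv
  have hsub : {W | ¬ (G ⊔ gr (fun _ => q) W).Connected} ⊆ ⋃ p : Fin N × Fin N, Ev p := by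
    intro W hW
    have hne : Nonempty (Fin N) := ⟨⟨0, hN⟩⟩
    have hpre : ¬ (G ⊔ gr (fun _ => q) W).Preconnected := fun h => hW ⟨h⟩
    unfold SimpleGraph.Preconnected at hpre
    push Not at hpre
    obtain ⟨u, v, huv⟩ := hpre
    refine mem_iUnion.mpr ⟨(u, v), ?_⟩
    have hG : ¬ G.Reachable u v := fun h => huv (h.mono le_sup_left)
    rw [hEv]
    simp only
    rw [if_neg hG]
    intro i hi j hj
    by_contra hcon
    rw [not_le] at hcon
    have hi' := (SPR2_mem G u i).mp hi
    have hj' := (SPR2_mem G v j).mp hj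
    have hij : i ≠ j := by
      rintro rfl
      exact hG (hi'.trans hj'.symm)
    have hadj : (G ⊔ gr (fun _ => q) W).Adj i j := Or.inr ⟨hij, hcon⟩
    exact huv (((hi'.mono le_sup_left).trans hadj.reachable).trans (hj'.mono le_sup_left).symm)
  have hEvle : ∀ p, thr N (Ev p) ≤ ENNReal.ofReal ((1 - q) ^ (m ^ 2)) := by
    intro p
    rw [hEv]
    simp only
    split_ifs with h
    · simp
    · have hdisj : Disjoint (SPR2_C G p.1) (SPR2_C G p.2) := by
        rw [Finset.disjoint_left]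
        intro x hx hx'
        exact h (((SPR2_mem G _ x).mp hx).trans ((SPR2_mem G _ x).mp hx').symm)
      rw [SPR2_box _ _ hdisj q hq hq1]
      apply ENNReal.ofReal_le_ofReal
      apply pow_le_pow_of_le_one (by linarith) (by linarith)
      have h1 := hm _ (SPR2_cut G p.1).1 (SPR2_cut G p.1).2
      have h2 := hm _ (SPR2_cut G p.2).1 (SPR2_cut G p.2).2
      rw [sq]
      exact Nat.mul_le_mul h1.le h2.le
  calc thr N {W | ¬ (G ⊔ gr (fun _ => q) W).Connected}
      ≤ thr N (⋃ p : Fin N × Fin N, Ev p) := measure_mono hsub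
    _ ≤ ∑ p : Fin N × Fin N, thr N (Ev p) := measure_iUnion_fintype_le _ _
    _ ≤ ∑ _ : Fin N × Fin N, ENNReal.ofReal ((1 - q) ^ (m ^ 2)) :=
        Finset.sum_le_sum fun p _ => hEvle p
    _ = ENNReal.ofReal ((N : ℝ) ^ 2 * (1 - q) ^ (m ^ 2)) := by
        rw [Finset.sum_const, Finset.card_univ, Fintype.card_prod, Fintype.card_fin, nsmul_eq_mul,
          ENNReal.ofReal_mul (by positivity)]
        congr 1
        rw [← sq, ← ENNReal.ofReal_natCast]
        push_cast
        rfl

theorem SPR2_meas {N : ℕ} (P : Sym2 (Fin N) → ℝ) (G : SimpleGraph (Fin N)) :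
    MeasurableSet {U : Sym2 (Fin N) → ℝ | gr P U = G} := by
  have h : {U : Sym2 (Fin N) → ℝ | gr P U = G} =
      ⋂ i : Fin N, ⋂ j : Fin N, {U | (i ≠ j ∧ U s(i, j) < P s(i, j)) ↔ G.Adj i j} := by
    ext U
    simp only [mem_iInter]
    constructor
    · rintro h i j
      have h' : gr P U = G := h
      rw [← h']
      exact Iff.rfl
    · intro h
      show gr P U = G
      ext i j
      exact h i j
  rw [h]
  refine MeasurableSet.iInter fun i => MeasurableSet.iInter fun j => ?_
  have hm : MeasurableSet {U : Sym2 (Fin N) → ℝ | U s(i, j) < P s(i, j)} :=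
    measurableSet_lt (measurable_pi_apply _) measurable_const
  by_cases hij : i = j
  · by_cases hG : G.Adj i j
    · exact absurd hij hG.ne
    · have : {U : Sym2 (Fin N) → ℝ | (i ≠ j ∧ U s(i, j) < P s(i, j)) ↔ G.Adj i j} = univ := by
        ext U
        exact ⟨fun _ => mem_univ _, fun _ => ⟨fun h => absurd hij h.1, fun h => absurd h hG⟩⟩
      rw [this]
      exact MeasurableSet.univ
  · by_cases hG : G.Adj i j
    · have : {U : Sym2 (Fin N) → ℝ | (i ≠ j ∧ U s(i, j) < P s(i, j)) ↔ G.Adj i j} =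
          {U : Sym2 (Fin N) → ℝ | U s(i, j) < P s(i, j)} := by
        ext U
        exact ⟨fun h => (h.mpr hG).2, fun h => ⟨fun _ => hG, fun _ => ⟨hij, h⟩⟩⟩
      rw [this]
      exact hm
    · have : {U : Sym2 (Fin N) → ℝ | (i ≠ j ∧ U s(i, j) < P s(i, j)) ↔ G.Adj i j} =
          {U : Sym2 (Fin N) → ℝ | U s(i, j) < P s(i, j)}ᶜ := by
        ext U
        exact ⟨fun h h' => hG (h.mp ⟨hij, h'⟩), fun h => ⟨fun h' => absurd h'.2 h,
          fun h' => absurd h' hG⟩⟩
      rw [this]
      exact hm.compl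

theorem t_SPR (h1 : S_SPR1) (h2 : S_SPR2) : S_SPR := by
  classical
  intro N hN P q hq hq1 hP m
  set P1 : Sym2 (Fin N) → ℝ := fun e => (P e - q) / (1 - q) with hP1
  have h1' := h1 N P q hq hq1 hP {G | ¬ G.Connected}
  change thr N {U | ¬ (gr P U).Connected} = _ at h1'
  rw [h1']
  set A : Set (Sym2 (Fin N) → ℝ) := {U | ∃ S : Finset (Fin N), S.Nonempty ∧ S.card ≤ m ∧
      IsCut (gr P1 U) S} with hA
  set Good : SimpleGraph (Fin N) → Prop := fun G =>
    ∀ S : Finset (Fin N), S.Nonempty → IsCut G S → m < S.card with hGood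
  set bd := ENNReal.ofReal ((N:ℝ) ^ 2 * (1 - q) ^ (m ^ 2)) with hbd
  set Ev : SimpleGraph (Fin N) → Set ((Sym2 (Fin N) → ℝ) × (Sym2 (Fin N) → ℝ)) := fun G =>
    {U | gr P1 U = G} ×ˢ (if Good G then {W | ¬ (G ⊔ gr (fun _ => q) W).Connected} else ∅) with hEv
  have hsub : {w : (Sym2 (Fin N) → ℝ) × (Sym2 (Fin N) → ℝ) |
      gr P1 w.1 ⊔ gr (fun _ => q) w.2 ∈ {G : SimpleGraph (Fin N) | ¬ G.Connected}} ⊆
      (A ×ˢ univ) ∪ ⋃ G : SimpleGraph (Fin N), Ev G := by
    rintro ⟨U, W⟩ hw
    by_cases hU : U ∈ A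
    · exact Or.inl ⟨hU, mem_univ _⟩
    · right
      refine mem_iUnion.mpr ⟨gr P1 U, ?_⟩
      have hg : Good (gr P1 U) := by
        intro S hS hcut
        by_contra hcon
        exact hU ⟨S, hS, by omega, hcut⟩
      refine ⟨rfl, ?_⟩
      simp only
      rw [if_pos hg]
      exact hw
  have hEvle : ∀ G, ((thr N).prod (thr N)) (Ev G) ≤ thr N {U | gr P1 U = G} * bd := by
    intro G
    rw [hEv]
    simp only
    rw [Measure.prod_prod]
    gcongr
    split_ifs with hg
    · exact h2 N hN G q hq hq1 m hg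
    · simp
  have hsum : ∑ G : SimpleGraph (Fin N), thr N {U | gr P1 U = G} ≤ 1 := by
    have hd : Pairwise (Function.onFun Disjoint
        (fun G : SimpleGraph (Fin N) => {U : Sym2 (Fin N) → ℝ | gr P1 U = G})) := by
      intro G G' hGG'
      rw [Function.onFun, Set.disjoint_left]
      intro U hU hU'
      exact hGG' (hU.symm.trans hU')
    have h3 := measure_iUnion (μ := thr N) hd (fun G => SPR2_meas P1 G)
    rw [tsum_fintype] at h3
    rw [← h3]
    exact prob_le_one
  calc ((thr N).prod (thr N)) {w : (Sym2 (Fin N) → ℝ) × (Sym2 (Fin N) → ℝ) |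
      gr P1 w.1 ⊔ gr (fun _ => q) w.2 ∈ {G : SimpleGraph (Fin N) | ¬ G.Connected}}
      ≤ ((thr N).prod (thr N)) ((A ×ˢ univ) ∪ ⋃ G : SimpleGraph (Fin N), Ev G) :=
        measure_mono hsub
    _ ≤ ((thr N).prod (thr N)) (A ×ˢ univ) + ((thr N).prod (thr N)) (⋃ G, Ev G) :=
        measure_union_le _ _
    _ ≤ thr N A + ∑ G : SimpleGraph (Fin N), ((thr N).prod (thr N)) (Ev G) := by
        gcongr
        · rw [Measure.prod_prod, measure_univ, mul_one]
        · exact measure_iUnion_fintype_le _ _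
    _ ≤ thr N A + ∑ G : SimpleGraph (Fin N), thr N {U | gr P1 U = G} * bd := by
        gcongr with G _
        exact hEvle G
    _ ≤ thr N A + bd := by
        gcongr
        rw [← Finset.sum_mul]
        calc _ ≤ 1 * bd := by gcongr
          _ = bd := one_mul _

end

end HG
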