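import Pool.Agent.R985.HG.Defs

/-!
Project HG, piece SUM: the sum over the sizes tends to `0`.
-/

open MeasureTheory Set Filter
open scoped ENNReal Topology BigOperators Real

namespace HG

theorem SUM_term (C : ℝ) (hC : 0 < C) (N k : ℕ) (hN : 1 ≤ N) (L : ℝ) (hL : 0 < L) :
    (N.choose k : ℝ) * (C * (k / N) / L) ^ k ≤ (Real.exp 1 * C / L) ^ k := by
  have h1 : (N.choose k : ℝ) ≤ (N : ℝ) ^ k / (k.factorial) := Nat.choose_le_pow_div k N
  have h2 : (k : ℝ) ^ k / k.factorial ≤ Real.exp k :=
    Real.pow_div_factorial_le_exp _ (by positivity) k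
  have hN' : (0 : ℝ) < N := by exact_mod_cast hN
  calc (N.choose k : ℝ) * (C * (k / N) / L) ^ k
      ≤ (N : ℝ) ^ k / k.factorial * (C * (k / N) / L) ^ k := by gcongr
    _ = (k : ℝ) ^ k / k.factorial * (C / L) ^ k := by
        have h3 : C * ((k : ℝ) / N) / L = (k : ℝ) * (C / L) / N := by
          field_simp
        rw [h3, div_pow, mul_pow]
        field_simp
    _ ≤ Real.exp k * (C / L) ^ k := by gcongr
    _ = (Real.exp 1 * C / L) ^ k := by
        rw [← Real.exp_one_pow, ← mul_pow, mul_div_assoc]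

theorem SUM_main (C δ : ℝ) (hC : 0 < C) (hδ : 0 < δ)
    (hlog : C + 1 + 2 * (Real.exp 1 * C) ≤ Real.log (1 / δ)) :
    Tendsto (fun N : ℕ => ∑ k ∈ Finset.Icc 1 ⌊δ * N⌋₊,
      (N.choose k : ℝ) * (C * (k / N) / (Real.log (N / k) - C)) ^ k) atTop (𝓝 0) := by
  classical
  set F : ℕ → ℕ → ℝ := fun N k => if k ∈ Finset.Icc 1 ⌊δ * N⌋₊ then
      (N.choose k : ℝ) * (C * (k / N) / (Real.log (N / k) - C)) ^ k else 0 with hF
  have hsum : ∀ N : ℕ, ∑ k ∈ Finset.Icc 1 ⌊δ * N⌋₊,
      (N.choose k : ℝ) * (C * (k / N) / (Real.log (N / k) - C)) ^ k = ∑' k, F N k := by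
    intro N
    rw [tsum_eq_sum (s := Finset.Icc 1 ⌊δ * N⌋₊)]
    · refine Finset.sum_congr rfl fun k hk => ?_
      simp only [hF, if_pos hk]
    · intro k hk
      simp only [hF, if_neg hk]
  simp_rw [hsum]
  -- facts on members
  have hmem : ∀ N k : ℕ, k ∈ Finset.Icc 1 ⌊δ * N⌋₊ → 1 ≤ k ∧ 1 ≤ N ∧
      1 + 2 * (Real.exp 1 * C) ≤ Real.log (N / k) - C := by
    intro N k hk
    rw [Finset.mem_Icc] at hk
    have hk1 : (1 : ℝ) ≤ k := by exact_mod_cast hk.1
    have h1 : (k : ℝ) ≤ δ * N := by
      have h2 : (⌊δ * N⌋₊ : ℝ) ≤ δ * N := Nat.floor_le (by positivity)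
      have h3 : (k : ℝ) ≤ (⌊δ * N⌋₊ : ℝ) := by exact_mod_cast hk.2
      linarith
    have hN : 1 ≤ N := by
      rcases Nat.eq_zero_or_pos N with rfl | h
      · simp at h1
        linarith
      · exact h
    refine ⟨hk.1, hN, ?_⟩
    have h4 : 1 / δ ≤ (N : ℝ) / k := by
      rw [div_le_div_iff₀ hδ (by linarith)]
      linarith
    have h5 : Real.log (1 / δ) ≤ Real.log ((N : ℝ) / k) :=
      Real.log_le_log (by positivity) h4
    linarith
  have hnn : ∀ N k : ℕ, 0 ≤ F N k := by
    intro N k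
    simp only [hF]
    split_ifs with h
    · obtain ⟨h1, h2, h3⟩ := hmem N k h
      have h4 : 0 < Real.log ((N : ℝ) / k) - C := by
        have := Real.exp_pos 1
        have : 0 < Real.exp 1 * C := by positivity
        linarith
      positivity
    · exact le_refl _
  have hub : ∀ N k : ℕ, k ∈ Finset.Icc 1 ⌊δ * N⌋₊ →
      F N k ≤ (Real.exp 1 * C / (Real.log (N / k) - C)) ^ k := by
    intro N k h
    obtain ⟨h1, h2, h3⟩ := hmem N k h
    have h4 : 0 < Real.log ((N : ℝ) / k) - C := by
      have := Real.exp_pos 1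
      have : 0 < Real.exp 1 * C := by positivity
      linarith
    simp only [hF, if_pos h]
    exact SUM_term C hC N k h2 _ h4
  have h0 : (0 : ℝ) = ∑' _k : ℕ, (0 : ℝ) := by simp
  rw [h0]
  apply tendsto_tsum_of_dominated_convergence (bound := fun k : ℕ => ((1 : ℝ) / 2) ^ k)
  · exact summable_geometric_of_lt_one (by norm_num) (by norm_num)
  · intro k
    rcases Nat.eq_zero_or_pos k with rfl | hk
    · have : (fun N => F N 0) = fun _ => (0 : ℝ) := by
        funext N
        simp [hF]
      rw [this]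
      exact tendsto_const_nhds
    · -- squeeze
      have hk0 : (0 : ℝ) < k := by exact_mod_cast hk
      have hlim : Tendsto (fun N : ℕ => (Real.exp 1 * C / (Real.log (N / k) - C)) ^ k) atTop
          (𝓝 0) := by
        have h1 : Tendsto (fun N : ℕ => Real.log ((N : ℝ) / k) - C) atTop atTop := by
          apply tendsto_atTop_add_const_right
          exact Real.tendsto_log_atTop.comp
            (Tendsto.atTop_div_const hk0 tendsto_natCast_atTop_atTop)
        have h2 : Tendsto (fun N : ℕ => Real.exp 1 * C / (Real.log ((N : ℝ) / k) - C)) atTop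
            (𝓝 0) := h1.const_div_atTop _
        have h3 := h2.pow k
        rwa [zero_pow (by omega)] at h3
      have habs : Tendsto (fun N : ℕ => |(Real.exp 1 * C / (Real.log (N / k) - C)) ^ k|) atTop
          (𝓝 0) := by
        have := hlim.abs
        rwa [abs_zero] at this
      refine squeeze_zero (fun N => hnn N k) ?_ habs
      intro N
      by_cases h : k ∈ Finset.Icc 1 ⌊δ * N⌋₊
      · exact (hub N k h).trans (le_abs_self _)
      · simp only [hF, if_neg h]
        exact abs_nonneg _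
  · refine Eventually.of_forall fun N k => ?_
    rw [Real.norm_eq_abs, abs_of_nonneg (hnn N k)]
    by_cases h : k ∈ Finset.Icc 1 ⌊δ * N⌋₊
    · obtain ⟨h1, h2, h3⟩ := hmem N k h
      have he : 0 < Real.exp 1 * C := by positivity
      have h4 : 0 < Real.log ((N : ℝ) / k) - C := by linarith
      refine (hub N k h).trans ?_
      apply pow_le_pow_left₀ (by positivity)
      rw [div_le_div_iff₀ h4 (by norm_num)]
      linarith
    · simp only [hF, if_neg h]
      positivity

theorem t_SUM : S_SUM := by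
  intro C hC
  have he : 0 < Real.exp 1 * C := by positivity
  have hl : Real.log (1 / Real.exp (-(C + 1 + 2 * (Real.exp 1 * C)))) =
      C + 1 + 2 * (Real.exp 1 * C) := by
    rw [one_div, ← Real.exp_neg, Real.log_exp]
    ring
  refine ⟨Real.exp (-(C + 1 + 2 * (Real.exp 1 * C))), Real.exp_pos _, ?_, ?_, ?_⟩
  · have h1 : Real.exp (-(C + 1 + 2 * (Real.exp 1 * C))) < Real.exp (-1) :=
      Real.exp_lt_exp.2 (by linarith)
    have h2 : Real.exp (-1) < 1 / 2 := by
      rw [Real.exp_neg, ← one_div]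
      have h3 := Real.exp_one_gt_d9
      apply one_div_lt_one_div_of_lt (by norm_num)
      linarith
    linarith
  · rw [hl]
    linarith
  · exact SUM_main C _ hC (Real.exp_pos _) hl.ge

end HG
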